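import Pool.Agent.Helper36.AM.St
import Pool.Agent.Helper26.OUT.Wl
import Pool.Agent.Helper31.EC.DensS
import Pool.Agent.Helper31.EC.Real
import Pool.Agent.Helper31.EC.Uns

/-! THE CLASSES `CL k` AND `CC k` (one weight one): there are a type `i`, a finer leaf `L` of this type over which the
coordinate `t = x_0` is full, and a polynomial `Φ` of the point (known to the base up to rate zero, not a polynomial of
`x_0` alone) such that along the finer leaf `Φ` is a polynomial of degree at most `k` in `x_0`. -/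

set_option autoImplicit false

namespace Pool.Agent.Helper75.CC

open Finset Filter Topology Pool.Agent.Helper69.RK Pool.Agent.Helper31.EC Pool.Agent.Helper31.EC.Sp
open Pool.Agent.Helper40.EL Pool.Agent.Helper89.LX Pool.Agent.Helper3.LF Pool.Agent.Helper84.MT Pool.Agent.Helper36.AM

noncomputable section

variable {S T : Sp} {M : ℕ} {E : ℕ → ℕ} {ι κ : Type}

/-! ### finer leaves over one coordinate -/

/-- the leaf `L` with the parameter `x_t` -/
def tl (Q : S.VV M) (t : Fin M) (L : ∀ n, Setoid (S.F n).Ω)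
    (hL : Tendsto (fun n => h (fc (Setoid.ker ((Q.co t).cellv 1 n))) (fc (L n)) / (S.F n).n) UF (𝓝 1)) :
    Leaf S (Q.co t) (lin 1) :=
  Leaf.ofPoly 1 le_rfl 1 le_rfl L (Q.co t) (fun _ _ _ => MvPolynomial.X 0)
    (fun _ _ _ => (MvPolynomial.totalDegree_X _).le) (Eventually.of_forall fun _ _ _ _ _ _ _ => rfl)
    ⟨fun _ => 1, S.Sub_const zero_le_one, Eventually.of_forall fun _ _ _ _ a => by
      classical
      rw [MvPolynomial.coeff_X]
      split_ifs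
      · rw [abs_one]
      · rw [abs_zero]
        exact zero_le_one⟩
    ⟨fun _ => 0, S.Sub_const le_rfl, Eventually.of_forall fun n ω _ i => by
      rw [MvPolynomial.eval_X, Subsingleton.elim i 0, sub_self, abs_zero, zero_mul]⟩
    (by rw [Nat.cast_one]; exact hL)

/-- the window `b` of the finer leaf -/
def sw (Q : S.VV M) (t : Fin M) (L : ∀ n, Setoid (S.F n).Ω) (b : ℝ) : Part S :=
  fun n => fc (L n ⊓ Setoid.ker ((Q.co t).cellv b n))

/-- `L` is a FINER LEAF of the type `i`, with the parameter `x_t` -/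
structure SL (s : MSys S M E ι) (i : ι) (t : Fin M) (L : ∀ n, Setoid (S.F n).Ω) : Prop where
  win : ∀ b : ℝ, 0 ≤ b → b ≤ 1 → PLe ((s.lf i).win b) (sw s.Q t L b)
  real : Tendsto (fun n => h (fc (Setoid.ker ((s.Q.co t).cellv 1 n))) (fc (L n)) / (S.F n).n) UF (𝓝 1)

theorem SL.win_eq {s : MSys S M E ι} {i : ι} {t : Fin M} {L : ∀ n, Setoid (S.F n).Ω} (h : SL s i t L) (b : ℝ) :
    (tl s.Q t L h.real).win b = sw s.Q t L b := rfl

/-- null entropies on events of extensions -/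
theorem PLe_im (p : Pj T S) (A : ∀ k, (T.F k).Ω → Prop) (hA : 0 < ul (T.pr A)) {x y : Part S} (hxy : PLe x y) :
    PLe (x.im p A) (y.im p A) := by
  have hT : Nul T (fun k => h (x k) (y k)) := by
    unfold PLe at hxy
    unfold Nul at hxy ⊢
    exact hxy.congr fun k => by rw [p.hn k]
  have h1 : Nul T (fun k => h (x.im p A k) (y.im p A k)) := by
    refine Nul.div_pr hA hT (fun k => h_nonneg _ _) fun k => ?_
    have e1 : h (x.im p A k) (y.im p A k) = h ((T.F k).rmap (A k) ((p.fp k).map (x k)))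
        ((T.F k).rmap (A k) ((p.fp k).map (y k))) := by
      rw [← FSp.imp_imap, ← FSp.imp_imap, FPj.h_map]
      rfl
    rw [e1]
    have h2 := (T.F k).rmap_h_le (A k) ((p.fp k).map (x k)) ((p.fp k).map (y k))
    rw [(p.fp k).h_map] at h2
    have e2 : T.pr A k = (T.F k).pb (A k) := rfl
    rw [e2]
    linarith
  unfold PLe
  unfold Nul at h1 ⊢
  exact h1.congr fun k => by
    have : ((Sp.im p A).F k).n = (T.F k).n := (p.hn k).symm
    rw [this]

theorem PLe_pull (p : Pj T S) {x y : Part S} (hxy : PLe x y) : PLe (x.pull p) (y.pull p) := by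
  unfold PLe at hxy ⊢
  unfold Nul at hxy ⊢
  refine hxy.congr fun k => ?_
  rw [p.hn k]
  congr 1
  exact ((p.fp k).h_map _ _).symm

theorem SL.im {s : MSys S M E ι} {i : ι} {t : Fin M} {L : ∀ n, Setoid (S.F n).Ω} (h : SL s i t L) (p : Pj T S)
    (A : ∀ k, (T.F k).Ω → Prop) (hA : 0 < ul (T.pr A)) : SL (s.im p A hA) i t L where
  win := fun b h0 h1 => by
    have h2 := PLe_im p A hA (h.win b h0 h1)
    have e1 : ((s.im p A hA).lf i).win b = ((s.lf i).win b).im p A := win_im p A hA (s.lf i) b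
    rw [e1]
    exact h2
  real := by
    have h1 : Tendsto (fun n => Helper31.EC.h (fc (Setoid.ker ((s.Q.co t).cellv 1 n))) (fc (L n)) / (S.F n).n) UF
        (𝓝 (((1 : ℕ) : ℝ) * 1)) := by
      rw [Nat.cast_one, mul_one]
      exact h.real
    have h2 := full_im p A hA (s.Q.co t) zero_le_one (fun n => fc (L n)) h1
    rw [Nat.cast_one, mul_one] at h2
    exact h2

theorem SL.pull {s : MSys S M E ι} {i : ι} {t : Fin M} {L : ∀ n, Setoid (S.F n).Ω} (h : SL s i t L) (p : Pj T S) :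
    SL (s.pull p) i t (fun n => Setoid.comap (p.π n) (L n)) where
  win := fun b h0 h1 => by
    have h2 := PLe_pull p (h.win b h0 h1)
    have e1 : ((s.pull p).lf i).win b = ((s.lf i).win b).pull p := win_pull p (s.lf i) b
    have e2 : sw (s.pull p).Q t (fun n => Setoid.comap (p.π n) (L n)) b = (sw s.Q t L b).pull p := by
      funext n
      show fc (Setoid.comap (p.π n) (L n) ⊓ Setoid.ker ((p.vv (s.Q.co t)).cellv b n)) = _
      rw [vv_cellv]
      rfl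
    rw [e1, e2]
    exact h2
  real := by
    have h1 := ((tl s.Q t L h.real).pull p).full
    rw [show (((tl s.Q t L h.real).pull p).e : ℝ) = 1 from Nat.cast_one] at h1
    exact h1

theorem PLe_chg {r : ℝ} (h0 : 0 < r) {A B : ∀ n, Setoid (S.F n).Ω}
    (h : PLe (S := S) (fun n => fc (A n)) (fun n => fc (B n))) :
    PLe (S := S.chg S.tr r h0) (fun n => fc (F := (S.F n).chg ⊤ r h0) (A n))
      (fun n => fc (F := (S.F n).chg ⊤ r h0) (B n)) := by
  unfold PLe at h ⊢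
  have e1 : (fun n => Helper31.EC.h (fc (F := (S.F n).chg ⊤ r h0) (A n)) (fc (B n))) =
      fun n => Helper31.EC.h (fc (F := S.F n) (A n)) (fc (B n)) := funext fun n => h_chg_top r h0 (A n) (B n)
  have h2 := Pool.Agent.Helper52.SL.nul_trn (S := S) (h0 := h0) (f := fun n => Helper31.EC.h (fc (F := S.F n) (A n)) (fc (B n)))
  have h3 := h2.mpr h
  rw [← e1] at h3
  exact h3

theorem SL.trn {s : MSys S M E ι} {i : ι} {t : Fin M} {L : ∀ n, Setoid (S.F n).Ω} (h : SL s i t L) {r : ℝ}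
    (h0 : 0 < r) (hr : r ≤ 1) : SL (s.trn r h0 hr) i t L where
  win := fun b hb0 hb1 => by
    have h2 := PLe_chg h0 (h.win (r * b) (by positivity) (by nlinarith))
    have e1 : ∀ n, ((s.lf i).Y.chg S.tr r h0).cellv b n = (s.lf i).Y.cellv (r * b) n := fun n =>
      Pool.Agent.Helper52.SL.cellv_chg (s.lf i).Y r h0 b n
    have e2 : ∀ n, ((s.Q.co t).chg S.tr r h0).cellv b n = (s.Q.co t).cellv (r * b) n := fun n =>
      Pool.Agent.Helper52.SL.cellv_chg (s.Q.co t) r h0 b n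
    have e3 : ((s.trn r h0 hr).lf i).win b = fun n => fc (F := (S.F n).chg ⊤ r h0) ((s.lf i).La n ⊓
        Setoid.ker ((s.lf i).Y.cellv (r * b) n)) := funext fun n =>
      congrArg (fun f => fc (F := (S.F n).chg ⊤ r h0) ((s.lf i).La n ⊓ Setoid.ker f)) (e1 n)
    have e4 : sw (s.trn r h0 hr).Q t L b = fun n => fc (F := (S.F n).chg ⊤ r h0) (L n ⊓
        Setoid.ker ((s.Q.co t).cellv (r * b) n)) := funext fun n =>
      congrArg (fun f => fc (F := (S.F n).chg ⊤ r h0) (L n ⊓ Setoid.ker f)) (e2 n)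
    rw [e3, e4]
    exact h2
  real := by
    have h1 := ((tl s.Q t L h.real).trn r h0 hr).full
    rw [show (((tl s.Q t L h.real).trn r h0 hr).e : ℝ) = 1 from Nat.cast_one] at h1
    exact h1

theorem SL.union {s : MSys S M E ι} {i : ι} {t : Fin M} {L : ∀ n, Setoid (S.F n).Ω} (h : SL s i t L)
    (l : κ → Leaf S s.Q E) : SL (s.union l) (Sum.inl i) t L := ⟨h.win, h.real⟩

theorem SL.ren {s : MSys S M E ι} {i : κ} {t : Fin M} {L : ∀ n, Setoid (S.F n).Ω} (f : κ → ι) (h : SL s (f i) t L) :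
    SL (s.ren f) i t L := ⟨h.win, h.real⟩

/-- other informations of rate zero can be added to the finer leaf -/
theorem SL.add {s : MSys S M E ι} {i : ι} {t : Fin M} {L : ∀ n, Setoid (S.F n).Ω} (h : SL s i t L)
    {W : ∀ n, Setoid (S.F n).Ω} (hW : PLe (S := S) (fun n => fc (W n)) (fun n => fc (L n))) :
    SL s i t (fun n => L n ⊓ W n) where
  win := fun b h0 h1 => (h.win b h0 h1).trans (PLe_of_le fun n => fc_mono (inf_le_inf_right _ inf_le_left))
  real := by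
    have h1 : Tendsto (fun n => Helper31.EC.h (fc (Setoid.ker ((s.Q.co t).cellv 1 n))) (fc (L n)) / (S.F n).n -
        Helper31.EC.h (fc (F := S.F n) (W n)) (fc (L n)) / (S.F n).n) UF (𝓝 (1 - 0)) := h.real.sub hW
    rw [sub_zero] at h1
    refine tendsto_of_tendsto_of_tendsto_of_le_of_le h1 h.real (fun n => ?_) (fun n => ?_)
    · show _ / _ - _ / _ ≤ _ / _
      rw [← sub_div]
      apply div_le_div_of_nonneg_right _ (S.F n).pos.le
      have h3 := h_triangle (fc (Setoid.ker ((s.Q.co t).cellv 1 n))) (fc (W n)) (fc (L n))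
      rw [sup_comm (fc (W n)) (fc (L n))] at h3
      show _ - _ ≤ Helper31.EC.h _ (fc (L n) ⊔ fc (W n))
      linarith
    · apply div_le_div_of_nonneg_right _ (S.F n).pos.le
      exact h_anti (fc_mono inf_le_left)

/-! ### data of degree `k` -/

/-- DATA OF DEGREE `k`: the finer leaf `L` of the type `i`; a polynomial `Φ` of the point, of weighted degree at most `W`,
a function of the base and of the information `W0` of rate zero; some coefficient of a monomial which contains a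
coordinate `j ≠ t` is bounded below; on the finer leaf `Φ` is the polynomial `a` of degree at most `k` in `x_t` -/
structure Dt (k : ℕ) (t : Fin M) (w : Fin M → ℝ) (W : ℝ) (s : MSys S M E ι) where
  i : ι
  L : ∀ n, Setoid (S.F n).Ω
  W0 : ∀ n, Setoid (S.F n).Ω
  a : ∀ n, (S.F n).Ω → Fin (k + 1) → ℝ
  Φ : ∀ n, (S.F n).Ω → MvPolynomial (Fin M) ℝ
  sl : SL s i t L
  fa : ∀ᶠ n in UF, ∀ ω ω', (S.F n).μ ω ≠ 0 → (S.F n).μ ω' ≠ 0 → (S.F n).Z ω ω' → L n ω ω' → a n ω = a n ω'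
  ba : ∃ K : ℕ → ℝ, S.Sub K ∧ ∀ᶠ n in UF, ∀ ω, (S.F n).μ ω ≠ 0 → ∀ l, |a n ω l| ≤ K n
  nW : Nul S (fun n => H (fc (W0 n) : FL (S.F n)))
  fΦ : ∀ᶠ n in UF, ∀ ω ω', (S.F n).μ ω ≠ 0 → (S.F n).μ ω' ≠ 0 → (S.F n).Z ω ω' → W0 n ω ω' → Φ n ω = Φ n ω'
  wd : ∀ᶠ n in UF, ∀ ω, (S.F n).μ ω ≠ 0 → ∀ m ∈ (Φ n ω).support, ∑ j, (m j : ℝ) * w j ≤ W
  bΦ : ∃ K : ℕ → ℝ, S.Sub K ∧ ∀ᶠ n in UF, ∀ ω, (S.F n).μ ω ≠ 0 → ∀ m, |(Φ n ω).coeff m| ≤ K n
  nd : ∃ K : ℕ → ℝ, S.Sub K ∧ S.Typ fun n ω => ∃ (m : Fin M →₀ ℕ) (j : Fin M), j ≠ t ∧ m j ≠ 0 ∧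
    1 ≤ K n * |(Φ n ω).coeff m|
  eq : ∃ K : ℕ → ℝ, S.Sub K ∧ S.Typ fun n ω => |MvPolynomial.eval (s.Q.v n ω) (Φ n ω) -
    ∑ l, a n ω l * s.Q.v n ω t ^ (l : ℕ)| ≤ K n * S.dl 1 n

set_option linter.dupNamespace false in
/-- THE CLASS `CC k` -/
def CC (M k : ℕ) : MCl M := fun _ _ _ s => ∃ (t : Fin M) (W : ℝ), t.val = 0 ∧ Nonempty (Dt k t (fun _ => 1) W s)

/-- DATA OF THE CLASS `CL k`: the coordinate `u` itself is a polynomial of degree at most `k` in `x_t` -/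
structure Dl (k : ℕ) (t u : Fin M) (s : MSys S M E ι) where
  i : ι
  L : ∀ n, Setoid (S.F n).Ω
  a : ∀ n, (S.F n).Ω → Fin (k + 1) → ℝ
  sl : SL s i t L
  fa : ∀ᶠ n in UF, ∀ ω ω', (S.F n).μ ω ≠ 0 → (S.F n).μ ω' ≠ 0 → (S.F n).Z ω ω' → L n ω ω' → a n ω = a n ω'
  ba : ∃ K : ℕ → ℝ, S.Sub K ∧ ∀ᶠ n in UF, ∀ ω, (S.F n).μ ω ≠ 0 → ∀ l, |a n ω l| ≤ K n
  eq : ∃ K : ℕ → ℝ, S.Sub K ∧ S.Typ fun n ω => |s.Q.v n ω u - ∑ l, a n ω l * s.Q.v n ω t ^ (l : ℕ)| ≤ K n * S.dl 1 n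

/-- THE CLASS `CL k` -/
def CL (M k : ℕ) : MCl M := fun _ _ _ s => ∃ t u : Fin M, t.val = 0 ∧ u.val = 1 ∧ Nonempty (Dl k t u s)

/-- the data of `CL` as data of `CC` -/
def Dl.toDt {k : ℕ} {t u : Fin M} {s : MSys S M E ι} (d : Dl k t u s) (hu : u ≠ t) {w : Fin M → ℝ} {W : ℝ}
    (hw : w u ≤ W) : Dt k t w W s where
  i := d.i
  L := d.L
  W0 := S.tr
  a := d.a
  Φ := fun _ _ => MvPolynomial.X u
  sl := d.sl
  fa := d.fa
  ba := d.ba
  nW := by
    have e1 : (fun n => H (fc (S.tr n) : FL (S.F n))) = fun _ => 0 := by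
      funext n
      show H (⊥ : FL (S.F n)) = 0
      exact H_bot
    rw [e1]
    exact Nul_zero S
  fΦ := Eventually.of_forall fun _ _ _ _ _ _ _ => rfl
  wd := Eventually.of_forall fun n ω _ m hm => by
    classical
    rw [MvPolynomial.support_X, Finset.mem_singleton] at hm
    rw [hm, Finset.sum_eq_single u]
    · rw [Finsupp.single_eq_same, Nat.cast_one, one_mul]
      exact hw
    · intro j _ hj
      rw [Finsupp.single_eq_of_ne hj, Nat.cast_zero, zero_mul]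
    · intro h
      exact absurd (mem_univ u) h
  bΦ := ⟨fun _ => 1, S.Sub_const zero_le_one, Eventually.of_forall fun n ω _ m => by
    classical
    rw [MvPolynomial.coeff_X]
    split_ifs
    · rw [abs_one]
    · rw [abs_zero]
      exact zero_le_one⟩
  nd := ⟨fun _ => 1, S.Sub_const zero_le_one, by
    refine Typ_true.mono (Eventually.of_forall fun n ω _ _ => ⟨Finsupp.single u 1, u, hu, ?_, ?_⟩)
    · rw [Finsupp.single_eq_same]
      exact one_ne_zero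
    · classical
      rw [MvPolynomial.coeff_X, if_pos rfl, abs_one, mul_one]⟩
  eq := by
    obtain ⟨K, hK, h⟩ := d.eq
    refine ⟨K, hK, h.mono (Eventually.of_forall fun n ω _ hω => ?_)⟩
    rw [MvPolynomial.eval_X]
    exact hω

theorem CL_le_CC {M k : ℕ} {S : Sp} {g r : ℕ} {s : MSys S M (lin g) (Fin r)} (h : CL M k S g r s) :
    CC M k S g r s := by
  obtain ⟨t, u, ht, hu, ⟨d⟩⟩ := h
  exact ⟨t, 1, ht, ⟨d.toDt (fun h => by rw [h, ht] at hu; exact zero_ne_one hu) le_rfl⟩⟩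

/-! ### closure -/

theorem typ_im (p : Pj T S) (A : ∀ k, (T.F k).Ω → Prop) (hA : 0 < ul (T.pr A)) {B : ∀ k, (S.F k).Ω → Prop}
    (hB : S.Typ B) : (Sp.im p A).Typ B := by
  have h1 : Typ (S := T) (fun k ω => B k (p.π k ω)) := p.typ hB
  have h2 : Typ (S := T.rest A) (fun k ω => B k (p.π k ω)) := Typ.rest A hA h1
  exact (Pj.typ_iff (Sp.imq p A) (E := B)).mp h2

variable {k : ℕ} {t u : Fin M} {w : Fin M → ℝ} {W : ℝ} {s : MSys S M E ι}

def Dt.im (d : Dt k t w W s) (p : Pj T S) (A : ∀ k, (T.F k).Ω → Prop) (hA : 0 < ul (T.pr A)) :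
    Dt k t w W (s.im p A hA) where
  i := d.i
  L := d.L
  W0 := d.W0
  a := d.a
  Φ := d.Φ
  sl := d.sl.im p A hA
  fa := by
    filter_upwards [d.fa] with n hn ω ω' h1 h2 h3 h4
    exact hn _ _ (FSp.im_supp (p.fp n) (A n) ω h1) (FSp.im_supp (p.fp n) (A n) ω' h2) h3 h4
  ba := by
    obtain ⟨K, hK, h⟩ := d.ba
    refine ⟨K, hK, ?_⟩
    filter_upwards [h] with n hn ω hω
    exact hn _ (FSp.im_supp (p.fp n) (A n) ω hω)
  nW := by
    have h1 : PLe (S := S) (fun n => fc (d.W0 n)) (fun _ => ⊥) := by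
      refine d.nW.of_le (Eventually.of_forall fun _ => h_nonneg _ _) (Eventually.of_forall fun n => ?_)
      rw [h_bot]
    have h2 := PLe_im p A hA h1
    refine h2.of_le (Eventually.of_forall fun _ => H_nonneg _) (Eventually.of_forall fun n => ?_)
    show H _ ≤ Helper31.EC.h _ ⊥
    rw [h_bot]
    exact le_rfl
  fΦ := by
    filter_upwards [d.fΦ] with n hn ω ω' h1 h2 h3 h4
    exact hn _ _ (FSp.im_supp (p.fp n) (A n) ω h1) (FSp.im_supp (p.fp n) (A n) ω' h2) h3 h4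
  wd := by
    filter_upwards [d.wd] with n hn ω hω
    exact hn _ (FSp.im_supp (p.fp n) (A n) ω hω)
  bΦ := by
    obtain ⟨K, hK, h⟩ := d.bΦ
    refine ⟨K, hK, ?_⟩
    filter_upwards [h] with n hn ω hω
    exact hn _ (FSp.im_supp (p.fp n) (A n) ω hω)
  nd := by
    obtain ⟨K, hK, h⟩ := d.nd
    exact ⟨K, hK, typ_im p A hA h⟩
  eq := by
    obtain ⟨K, hK, h⟩ := d.eq
    exact ⟨K, hK, typ_im p A hA h⟩

def Dt.pull (d : Dt k t w W s) (p : Pj T S) : Dt k t w W (s.pull p) where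
  i := d.i
  L := fun n => Setoid.comap (p.π n) (d.L n)
  W0 := fun n => Setoid.comap (p.π n) (d.W0 n)
  a := fun n ω => d.a n (p.π n ω)
  Φ := fun n ω => d.Φ n (p.π n ω)
  sl := d.sl.pull p
  fa := by
    filter_upwards [d.fa] with n hn ω ω' h1 h2 h3 h4
    exact hn _ _ (p.supp n ω h1) (p.supp n ω' h2) ((p.hZ n ω ω' h1 h2).1 h3) h4
  ba := by
    obtain ⟨K, hK, h⟩ := d.ba
    refine ⟨K, p.sub hK, ?_⟩
    filter_upwards [h] with n hn ω hω
    exact hn _ (p.supp n ω hω)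
  nW := by
    have h1 := d.nW
    unfold Nul at h1 ⊢
    refine h1.congr fun n => ?_
    rw [p.hn n]
    congr 1
    exact ((p.fp n).H_map _).symm
  fΦ := by
    filter_upwards [d.fΦ] with n hn ω ω' h1 h2 h3 h4
    exact hn _ _ (p.supp n ω h1) (p.supp n ω' h2) ((p.hZ n ω ω' h1 h2).1 h3) h4
  wd := by
    filter_upwards [d.wd] with n hn ω hω
    exact hn _ (p.supp n ω hω)
  bΦ := by
    obtain ⟨K, hK, h⟩ := d.bΦ
    refine ⟨K, p.sub hK, ?_⟩
    filter_upwards [h] with n hn ω hω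
    exact hn _ (p.supp n ω hω)
  nd := by
    obtain ⟨K, hK, h⟩ := d.nd
    exact ⟨K, p.sub hK, p.typ h⟩
  eq := by
    obtain ⟨K, hK, h⟩ := d.eq
    refine ⟨K, p.sub hK, (p.typ h).mono (Eventually.of_forall fun n ω _ hω => ?_)⟩
    have e1 : T.dl 1 n = S.dl 1 n := by unfold Sp.dl; rw [p.hn n]
    rw [e1]
    exact hω

def Dt.trn (d : Dt k t w W s) {r : ℝ} (h0 : 0 < r) (hr : r ≤ 1) : Dt k t w W (s.trn r h0 hr) where
  i := d.i
  L := d.L
  W0 := d.W0
  a := d.a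
  Φ := d.Φ
  sl := d.sl.trn h0 hr
  fa := by
    filter_upwards [d.fa] with n hn ω ω' h1 h2 h3 h4
    exact hn _ _ h1 h2 h3.2 h4
  ba := by
    obtain ⟨K, hK, h⟩ := d.ba
    exact ⟨K, chg_sub S.tr r h0 hK, h⟩
  nW := by
    have h1 := (Pool.Agent.Helper52.SL.nul_trn (S := S) (h0 := h0)).mpr d.nW
    have e1 : (fun n => H (fc (F := (S.F n).chg ⊤ r h0) (d.W0 n))) = fun n => H (fc (F := S.F n) (d.W0 n)) := by
      funext n
      have h2 := h_chg_top r h0 (F := S.F n) (d.W0 n) ⊤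
      have e2 : Helper31.EC.h (fc (F := S.F n) (d.W0 n)) (fc ⊤) = H (fc (F := S.F n) (d.W0 n)) := h_bot _
      have e3 : Helper31.EC.h (fc (F := (S.F n).chg ⊤ r h0) (d.W0 n)) (fc ⊤) =
          H (fc (F := (S.F n).chg ⊤ r h0) (d.W0 n)) := h_bot _
      exact e3.symm.trans (h2.trans e2)
    rw [← e1] at h1
    exact h1
  fΦ := by
    filter_upwards [d.fΦ] with n hn ω ω' h1 h2 h3 h4
    exact hn _ _ h1 h2 h3.2 h4
  wd := d.wd
  bΦ := by
    obtain ⟨K, hK, h⟩ := d.bΦ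
    exact ⟨K, chg_sub S.tr r h0 hK, h⟩
  nd := by
    obtain ⟨K, hK, h⟩ := d.nd
    exact ⟨K, chg_sub S.tr r h0 hK, h⟩
  eq := by
    obtain ⟨K, hK, h⟩ := d.eq
    refine ⟨K, chg_sub S.tr r h0 hK, ?_⟩
    have h1 : Typ (S := S) fun n ω => |MvPolynomial.eval (s.Q.v n ω) (d.Φ n ω) -
        ∑ l, d.a n ω l * s.Q.v n ω t ^ (l : ℕ)| ≤ K n * S.dl (r * 1) n := by
      refine h.mono ?_
      filter_upwards [hK.1] with n hn ω _ hω
      exact hω.trans (mul_le_mul_of_nonneg_left (S.dl_anti (by rw [mul_one]; exact hr) n) hn)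
    refine Typ.mono (S := S.chg S.tr r h0) h1 (Eventually.of_forall fun n ω _ hω => ?_)
    rw [chg_dl]
    exact hω

def Dt.union (d : Dt k t w W s) (l : κ → Leaf S s.Q E) : Dt k t w W (s.union l) where
  i := Sum.inl d.i
  L := d.L
  W0 := d.W0
  a := d.a
  Φ := d.Φ
  sl := d.sl.union l
  fa := d.fa
  ba := d.ba
  nW := d.nW
  fΦ := d.fΦ
  wd := d.wd
  bΦ := d.bΦ
  nd := d.nd
  eq := d.eq

def Dt.ren (d : Dt k t w W s) (f : κ → ι) (i : κ) (hi : f i = d.i) : Dt k t w W (s.ren f) where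
  i := i
  L := d.L
  W0 := d.W0
  a := d.a
  Φ := d.Φ
  sl := SL.ren f (hi.symm ▸ d.sl)
  fa := d.fa
  ba := d.ba
  nW := d.nW
  fΦ := d.fΦ
  wd := d.wd
  bΦ := d.bΦ
  nd := d.nd
  eq := d.eq

/-- data of `CC` whose polynomial is the coordinate `u` -/
def Dl.ofDt (d : Dt k t w W s) (h : ∀ n ω, d.Φ n ω = MvPolynomial.X u) : Dl k t u s where
  i := d.i
  L := d.L
  a := d.a
  sl := d.sl
  fa := d.fa
  ba := d.ba
  eq := by
    obtain ⟨K, hK, h1⟩ := d.eq
    refine ⟨K, hK, h1.mono (Eventually.of_forall fun n ω _ hω => ?_)⟩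
    rw [h n ω, MvPolynomial.eval_X] at hω
    exact hω

def Dl.dt (d : Dl k t u s) (hu : u ≠ t) : Dt k t (fun _ => 1) 1 s := d.toDt hu le_rfl

def Dl.im (d : Dl k t u s) (hu : u ≠ t) (p : Pj T S) (A : ∀ k, (T.F k).Ω → Prop) (hA : 0 < ul (T.pr A)) :
    Dl k t u (s.im p A hA) := Dl.ofDt ((d.dt hu).im p A hA) fun _ _ => rfl

def Dl.pull (d : Dl k t u s) (hu : u ≠ t) (p : Pj T S) : Dl k t u (s.pull p) := Dl.ofDt ((d.dt hu).pull p) fun _ _ => rfl

def Dl.trn (d : Dl k t u s) (hu : u ≠ t) {r : ℝ} (h0 : 0 < r) (hr : r ≤ 1) : Dl k t u (s.trn r h0 hr) :=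
  Dl.ofDt ((d.dt hu).trn h0 hr) fun _ _ => rfl

def Dl.union (d : Dl k t u s) (hu : u ≠ t) (l : κ → Leaf S s.Q E) : Dl k t u (s.union l) :=
  Dl.ofDt ((d.dt hu).union l) fun _ _ => rfl

def Dl.ren (d : Dl k t u s) (hu : u ≠ t) (f : κ → ι) (i : κ) (hi : f i = d.i) : Dl k t u (s.ren f) :=
  Dl.ofDt ((d.dt hu).ren f i hi) fun _ _ => rfl

/-- coefficients known up to rate zero are enough: the partition by their cells is added to the finer leaf -/
theorem Dl.of_PLe {i : ι} {L : ∀ n, Setoid (S.F n).Ω} (sl : SL s i t L) (a : S.VV (k + 1))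
    (ha : PLe (S := S) (fun n => fc (Setoid.ker (a.cellv 1 n))) (fun n => fc (L n)))
    (eq : ∃ K : ℕ → ℝ, S.Sub K ∧ S.Typ fun n ω => |s.Q.v n ω u - ∑ l, a.v n ω l * s.Q.v n ω t ^ (l : ℕ)| ≤
      K n * S.dl 1 n) : Nonempty (Dl k t u s) := by
  classical
  obtain ⟨Ka, hKa, hba⟩ := a.bd
  obtain ⟨KQ, hKQ, hbQ⟩ := s.Q.bd
  obtain ⟨K, hK, he⟩ := eq
  -- the values of the cells
  have key : ∀ n (ω : (S.F n).Ω) (l : Fin (k + 1)), |a.v n ω l - (a.cellv 1 n ω l : ℝ) * S.dl 1 n| ≤ S.dl 1 n := by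
    intro n ω l
    have hd := S.dl_pos 1 n
    have h1 := Int.floor_le (a.v n ω l / S.dl 1 n)
    have h2 := Int.lt_floor_add_one (a.v n ω l / S.dl 1 n)
    have e1 : (a.cellv 1 n ω l : ℝ) = ⌊a.v n ω l / S.dl 1 n⌋ := rfl
    rw [e1]
    rw [le_div_iff₀ hd] at h1
    rw [div_lt_iff₀ hd] at h2
    rw [abs_le]
    constructor <;> nlinarith
  refine ⟨⟨i, fun n => L n ⊓ Setoid.ker (a.cellv 1 n), fun n ω l => (a.cellv 1 n ω l : ℝ) * S.dl 1 n,
    sl.add (W := fun n => Setoid.ker (a.cellv 1 n)) ha, ?_, ?_, ?_⟩⟩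
  · refine Eventually.of_forall fun n ω ω' _ _ _ h => ?_
    have h1 : a.cellv 1 n ω = a.cellv 1 n ω' := h.2
    funext l
    rw [h1]
  · refine ⟨fun n => Ka n + 1, hKa.add (S.Sub_const zero_le_one), ?_⟩
    filter_upwards [hba] with n hn ω hω l
    have h1 := key n ω l
    have h2 := hn ω hω l
    have h3 := dl_one_le S n
    rw [abs_sub_comm] at h1
    calc |(a.cellv 1 n ω l : ℝ) * S.dl 1 n| = |((a.cellv 1 n ω l : ℝ) * S.dl 1 n - a.v n ω l) + a.v n ω l| := by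
          rw [sub_add_cancel]
      _ ≤ |(a.cellv 1 n ω l : ℝ) * S.dl 1 n - a.v n ω l| + |a.v n ω l| := abs_add_le _ _
      _ ≤ Ka n + 1 := by linarith
  · refine ⟨fun n => K n + ((k : ℝ) + 1) * (KQ n + 1) ^ k, hK.add ((S.Sub_const (by positivity)).mul
      (Sub_pow' (hKQ.add (S.Sub_const zero_le_one)) _)), he.mono ?_⟩
    filter_upwards [hbQ, hKQ.1] with n hn hK0 ω hω h1
    have hd := S.dl_pos 1 n
    have e1 : s.Q.v n ω u - ∑ l : Fin (k + 1), (a.cellv 1 n ω l : ℝ) * S.dl 1 n * s.Q.v n ω t ^ (l : ℕ) =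
        (s.Q.v n ω u - ∑ l : Fin (k + 1), a.v n ω l * s.Q.v n ω t ^ (l : ℕ)) +
          ∑ l : Fin (k + 1), (a.v n ω l - (a.cellv 1 n ω l : ℝ) * S.dl 1 n) * s.Q.v n ω t ^ (l : ℕ) := by
      rw [sub_add, ← Finset.sum_sub_distrib]
      congr 1
      apply Finset.sum_congr rfl
      intro l _
      ring
    rw [e1]
    refine (abs_add_le _ _).trans ?_
    have h2 : |∑ l : Fin (k + 1), (a.v n ω l - (a.cellv 1 n ω l : ℝ) * S.dl 1 n) * s.Q.v n ω t ^ (l : ℕ)| ≤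
        ∑ _l : Fin (k + 1), S.dl 1 n * (KQ n + 1) ^ k := by
      refine (Finset.abs_sum_le_sum_abs _ _).trans (Finset.sum_le_sum fun l _ => ?_)
      rw [abs_mul, abs_pow]
      apply mul_le_mul (key n ω l) _ (by positivity) hd.le
      have h3 : |s.Q.v n ω t| ≤ KQ n + 1 := (hn ω hω t).trans (by linarith)
      calc |s.Q.v n ω t| ^ (l : ℕ) ≤ (KQ n + 1) ^ (l : ℕ) := pow_le_pow_left₀ (abs_nonneg _) h3 _
        _ ≤ (KQ n + 1) ^ k := pow_le_pow_right₀ (by linarith) (Nat.lt_succ_iff.mp l.isLt)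
    rw [Finset.sum_const, Finset.card_univ, Fintype.card_fin, nsmul_eq_mul] at h2
    push_cast at h2
    calc _ ≤ K n * S.dl 1 n + (k + 1) * (S.dl 1 n * (KQ n + 1) ^ k) := add_le_add h1 h2
      _ = _ := by ring

theorem CL.of_PLe {M k : ℕ} {S : Sp} {g r : ℕ} {s : MSys S M (lin g) (Fin r)} {t u : Fin M} (ht : t.val = 0)
    (hu : u.val = 1) {i : Fin r} {L : ∀ n, Setoid (S.F n).Ω} (sl : SL s i t L) (a : S.VV (k + 1))
    (ha : PLe (S := S) (fun n => fc (Setoid.ker (a.cellv 1 n))) (fun n => fc (L n)))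
    (eq : ∃ K : ℕ → ℝ, S.Sub K ∧ S.Typ fun n ω => |s.Q.v n ω u - ∑ l, a.v n ω l * s.Q.v n ω t ^ (l : ℕ)| ≤
      K n * S.dl 1 n) : CL M k S g r s := ⟨t, u, ht, hu, Dl.of_PLe sl a ha eq⟩

end

end Pool.Agent.Helper75.CC
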