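import Pool.Agent.Helper75.CC.Def

/-! THE CLASSES `CL k` AND `CC k` ARE CLOSED UNDER DIAGONALS (also with other closed classes). -/

set_option autoImplicit false

namespace Pool.Agent.Helper75.CC

open Finset Filter Topology Pool.Agent.Helper69.RK Pool.Agent.Helper31.EC Pool.Agent.Helper31.EC.Sp
open Pool.Agent.Helper40.EL Pool.Agent.Helper89.LX Pool.Agent.Helper3.LF Pool.Agent.Helper84.MT Pool.Agent.Helper36.AM
open Pool.Agent.Helper49.MD Pool.Agent.Helper26.OUT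

noncomputable section

variable {S T : Sp} {M : ℕ} {E : ℕ → ℕ} {ι κ : Type}

/-- finite data for the class `CC` -/
structure Dat (Ω : Type) (M : ℕ) (ι : Type) (k : ℕ) where
  i : ι
  L : Setoid Ω
  W0 : Setoid Ω
  a : Ω → Fin (k + 1) → ℝ
  Φ : Ω → MvPolynomial (Fin M) ℝ
  K : ℝ

/-- the cells of the coordinate `t` -/
def cqt (F : FSp) (x : FMs F.Ω M ι) (t : Fin M) (c : ℝ) : Setoid F.Ω :=
  Setoid.ker fun ω => cell (dlF F c) (fun _ : Fin 1 => x.Q ω t)

/-- the data, up to `δ` -/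
structure DtB (G : MvPolynomial (Fin M) ℝ → Prop) (k : ℕ) (t : Fin M) (F : FSp) (x : FMs F.Ω M ι)
    (y : Dat F.Ω M ι k) (δ : ℝ) : Prop where
  tm : tmc F δ y.K
  win : ∀ N m : ℕ, 0 < N → m ≤ N → N * δ ≤ 1 →
    h ((x.lf y.i).win F ((m : ℝ) / N)) (fc (y.L ⊓ cqt F x t ((m : ℝ) / N))) / F.n ≤ δ
  real : 1 - δ ≤ h (fc (cqt F x t 1)) (fc y.L) / F.n
  fa : ∀ ω ω', F.μ ω ≠ 0 → F.μ ω' ≠ 0 → F.Z ω ω' → y.L ω ω' → y.a ω = y.a ω'
  ba : ∀ ω, F.μ ω ≠ 0 → ∀ l, |y.a ω l| ≤ y.K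
  nW : H (fc y.W0 : FL F) / F.n ≤ δ
  fΦ : ∀ ω ω', F.μ ω ≠ 0 → F.μ ω' ≠ 0 → F.Z ω ω' → y.W0 ω ω' → y.Φ ω = y.Φ ω'
  gd : ∀ ω, F.μ ω ≠ 0 → G (y.Φ ω)
  bΦ : ∀ ω, F.μ ω ≠ 0 → ∀ m, |(y.Φ ω).coeff m| ≤ y.K
  nd : mass (res F.μ fun ω => ¬ ∃ (m : Fin M →₀ ℕ) (j : Fin M), j ≠ t ∧ m j ≠ 0 ∧ 1 ≤ y.K * |(y.Φ ω).coeff m|) ≤ δ
  eq : mass (res F.μ fun ω => ¬ |MvPolynomial.eval (x.Q ω) (y.Φ ω) - ∑ l, y.a ω l * x.Q ω t ^ (l : ℕ)| ≤
    y.K * dlF F 1) ≤ δ

theorem DtB.mono {G : MvPolynomial (Fin M) ℝ → Prop} {k : ℕ} {t : Fin M} {F : FSp} {x : FMs F.Ω M ι}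
    {y : Dat F.Ω M ι k} {δ δ' : ℝ} (h : δ ≤ δ') (hy : DtB G k t F x y δ) : DtB G k t F x y δ' where
  tm := hy.tm.mono h
  win := fun N m h1 h2 h3 => (hy.win N m h1 h2 ((mul_le_mul_of_nonneg_left h (Nat.cast_nonneg N)).trans h3)).trans h
  real := by linarith [hy.real]
  fa := hy.fa
  ba := hy.ba
  nW := hy.nW.trans h
  fΦ := hy.fΦ
  gd := hy.gd
  bΦ := hy.bΦ
  nd := hy.nd.trans h
  eq := hy.eq.trans h

/-- the data of the class `CC` as an approximate predicate -/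
def dtA (G : MvPolynomial (Fin M) ℝ → Prop) (k : ℕ) (t : Fin M) (ι : Type) : AP (KM M ι) where
  P := fun F x δ => ∃ y : Dat F.Ω M ι k, DtB G k t F x y δ
  mono := fun _ _ _ _ h hx => hx.imp fun _ hy => hy.mono h

/-- one sequence of witnesses for all `δ` -/
theorem dia_ex {Y : ℕ → Type} [∀ n, Nonempty (Y n)] (P : ∀ n, Y n → ℝ → Prop)
    (hP : ∀ n y δ δ', δ ≤ δ' → P n y δ → P n y δ') (h : ∀ δ : ℝ, 0 < δ → ∀ᶠ n in UF, ∃ y, P n y δ) :
    ∃ y : ∀ n, Y n, ∀ δ : ℝ, 0 < δ → ∀ᶠ n in UF, P n (y n) δ := by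
  classical
  have h1 : ∀ j : ℕ, ∀ᶠ n in UF, ∃ y, P n y (1 / ((j : ℝ) + 1)) := fun j => h _ (by positivity)
  obtain ⟨J, hJ, hJ2⟩ := dia (fun j n => ∃ y, P n y (1 / ((j : ℝ) + 1))) h1
  refine ⟨fun n => if hn : ∃ y, P n y (1 / ((J n : ℝ) + 1)) then hn.choose else Classical.arbitrary _,
    fun δ hδ => ?_⟩
  filter_upwards [hJ2, (inv_tendsto hJ).eventually (gt_mem_nhds hδ)] with n a b
  have h2 := a (J n) le_rfl
  rw [dif_pos h2]
  exact hP _ _ _ _ b.le h2.choose_spec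

/-- a sequence in a finite type is constant along the ultrafilter -/
theorem exists_const_fin [Finite ι] (a : ℕ → ι) : ∃ i : ι, ∀ᶠ n in UF, a n = i := by
  classical
  obtain ⟨r, ⟨e⟩⟩ := Finite.exists_equiv_fin ι
  obtain ⟨i, _, hi⟩ := exists_const_nat (fun n => (e (a n)).val) r (Eventually.of_forall fun n => (e (a n)).isLt.le)
  obtain ⟨n0, h0⟩ := hi.exists
  refine ⟨a n0, hi.mono fun n hn => e.injective (Fin.ext (hn.trans h0.symm))⟩

theorem PLe.of_small {A B : Part S} (h1 : ∀ ε : ℝ, 0 < ε → ∀ᶠ n in UF, h (A n) (B n) / (S.F n).n ≤ ε) : PLe A B := by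
  unfold PLe Nul
  rw [Metric.tendsto_nhds]
  intro ε hε
  filter_upwards [h1 (ε / 2) (by linarith)] with n hn
  rw [Real.dist_eq, sub_zero, abs_of_nonneg (div_nonneg (h_nonneg _ _) (S.F n).pos.le)]
  linarith

/-- windows on a grid are enough -/
theorem win_of_grid {s : MSys S M E ι} {i : ι} {t : Fin M} {L : ∀ n, Setoid (S.F n).Ω}
    (hg : ∀ δ : ℝ, 0 < δ → ∀ N m : ℕ, 0 < N → m ≤ N → N * δ ≤ 1 → ∀ᶠ n in UF,
      h ((s.lf i).win ((m : ℝ) / N) n) (sw s.Q t L ((m : ℝ) / N) n) / (S.F n).n ≤ δ) (b : ℝ) (h0 : 0 ≤ b)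
    (h1 : b ≤ 1) : PLe ((s.lf i).win b) (sw s.Q t L b) := by
  apply PLe.of_small
  intro ε hε
  set e : ℝ := ((s.lf i).e : ℝ) with he
  have he0 : 0 ≤ e := Nat.cast_nonneg _
  obtain ⟨N, hN⟩ := exists_nat_gt ((e + 1) * (4 / ε))
  have hN0 : (0 : ℝ) < N := lt_of_le_of_lt (by positivity) hN
  have hN1 : 0 < N := by exact_mod_cast hN0
  set m : ℕ := ⌊b * N⌋₊ with hm
  have hm1 : (m : ℝ) ≤ b * N := Nat.floor_le (by positivity)
  have hm2 : b * N < m + 1 := Nat.lt_floor_add_one _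
  have hmN : m ≤ N := by
    have : (m : ℝ) ≤ N := hm1.trans (by nlinarith)
    exact_mod_cast this
  set c : ℝ := (m : ℝ) / N with hc
  have hc1 : c ≤ b := by rw [hc, div_le_iff₀ hN0]; exact hm1
  have hc0 : 0 ≤ c := by positivity
  have hc2 : e * (b - c) ≤ ε / 4 := by
    have h2 : b - c ≤ 1 / N := by
      rw [hc, le_div_iff₀ hN0, sub_mul, div_mul_cancel₀ _ hN0.ne']
      linarith
    have h3 : e * (1 / N) ≤ ε / 4 := by
      rw [mul_one_div, div_le_iff₀ hN0]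
      have h4 : ε / 4 * ((e + 1) * (4 / ε)) = e + 1 := by field_simp
      have h5 := mul_lt_mul_of_pos_left hN (show 0 < ε / 4 by linarith)
      linarith
    exact (mul_le_mul_of_nonneg_left h2 he0).trans h3
  set δ : ℝ := min (ε / 4) (1 / N) with hδ
  have hδ0 : 0 < δ := lt_min (by linarith) (by positivity)
  have g1 := hg δ hδ0 N m hN1 hmN (by
    have : (N : ℝ) * δ ≤ N * (1 / N) := mul_le_mul_of_nonneg_left (min_le_right _ _) hN0.le
    rw [mul_one_div, div_self hN0.ne'] at this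
    exact this)
  -- the digits of the parameter
  have g2 := h_cell_cell_le (s.lf i).Y hc1 (fun n => (s.lf i).La n ⊓ Setoid.ker ((s.lf i).Y.cellv c n))
    (fun n => inf_le_right) (ε / 4) (by linarith)
  -- the coarse window of the finer leaf
  have g3 : PLe (sw s.Q t L c) (sw s.Q t L b) := by
    have e1 : ∀ c, sw s.Q t L c = fun n => fc (L n) ⊔ fc (Setoid.ker ((s.Q.co t).cellv c n)) := fun c =>
      funext fun n => fc_inf _ _
    have h2 : PLe (fun n => fc (Setoid.ker ((s.Q.co t).cellv c n))) (sw s.Q t L b) :=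
      PLe_cell_cell (s.Q.co t) hc1 (fun n => L n ⊓ Setoid.ker ((s.Q.co t).cellv b n)) (fun n => inf_le_right)
    have h3 : PLe (fun n => fc (L n)) (sw s.Q t L b) := PLe_of_le fun n => fc_mono inf_le_left
    rw [e1 c]
    exact PLe.sup_le h3 h2
  have g3' := g3.eventually (gt_mem_nhds (show (0 : ℝ) < ε / 4 by linarith))
  filter_upwards [g1, g2, g3'] with n a1 a2 a3
  have hn := (S.F n).pos
  have k1 : h ((s.lf i).win b n) (sw s.Q t L b n) ≤ h ((s.lf i).win c n) (sw s.Q t L b n) +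
      h ((s.lf i).win b n) ((s.lf i).win c n) := by
    have h2 := h_triangle' ((s.lf i).win b n) ((s.lf i).win c n) (sw s.Q t L b n)
    linarith
  have k2 : h ((s.lf i).win c n) (sw s.Q t L b n) ≤ h ((s.lf i).win c n) (sw s.Q t L c n) +
      h (sw s.Q t L c n) (sw s.Q t L b n) := by
    have h2 := h_triangle' ((s.lf i).win c n) (sw s.Q t L c n) (sw s.Q t L b n)
    linarith
  have k3 : h ((s.lf i).win b n) ((s.lf i).win c n) ≤ h (fc (Setoid.ker ((s.lf i).Y.cellv b n)))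
      (fc ((s.lf i).La n ⊓ Setoid.ker ((s.lf i).Y.cellv c n))) := by
    have e1 : (s.lf i).win b n = fc ((s.lf i).La n) ⊔ fc (Setoid.ker ((s.lf i).Y.cellv b n)) := fc_inf _ _
    rw [e1]
    refine (h_sup_le _ _ _).trans ?_
    have e2 : Helper31.EC.h (fc ((s.lf i).La n)) ((s.lf i).win c n) = 0 := h_zero (fc_mono inf_le_left)
    rw [e2, zero_add]
    exact le_rfl
  have q1 := div_le_div_of_nonneg_right (k1.trans (add_le_add k2 k3)) hn.le
  rw [add_div, add_div] at q1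
  have hd : δ ≤ ε / 4 := min_le_left _ _
  linarith

/-! ### the equivalence -/

variable {k : ℕ} {t u : Fin M} {w : Fin M → ℝ} {W : ℝ} {s : MSys S M E ι}

/-- data with a condition on the polynomial -/
def DG (G : MvPolynomial (Fin M) ℝ → Prop) (k : ℕ) (t : Fin M) (s : MSys S M E ι) : Prop :=
  ∃ d : Dt k t (fun _ => 0) 0 s, ∀ᶠ n in UF, ∀ ω, (S.F n).μ ω ≠ 0 → G (d.Φ n ω)

theorem DG_pd [Finite ι] {G : MvPolynomial (Fin M) ℝ → Prop} : DG G k t s ↔ (dtA G k t ι).pd 0 S (ob s) := by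
  classical
  constructor
  · rintro ⟨d, hG⟩ δ hδ
    obtain ⟨Ka, hKa, ha⟩ := d.ba
    obtain ⟨Kf, hKf, hf⟩ := d.bΦ
    obtain ⟨Kn, hKn, hn⟩ := d.nd
    obtain ⟨Ke, hKe, he⟩ := d.eq
    have hK : S.Sub (fun n => Ka n + Kf n + Kn n + Ke n) := ((hKa.add hKf).add hKn).add hKe
    have hwin : ∀ᶠ n in UF, ∀ N ∈ Finset.range (⌊1 / δ⌋₊ + 1), ∀ m ∈ Finset.range (N + 1), 0 < N →
        Helper31.EC.h ((s.lf d.i).win ((m : ℝ) / N) n) (sw s.Q t d.L ((m : ℝ) / N) n) / (S.F n).n ≤ δ := by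
      rw [Filter.eventually_all_finset]
      intro N _
      rw [Filter.eventually_all_finset]
      intro m hm
      rcases Nat.eq_zero_or_pos N with h0 | h0
      · exact Eventually.of_forall fun n h1 => absurd h1 (by omega)
      · have hN : (0 : ℝ) < N := by exact_mod_cast h0
        have hm' : (m : ℝ) ≤ N := by
          rw [Finset.mem_range] at hm
          exact_mod_cast Nat.lt_succ_iff.mp hm
        have h1 := d.sl.win ((m : ℝ) / N) (by positivity) ((div_le_one hN).mpr hm')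
        filter_upwards [h1.eventually (gt_mem_nhds hδ)] with n h2 _
        exact h2.le
    filter_upwards [Sub.tmc hK hδ, hwin, d.sl.real.eventually (lt_mem_nhds (show 1 - δ < (1 : ℝ) by linarith)), d.fa,
      ha, hKa.1, hKf.1, hKn.1, hKe.1, d.nW.eventually (gt_mem_nhds hδ), d.fΦ, hG, hf,
      hn.eventually (gt_mem_nhds hδ), he.eventually (gt_mem_nhds hδ)] with n a1 a2 a3 a4 a5 b1 b2 b3 b4 a6 a7 a8 a9 a10 a11
    refine ⟨⟨d.i, d.L n, d.W0 n, d.a n, d.Φ n, Ka n + Kf n + Kn n + Ke n⟩, ⟨a1, ?_, a3.le, a4, ?_, a6.le, a7, a8, ?_,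
      ?_, ?_⟩⟩
    · intro N m h1 h2 h3
      refine a2 N ?_ m (Finset.mem_range.mpr (by omega)) h1
      rw [Finset.mem_range, Nat.lt_succ_iff]
      apply Nat.le_floor
      rw [le_div_iff₀ hδ]
      exact h3
    · intro ω hω l
      exact (a5 ω hω l).trans (by linarith)
    · intro ω hω m
      exact (a9 ω hω m).trans (by linarith)
    · refine (mass_res_mono _ _ _ (S.F n).nn fun ω _ h1 h2 => h1 ?_).trans a10.le
      obtain ⟨m, j, h3, h4, h5⟩ := h2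
      refine ⟨m, j, h3, h4, h5.trans ?_⟩
      exact mul_le_mul_of_nonneg_right (by linarith) (abs_nonneg _)
    · refine (mass_res_mono _ _ _ (S.F n).nn fun ω _ h1 h2 => h1 ?_).trans a11.le
      refine h2.trans ?_
      exact mul_le_mul_of_nonneg_right (by linarith) (S.dl_pos 1 n).le
  · intro h
    obtain ⟨n0, y0, _⟩ := (h 1 one_pos).exists
    have : ∀ n, Nonempty (Dat (S.F n).Ω M ι k) := fun n => ⟨⟨y0.i, ⊤, ⊤, fun _ _ => 0, fun _ => 0, 0⟩⟩
    obtain ⟨y, hy⟩ := dia_ex (fun n (y : Dat (S.F n).Ω M ι k) δ => DtB G k t (S.F n) (ob s n) y δ)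
      (fun _ _ _ _ h1 h2 => h2.mono h1) h
    obtain ⟨i, hi⟩ := exists_const_fin fun n => (y n).i
    have h1 := hy 1 one_pos
    have hK : S.Sub fun n => (y n).K := by
      refine ⟨h1.mono fun n hn => hn.tm.1, ?_⟩
      rw [Metric.tendsto_nhds]
      intro ε hε
      filter_upwards [hy (ε / 2) (by linarith)] with n hn
      rw [Real.dist_eq, sub_zero, abs_of_nonneg (div_nonneg (Real.logb_nonneg (by norm_num) (by linarith [hn.tm.1]))
        (S.F n).pos.le)]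
      linarith [hn.tm.2]
    refine ⟨⟨i, fun n => (y n).L, fun n => (y n).W0, fun n => (y n).a, fun n => (y n).Φ, ⟨?_, ?_⟩, h1.mono fun n hn => hn.fa,
      ⟨_, hK, h1.mono fun n hn => hn.ba⟩, ?_, h1.mono fun n hn => hn.fΦ, ?_, ⟨_, hK, h1.mono fun n hn => hn.bΦ⟩,
      ⟨_, hK, ?_⟩, ⟨_, hK, ?_⟩⟩, h1.mono fun n hn => hn.gd⟩
    · refine win_of_grid fun δ hδ N m h2 h3 h4 => ?_
      filter_upwards [hy δ hδ, hi] with n hn hi
      have h5 := hn.win N m h2 h3 h4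
      rw [hi] at h5
      exact h5
    · rw [Metric.tendsto_nhds]
      intro ε hε
      have h2 := h_cell_le (s.Q.co t) zero_le_one (fun n => fc (y n).L) (ε / 2) (by linarith)
      filter_upwards [hy (ε / 2) (by linarith), h2] with n hn h3
      have h4 : 1 - ε / 2 ≤ Helper31.EC.h (fc (Setoid.ker ((s.Q.co t).cellv 1 n))) (fc (y n).L) / (S.F n).n := hn.real
      rw [Real.dist_eq, abs_lt]
      rw [Nat.cast_one, mul_one] at h3
      constructor <;> linarith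
    · unfold Nul
      rw [Metric.tendsto_nhds]
      intro ε hε
      filter_upwards [hy (ε / 2) (by linarith)] with n hn
      rw [Real.dist_eq, sub_zero, abs_of_nonneg (div_nonneg (H_nonneg _) (S.F n).pos.le)]
      linarith [hn.nW]
    · refine Eventually.of_forall fun n ω _ m _ => ?_
      simp
    · unfold Sp.Typ
      rw [Metric.tendsto_nhds]
      intro ε hε
      filter_upwards [hy (ε / 2) (by linarith)] with n hn
      rw [Real.dist_eq, sub_zero, abs_of_nonneg (mass_res_nonneg n _)]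
      linarith [hn.nd]
    · unfold Sp.Typ
      rw [Metric.tendsto_nhds]
      intro ε hε
      filter_upwards [hy (ε / 2) (by linarith)] with n hn
      rw [Real.dist_eq, sub_zero, abs_of_nonneg (mass_res_nonneg n _)]
      exact lt_of_le_of_lt hn.eq (by linarith)

/-- change of the weights -/
def Dt.chw (d : Dt k t w W s) {w' : Fin M → ℝ} {W' : ℝ}
    (h : ∀ᶠ n in UF, ∀ ω, (S.F n).μ ω ≠ 0 → ∀ m ∈ (d.Φ n ω).support, ∑ j, (m j : ℝ) * w' j ≤ W') : Dt k t w' W' s where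
  i := d.i
  L := d.L
  W0 := d.W0
  a := d.a
  Φ := d.Φ
  sl := d.sl
  fa := d.fa
  ba := d.ba
  nW := d.nW
  fΦ := d.fΦ
  wd := h
  bΦ := d.bΦ
  nd := d.nd
  eq := d.eq

theorem Dt_iff : Nonempty (Dt k t w W s) ↔ DG (fun Φ => ∀ m ∈ Φ.support, ∑ j, (m j : ℝ) * w j ≤ W) k t s := by
  constructor
  · rintro ⟨d⟩
    exact ⟨d.chw (Eventually.of_forall fun n ω _ m _ => by simp), d.wd⟩
  · rintro ⟨d, h⟩
    exact ⟨d.chw h⟩

theorem Dl_iff (hu : u ≠ t) : Nonempty (Dl k t u s) ↔ DG (fun Φ => Φ = MvPolynomial.X u) k t s := by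
  constructor
  · rintro ⟨d⟩
    exact ⟨d.toDt hu (W := 0) (w := fun _ => 0) le_rfl, Eventually.of_forall fun _ _ _ => rfl⟩
  · rintro ⟨d, h⟩
    exact ⟨⟨d.i, d.L, d.a, d.sl, d.fa, d.ba, by
      obtain ⟨K, hK, h1⟩ := d.eq
      refine ⟨K, hK, h1.mono ?_⟩
      filter_upwards [h] with n hn ω hω h2
      rw [hn ω hω, MvPolynomial.eval_X] at h2
      exact h2⟩⟩

/-- DIAGONALS of classes with data -/
theorem DiagCl.dg [Finite ι] {G : MvPolynomial (Fin M) ℝ → Prop} {C : ∀ S : Sp, MSys S M E ι → Prop}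
    (hC : DiagCl (lft C)) : DiagCl (lft fun S s => C S s ∧ DG G k t s) :=
  (DiagCl.lft_and hC ((dtA G k t ι).inv 0) ((dtA G k t ι).diagCl 0)).mono
    (fun _ _ _ h => (lft_congr fun _ _ => and_congr_right fun _ => DG_pd).mp h)
    (fun _ _ h => (lft_congr fun _ _ => and_congr_right fun _ => DG_pd).mpr h)

theorem DiagCl.dt [Finite ι] {C : ∀ S : Sp, MSys S M E ι → Prop} (hC : DiagCl (lft C)) (k : ℕ) (t : Fin M)
    (w : Fin M → ℝ) (W : ℝ) : DiagCl (lft fun S s => C S s ∧ Nonempty (Dt k t w W s)) :=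
  (DiagCl.dg hC).mono
    (fun _ _ _ h => (lft_congr fun _ _ => and_congr_right fun _ => Dt_iff).mp h)
    (fun _ _ h => (lft_congr fun _ _ => and_congr_right fun _ => Dt_iff).mpr h)

theorem DiagCl.dl [Finite ι] {C : ∀ S : Sp, MSys S M E ι → Prop} (hC : DiagCl (lft C)) (k : ℕ) {t u : Fin M}
    (hu : u ≠ t) : DiagCl (lft fun S s => C S s ∧ Nonempty (Dl k t u s)) :=
  (DiagCl.dg hC).mono
    (fun _ _ _ h => (lft_congr fun _ _ => and_congr_right fun _ => Dl_iff hu).mp h)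
    (fun _ _ h => (lft_congr fun _ _ => and_congr_right fun _ => Dl_iff hu).mpr h)

/-! ### the classes -/

/-- the class `CC k` with weights `w`: the polynomial has weighted degree at most `W` -/
def CCw (M k : ℕ) (w : Fin M → ℝ) (W : ℝ) : MCl M := fun _ _ _ s =>
  ∃ t : Fin M, t.val = 0 ∧ Nonempty (Dt k t w W s)

theorem CCw_le_CC {M k : ℕ} {w : Fin M → ℝ} {W : ℝ} (hw : ∀ j, 1 ≤ w j) {S : Sp} {g r : ℕ}
    {s : MSys S M (lin g) (Fin r)} (h : CCw M k w W S g r s) : CC M k S g r s := by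
  obtain ⟨t, ht, ⟨d⟩⟩ := h
  refine ⟨t, W, ht, ⟨d.chw ?_⟩⟩
  filter_upwards [d.wd] with n hn ω hω m hm
  refine (Finset.sum_le_sum fun j _ => ?_).trans (hn ω hω m hm)
  exact mul_le_mul_of_nonneg_left (hw j) (Nat.cast_nonneg _)

theorem CCw_iff {M k : ℕ} {w : Fin (M + 1) → ℝ} {W : ℝ} {S : Sp} {g r : ℕ} {s : MSys S (M + 1) (lin g) (Fin r)} :
    CCw (M + 1) k w W S g r s ↔ Nonempty (Dt k 0 w W s) := by
  constructor
  · rintro ⟨t, ht, h⟩
    have : t = 0 := Fin.ext ht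
    rwa [this] at h
  · exact fun h => ⟨0, rfl, h⟩

theorem CL_iff {M k : ℕ} {S : Sp} {g r : ℕ} {s : MSys S (M + 2) (lin g) (Fin r)} :
    CL (M + 2) k S g r s ↔ Nonempty (Dl k 0 1 s) := by
  constructor
  · rintro ⟨t, u, ht, hu, h⟩
    have e1 : t = 0 := Fin.ext ht
    have e2 : u = 1 := Fin.ext hu
    rwa [e1, e2] at h
  · exact fun h => ⟨0, 1, rfl, rfl, h⟩

/-- DIAGONALS keep the class `CC k` with weights -/
theorem DiagCl.ccw {M k : ℕ} {w : Fin (M + 1) → ℝ} {W : ℝ} {g r : ℕ}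
    {C : ∀ S : Sp, MSys S (M + 1) (lin g) (Fin r) → Prop} (hC : DiagCl (lft C)) :
    DiagCl (lft fun S s => C S s ∧ CCw (M + 1) k w W S g r s) :=
  (DiagCl.dt hC k 0 w W).mono
    (fun _ _ _ h => (lft_congr fun _ _ => and_congr_right fun _ => CCw_iff).mp h)
    (fun _ _ h => (lft_congr fun _ _ => and_congr_right fun _ => CCw_iff).mpr h)

/-- DIAGONALS keep the class `CL k` -/
theorem DiagCl.cl {M k : ℕ} {g r : ℕ} {C : ∀ S : Sp, MSys S (M + 2) (lin g) (Fin r) → Prop} (hC : DiagCl (lft C)) :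
    DiagCl (lft fun S s => C S s ∧ CL (M + 2) k S g r s) :=
  (DiagCl.dl hC k (t := 0) (u := 1) (Fin.ne_of_val_ne (by simp))).mono
    (fun _ _ _ h => (lft_congr fun _ _ => and_congr_right fun _ => CL_iff).mp h)
    (fun _ _ h => (lft_congr fun _ _ => and_congr_right fun _ => CL_iff).mpr h)

end

end Pool.Agent.Helper75.CC
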