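import Pool.Agent.Helper63.FRT.Cof

/-! BRANCHES (deterministic part of the zoom of `CL`): polynomials `P_i` of bounded degree along which a family of
polynomials `f_t` in one variable is at most `A` on `[0, 1]`, and such that some Taylor coefficient of `f_t` at `P_i(t)`
of order `m ≥ 1` is at least `B τ ^ (-m)` for some `t`: two of `2 D + 2` such polynomials are closer than `C (A / B) τ`. -/

set_option autoImplicit false

namespace Pool.Agent.Helper75.CC

open Finset Polynomial

/-- LAGRANGE: a polynomial is bounded on `[0, 1]` by its values at nodes of a grid -/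
theorem lag_bd {G : ℕ} (hG : 0 < G) (Q : ℝ[X]) (s : Finset ℕ) (hs : Q.natDegree < s.card)
    (hsG : ∀ g ∈ s, g ≤ G) {V : ℝ} (hV0 : 0 ≤ V) (hV : ∀ g ∈ s, |Q.eval ((g : ℝ) / G)| ≤ V) {t : ℝ} (ht0 : 0 ≤ t)
    (ht1 : t ≤ 1) : |Q.eval t| ≤ ((G : ℝ) + 1) * (G : ℝ) ^ G * V := by
  have hG0 : (0 : ℝ) < G := by exact_mod_cast hG
  have hG1 : (1 : ℝ) ≤ G := by exact_mod_cast hG
  have hinj : Set.InjOn (fun g : ℕ => (g : ℝ) / G) (s : Set ℕ) := by
    intro a _ b _ hab
    have h1 : (a : ℝ) / G = (b : ℝ) / G := hab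
    rw [div_left_inj' hG0.ne'] at h1
    exact_mod_cast h1
  have hdeg : Q.degree < (s.card : WithBot ℕ) :=
    lt_of_le_of_lt degree_le_natDegree (by exact_mod_cast hs)
  have hL := Lagrange.eq_interpolate (v := fun g : ℕ => (g : ℝ) / G) hinj hdeg
  have hcard : s.card ≤ G + 1 := by
    have h1 : s ⊆ Finset.range (G + 1) := fun g hg => Finset.mem_range.mpr (Nat.lt_succ_of_le (hsG g hg))
    have h2 := Finset.card_le_card h1
    rwa [Finset.card_range] at h2
  have hb : ∀ i ∈ s, |(Lagrange.basis s (fun g : ℕ => (g : ℝ) / G) i).eval t| ≤ (G : ℝ) ^ G := by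
    intro i hi
    unfold Lagrange.basis
    rw [eval_prod, Finset.abs_prod]
    have h1 : ∀ j ∈ s.erase i, |(Lagrange.basisDivisor ((i : ℝ) / G) ((j : ℝ) / G)).eval t| ≤ G := by
      intro j hj
      obtain ⟨hji, hjs⟩ := Finset.mem_erase.mp hj
      unfold Lagrange.basisDivisor
      rw [eval_mul, eval_C, eval_sub, eval_X, eval_C, abs_mul, abs_inv]
      have h2 : |t - (j : ℝ) / G| ≤ 1 := by
        have h3 : (j : ℝ) / G ≤ 1 := by
          rw [div_le_one hG0]
          exact_mod_cast hsG j hjs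
        have h4 : 0 ≤ (j : ℝ) / G := by positivity
        rw [abs_le]
        constructor <;> linarith
      have h3 : 1 / (G : ℝ) ≤ |(i : ℝ) / G - (j : ℝ) / G| := by
        rw [← sub_div, abs_div, abs_of_pos hG0]
        apply div_le_div_of_nonneg_right _ hG0.le
        have h5 : (i : ℤ) - (j : ℤ) ≠ 0 := by
          intro h
          apply hji
          have : (i : ℤ) = j := by linarith
          exact_mod_cast this.symm
        have h6 : 1 ≤ |(i : ℤ) - (j : ℤ)| := Int.one_le_abs h5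
        exact_mod_cast h6
      have h4 : (|(i : ℝ) / G - (j : ℝ) / G|)⁻¹ ≤ G := by
        rw [inv_le_comm₀ (lt_of_lt_of_le (by positivity) h3) hG0, ← one_div]
        exact h3
      calc _ ≤ (G : ℝ) * 1 := mul_le_mul h4 h2 (abs_nonneg _) hG0.le
        _ = G := mul_one _
    refine (Finset.prod_le_prod (fun j _ => abs_nonneg _) h1).trans ?_
    rw [Finset.prod_const]
    apply pow_le_pow_right₀ hG1
    rw [Finset.card_erase_of_mem hi]
    omega
  have hval : ∀ i ∈ s, |(C (Q.eval ((i : ℝ) / G)) * Lagrange.basis s (fun g : ℕ => (g : ℝ) / G) i).eval t| ≤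
      V * (G : ℝ) ^ G := by
    intro i hi
    rw [eval_mul, eval_C, abs_mul]
    exact mul_le_mul (hV i hi) (hb i hi) (abs_nonneg _) hV0
  rw [hL, Lagrange.interpolate_apply, eval_finsetSum]
  refine (Finset.abs_sum_le_sum_abs _ _).trans ((Finset.sum_le_sum hval).trans ?_)
  rw [Finset.sum_const, nsmul_eq_mul]
  have h1 : (s.card : ℝ) ≤ (G : ℝ) + 1 := by exact_mod_cast hcard
  have h2 : 0 ≤ V * (G : ℝ) ^ G := by positivity
  calc (s.card : ℝ) * (V * (G : ℝ) ^ G) ≤ ((G : ℝ) + 1) * (V * (G : ℝ) ^ G) := mul_le_mul_of_nonneg_right h1 h2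
    _ = _ := by ring

/-- coefficients of a polynomial which is bounded on an interval -/
theorem coef_bd (D : ℕ) : ∃ B : ℝ, 1 ≤ B ∧ ∀ (c : ℕ → ℝ) (A : ℝ),
    (∀ s : ℝ, 0 ≤ s → s < 1 → |∑ m ∈ range (D + 1), c m * s ^ m| ≤ A) → ∀ m ≤ D, |c m| ≤ B * A := by
  classical
  obtain ⟨B, hB1, hB⟩ := Pool.Agent.Helper63.FRT.exists_coef_bd 1 D
  refine ⟨B, hB1, fun c A hA m hm => ?_⟩
  set Q : MvPolynomial (Fin 1) ℝ := ∑ m ∈ range (D + 1), MvPolynomial.C (c m) * MvPolynomial.X 0 ^ m with hQ
  have h1 : Q.totalDegree ≤ D := by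
    refine (MvPolynomial.totalDegree_finsetSum _ _).trans (Finset.sup_le fun j hj => ?_)
    refine (MvPolynomial.totalDegree_mul _ _).trans ?_
    rw [MvPolynomial.totalDegree_C, zero_add]
    refine (MvPolynomial.totalDegree_pow _ _).trans ?_
    rw [MvPolynomial.totalDegree_X, mul_one]
    exact Nat.lt_succ_iff.mp (Finset.mem_range.mp hj)
  have h2 := hB Q h1 A (fun y hy => by
    have e1 : MvPolynomial.eval y Q = ∑ m ∈ range (D + 1), c m * y 0 ^ m := by
      rw [hQ, map_sum]
      apply Finset.sum_congr rfl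
      intro j _
      rw [map_mul, MvPolynomial.eval_C, map_pow, MvPolynomial.eval_X]
    rw [e1]
    exact hA (y 0) (hy 0).1 (hy 0).2) (Finsupp.single 0 m)
  have e2 : Q.coeff (Finsupp.single 0 m) = c m := by
    rw [hQ, MvPolynomial.coeff_sum, Finset.sum_eq_single m]
    · rw [MvPolynomial.coeff_C_mul, MvPolynomial.coeff_X_pow, if_pos rfl, mul_one]
    · intro b _ hb
      rw [MvPolynomial.coeff_C_mul, MvPolynomial.coeff_X_pow, if_neg, mul_zero]
      intro h
      exact hb (Finsupp.single_injective 0 h)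
    · intro h
      exact absurd (Finset.mem_range.mpr (Nat.lt_succ_of_le hm)) h
  rwa [e2] at h2

/-- a polynomial of degree at most `D` with separated points at which it is at most `A`, and larger points between them -/
theorem card_sep {D : ℕ} (f : ℝ[X]) (hf : f.natDegree ≤ D) {A : ℝ} (hA : 0 ≤ A) (Y : Finset ℝ)
    (hY : ∀ y ∈ Y, |f.eval y| ≤ A)
    (hs : ∀ y ∈ Y, ∀ y' ∈ Y, y < y' → ∃ ξ, y < ξ ∧ ξ < y' ∧ A < |f.eval ξ|) : Y.card ≤ 2 * D + 1 := by
  classical
  by_contra hcon
  push Not at hcon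
  obtain ⟨n, hn⟩ : ∃ n, Y.card = n + 1 := ⟨Y.card - 1, by omega⟩
  have hn2 : 2 * D + 1 ≤ n := by omega
  set e := Y.orderEmbOfFin hn with he
  have hmem : ∀ i, e i ∈ Y := fun i => Finset.orderEmbOfFin_mem Y hn i
  set g : ℝ[X] := f ^ 2 - C (A ^ 2) with hg
  have hgdeg : g.natDegree ≤ 2 * D := by
    refine (natDegree_sub_le _ _).trans (max_le ?_ ?_)
    · refine natDegree_pow_le.trans ?_
      exact Nat.mul_le_mul le_rfl hf
    · rw [natDegree_C]
      exact Nat.zero_le _
  have hgv : ∀ x, g.eval x = |f.eval x| ^ 2 - A ^ 2 := by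
    intro x
    rw [hg, eval_sub, eval_pow, eval_C, sq_abs]
  have hξ : ∀ a : Fin n, ∃ ξ, e a.castSucc < ξ ∧ ξ < e a.succ ∧ A < |f.eval ξ| := fun a =>
    hs _ (hmem _) _ (hmem _) (e.strictMono (Fin.castSucc_lt_succ (i := a)))
  choose ξ h1 h2 h3 using hξ
  have hz : ∀ a : Fin n, ∃ z, e a.castSucc ≤ z ∧ z ≤ ξ a ∧ g.eval z = 0 := by
    intro a
    have hc : ContinuousOn (fun x => g.eval x) (Set.Icc (e a.castSucc) (ξ a)) := g.continuous.continuousOn
    have h4 : g.eval (e a.castSucc) ≤ 0 := by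
      rw [hgv]
      have h5 := hY _ (hmem a.castSucc)
      have h6 : |f.eval (e a.castSucc)| ^ 2 ≤ A ^ 2 := pow_le_pow_left₀ (abs_nonneg _) h5 2
      linarith
    have h5 : 0 ≤ g.eval (ξ a) := by
      rw [hgv]
      have h6 : A ^ 2 ≤ |f.eval (ξ a)| ^ 2 := pow_le_pow_left₀ hA (h3 a).le 2
      linarith
    obtain ⟨z, hz1, hz2⟩ := intermediate_value_Icc (h1 a).le hc ⟨h4, h5⟩
    exact ⟨z, hz1.1, hz1.2, hz2⟩
  choose z hz1 hz2 hz3 using hz
  have hn0 : 0 < n := by omega
  have hg0 : g ≠ 0 := by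
    intro h
    have h4 := hgv (ξ ⟨0, hn0⟩)
    rw [h, eval_zero] at h4
    have h5 : A ^ 2 < |f.eval (ξ ⟨0, hn0⟩)| ^ 2 := pow_lt_pow_left₀ (h3 _) hA (by norm_num)
    linarith
  have hzinj : Function.Injective z := by
    have hmono : StrictMono z := by
      intro a b hab
      have h4 : e a.succ ≤ e b.castSucc := e.monotone (Fin.le_def.mpr (by
        rw [Fin.val_succ, Fin.val_castSucc]
        exact hab))
      exact lt_of_le_of_lt (hz2 a) (lt_of_lt_of_le (h2 a) (h4.trans (hz1 b)))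
    exact hmono.injective
  have h4 : (Finset.univ.image z) ⊆ g.roots.toFinset := by
    intro x hx
    obtain ⟨a, _, ha⟩ := Finset.mem_image.mp hx
    rw [Multiset.mem_toFinset, mem_roots hg0, ← ha]
    exact hz3 a
  have h5 := Finset.card_le_card h4
  rw [Finset.card_image_of_injective _ hzinj, Finset.card_univ, Fintype.card_fin] at h5
  have h6 := (Multiset.toFinset_card_le g.roots).trans (card_roots' g)
  omega

/-- BRANCHES -/
theorem branches (D k d : ℕ) : ∃ C₀ : ℝ, 1 ≤ C₀ ∧ ∀ (A B τ : ℝ), 0 < τ → 0 < B → B ≤ A →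
    ∀ (P : Fin (2 * D + 2) → ℝ[X]) (f : ℝ → ℝ[X]) (G : Fin (2 * D + 2) → ℕ → ℝ[X]),
    (∀ i, (P i).natDegree ≤ k) → (∀ t, (f t).natDegree ≤ D) → (∀ i m, (G i m).natDegree ≤ d) →
    (∀ i t y, (f t).eval ((P i).eval t + y) = ∑ m ∈ range (D + 1), (G i m).eval t * y ^ m) →
    (∀ i (t : ℝ), 0 ≤ t → t ≤ 1 → |(f t).eval ((P i).eval t)| ≤ A) →
    (∀ i, ∃ m, 1 ≤ m ∧ m ≤ D ∧ ∃ t : ℝ, 0 ≤ t ∧ t ≤ 1 ∧ B ≤ |(G i m).eval t| * τ ^ m) →
    ∃ i j, i ≠ j ∧ ∀ t : ℝ, 0 ≤ t → t ≤ 1 → |(P i).eval t - (P j).eval t| ≤ C₀ * (A / B) * τ := by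
  classical
  obtain ⟨BD, hBD1, hBD⟩ := coef_bd D
  set m0 := 2 * D + 2 with hm0
  set N := m0 * d + m0 * m0 * k + 1 with hN
  have hN0 : 0 < N := by omega
  set C1 : ℝ := ((N : ℝ) + 1) * (N : ℝ) ^ N with hC1
  have hNr : (1 : ℝ) ≤ N := by exact_mod_cast hN0
  have hC11 : 1 ≤ C1 := by
    have h1 : (1 : ℝ) ≤ (N : ℝ) ^ N := one_le_pow₀ hNr
    nlinarith
  have hC0 : 1 ≤ 3 * C1 * BD * C1 := by
    have h1 : 1 ≤ BD * C1 := by nlinarith
    have h2 : 1 ≤ C1 * (BD * C1) := by nlinarith
    nlinarith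
  refine ⟨3 * C1 * BD * C1, hC0, ?_⟩
  intro A B τ hτ hB hBA P f G hP hf hG hfG hA hm
  by_contra hcon
  push Not at hcon
  have hA0 : 0 < A := lt_of_lt_of_le hB hBA
  set T : ℝ := 3 * C1 * BD * C1 * (A / B) * τ with hT
  have hAB : 1 ≤ A / B := by rw [le_div_iff₀ hB, one_mul]; exact hBA
  choose m hm1 hmD tm htm0 htm1 htm using hm
  -- bad nodes
  set b1 : Fin m0 → Finset ℕ := fun i => (range (N + 1)).filter fun g : ℕ =>
    |(G i (m i)).eval ((g : ℝ) / N)| * τ ^ (m i) ≤ B / (2 * C1) with hb1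
  set b2 : Fin m0 × Fin m0 → Finset ℕ := fun p => if p.1 = p.2 then ∅ else (range (N + 1)).filter fun g : ℕ =>
    |(P p.1).eval ((g : ℝ) / N) - (P p.2).eval ((g : ℝ) / N)| ≤ T / C1 with hb2
  have c1 : ∀ i, (b1 i).card ≤ d := by
    intro i
    by_contra h
    push Not at h
    have h1 := lag_bd (G := N) hN0 (G i (m i)) (b1 i) (lt_of_le_of_lt (hG i (m i)) h) (fun g hg => by
      have := (Finset.mem_filter.mp hg).1
      exact Nat.lt_succ_iff.mp (Finset.mem_range.mp this)) (V := B / (2 * C1) / τ ^ (m i)) (by positivity)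
      (fun g hg => by
        rw [le_div_iff₀ (by positivity)]
        exact (Finset.mem_filter.mp hg).2) (htm0 i) (htm1 i)
    have h2 := htm i
    have hτm : 0 < τ ^ (m i) := by positivity
    have h3 : |(G i (m i)).eval (tm i)| * τ ^ (m i) ≤ C1 * (B / (2 * C1) / τ ^ (m i)) * τ ^ (m i) :=
      mul_le_mul_of_nonneg_right h1 hτm.le
    have e1 : C1 * (B / (2 * C1) / τ ^ (m i)) * τ ^ (m i) = B / 2 := by
      have : C1 ≠ 0 := by linarith
      field_simp
    rw [e1] at h3
    linarith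
  have c2 : ∀ p, (b2 p).card ≤ k := by
    rintro ⟨i, j⟩
    by_cases hij : i = j
    · simp only [hb2, hij, if_true, Finset.card_empty]
      exact Nat.zero_le _
    by_contra h
    push Not at h
    obtain ⟨t, ht0, ht1, ht⟩ := hcon i j hij
    have e0 : b2 (i, j) = (range (N + 1)).filter fun g : ℕ =>
      |(P i).eval ((g : ℝ) / N) - (P j).eval ((g : ℝ) / N)| ≤ T / C1 := by
      simp only [hb2, if_neg hij]
    rw [e0] at h
    have h1 := lag_bd (G := N) hN0 (P i - P j) _ (lt_of_le_of_lt ((natDegree_sub_le _ _).trans (max_le (hP i) (hP j))) h)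
      (fun g hg => by
        have := (Finset.mem_filter.mp hg).1
        exact Nat.lt_succ_iff.mp (Finset.mem_range.mp this)) (V := T / C1) (by positivity)
      (fun g hg => by
        rw [eval_sub]
        exact (Finset.mem_filter.mp hg).2) ht0 ht1
    rw [eval_sub] at h1
    have e1 : ((N : ℝ) + 1) * (N : ℝ) ^ N * (T / C1) = T := by
      have : C1 ≠ 0 := by linarith
      rw [← hC1]
      field_simp
    rw [e1] at h1
    linarith
  -- a good node
  obtain ⟨g, hg, hgood⟩ : ∃ g ∈ range (N + 1), g ∉ (Finset.univ.biUnion b1) ∪ (Finset.univ.biUnion b2) := by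
    by_contra h
    push Not at h
    have h1 : range (N + 1) ⊆ (Finset.univ.biUnion b1) ∪ (Finset.univ.biUnion b2) := h
    have h2 := Finset.card_le_card h1
    rw [Finset.card_range] at h2
    have h3 := Finset.card_union_le (Finset.univ.biUnion b1) (Finset.univ.biUnion b2)
    have h4 : (Finset.univ.biUnion b1).card ≤ m0 * d := by
      refine Finset.card_biUnion_le.trans ((Finset.sum_le_card_nsmul _ _ d fun i _ => c1 i).trans ?_)
      rw [Finset.card_univ, Fintype.card_fin, smul_eq_mul]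
    have h5 : (Finset.univ.biUnion b2).card ≤ m0 * m0 * k := by
      refine Finset.card_biUnion_le.trans ((Finset.sum_le_card_nsmul _ _ k fun i _ => c2 i).trans ?_)
      rw [Finset.card_univ, Fintype.card_prod, Fintype.card_fin, smul_eq_mul]
    omega
  rw [Finset.mem_union, not_or] at hgood
  have g1 : ∀ i, B / (2 * C1) < |(G i (m i)).eval ((g : ℝ) / N)| * τ ^ (m i) := by
    intro i
    by_contra h
    push Not at h
    exact hgood.1 (Finset.mem_biUnion.mpr ⟨i, Finset.mem_univ _, Finset.mem_filter.mpr ⟨hg, h⟩⟩)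
  have g2 : ∀ i j, i ≠ j → T / C1 < |(P i).eval ((g : ℝ) / N) - (P j).eval ((g : ℝ) / N)| := by
    intro i j hij
    by_contra h
    push Not at h
    apply hgood.2
    refine Finset.mem_biUnion.mpr ⟨(i, j), Finset.mem_univ _, ?_⟩
    simp only [hb2, if_neg hij]
    exact Finset.mem_filter.mpr ⟨hg, h⟩
  set t : ℝ := (g : ℝ) / N with ht
  have ht0 : 0 ≤ t := by positivity
  have ht1 : t ≤ 1 := by
    rw [ht, div_le_one (by linarith)]
    have := Finset.mem_range.mp hg
    exact_mod_cast Nat.lt_succ_iff.mp this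
  set l : ℝ := T / C1 with hl
  have hl0 : 0 < l := by positivity
  have hτl : τ ≤ l := by
    have e1 : l = (3 * C1 * BD) * ((A / B) * τ) := by
      rw [hl, hT]
      have : C1 ≠ 0 := by linarith
      field_simp
    rw [e1]
    have h1 : 1 ≤ 3 * C1 * BD := by nlinarith
    have h2 : τ ≤ (A / B) * τ := by nlinarith
    nlinarith
  -- between two values
  have hbet : ∀ i j, (P i).eval t < (P j).eval t → ∃ ξ, (P i).eval t < ξ ∧ ξ < (P j).eval t ∧ A < |(f t).eval ξ| := by
    intro i j hij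
    by_contra h
    push Not at h
    have hne : i ≠ j := fun e => by rw [e] at hij; exact lt_irrefl _ hij
    have h1 := g2 i j hne
    rw [abs_sub_comm, abs_of_pos (sub_pos.mpr hij)] at h1
    have h2 : ∀ s : ℝ, 0 ≤ s → s < 1 → |∑ m ∈ range (D + 1), ((G i m).eval t * l ^ m) * s ^ m| ≤ A := by
      intro s hs0 hs1
      have e1 : ∑ m ∈ range (D + 1), ((G i m).eval t * l ^ m) * s ^ m = (f t).eval ((P i).eval t + l * s) := by
        rw [hfG i t (l * s)]
        apply Finset.sum_congr rfl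
        intro q _
        rw [mul_pow]
        ring
      rw [e1]
      rcases eq_or_lt_of_le hs0 with h0 | h0
      · rw [← h0, mul_zero, add_zero]
        exact hA i t ht0 ht1
      · apply h
        · have := mul_pos hl0 h0
          linarith
        · have : l * s < l := mul_lt_of_lt_one_right hl0 hs1
          linarith
    have h3 := hBD _ A h2 (m i) (hmD i)
    have h4 := g1 i
    rw [abs_mul, abs_of_pos (pow_pos hl0 _)] at h3
    -- τ ^ m ≤ (τ / l) l ^ m
    have h5 : τ ^ (m i) ≤ (τ / l) * l ^ (m i) := by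
      obtain ⟨q, hq⟩ : ∃ q, m i = q + 1 := ⟨m i - 1, by have := hm1 i; omega⟩
      rw [hq, pow_succ, pow_succ]
      have h6 : τ ^ q ≤ l ^ q := pow_le_pow_left₀ hτ.le hτl q
      have e1 : τ / l * (l ^ q * l) = l ^ q * τ := by
        field_simp
      rw [e1]
      exact mul_le_mul_of_nonneg_right h6 hτ.le
    have h6 : |(G i (m i)).eval t| * τ ^ (m i) ≤ (τ / l) * (BD * A) := by
      calc |(G i (m i)).eval t| * τ ^ (m i) ≤ |(G i (m i)).eval t| * ((τ / l) * l ^ (m i)) :=
            mul_le_mul_of_nonneg_left h5 (abs_nonneg _)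
        _ = (τ / l) * (|(G i (m i)).eval t| * l ^ (m i)) := by ring
        _ ≤ (τ / l) * (BD * A) := mul_le_mul_of_nonneg_left h3 (by positivity)
    have e2 : (τ / l) * (BD * A) = B / (3 * C1) := by
      rw [hl, hT]
      have : C1 ≠ 0 := by linarith
      have : BD ≠ 0 := by linarith
      field_simp
    rw [e2] at h6
    have h7 : B / (3 * C1) ≤ B / (2 * C1) := by
      apply div_le_div_of_nonneg_left hB.le (by positivity)
      nlinarith
    linarith
  have hinj : Function.Injective fun i => (P i).eval t := by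
    intro i j hij
    by_contra hne
    have h1 := g2 i j hne
    have h2 : (P i).eval t = (P j).eval t := hij
    rw [h2, sub_self, abs_zero] at h1
    linarith
  have hfin := card_sep (f t) (hf t) hA0.le (Finset.univ.image fun i => (P i).eval t) (by
    intro y hy
    obtain ⟨i, _, hi⟩ := Finset.mem_image.mp hy
    rw [← hi]
    exact hA i t ht0 ht1) (by
    intro y hy y' hy' hlt
    obtain ⟨i, _, hi⟩ := Finset.mem_image.mp hy
    obtain ⟨j, _, hj⟩ := Finset.mem_image.mp hy'
    subst hi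
    subst hj
    exact hbet i j hlt)
  rw [Finset.card_image_of_injective _ hinj, Finset.card_univ, Fintype.card_fin] at hfin
  omega

/-- REPRESENTATIVES: a finite family in which `n + 1` elements always contain two close ones is covered by `n` elements -/
theorem exists_reps {α : Type} [Finite α] (n : ℕ) (g : α → Prop) (cl : α → α → Prop) (hr : ∀ a, g a → cl a a)
    (h : ∀ f : Fin (n + 1) → α, (∀ i, g (f i)) → ∃ i j, i ≠ j ∧ (cl (f i) (f j) ∨ cl (f j) (f i))) :
    ∃ s : Finset α, s.card ≤ n ∧ (∀ a ∈ s, g a) ∧ ∀ a, g a → ∃ b ∈ s, cl a b ∨ cl b a := by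
  classical
  have : Fintype α := Fintype.ofFinite α
  set F : Finset (Finset α) := Finset.univ.filter fun s =>
    (∀ a ∈ s, g a) ∧ ∀ a ∈ s, ∀ b ∈ s, a ≠ b → ¬ cl a b with hF
  have hne : F.Nonempty := ⟨∅, by simp [hF]⟩
  obtain ⟨s, hs, hmax⟩ := Finset.exists_max_image F Finset.card hne
  obtain ⟨-, hs1, hs2⟩ := Finset.mem_filter.mp hs
  refine ⟨s, ?_, hs1, fun a ha => ?_⟩
  · by_contra hc
    push Not at hc
    obtain ⟨t, hts, htc⟩ := Finset.exists_subset_card_eq (show n + 1 ≤ s.card from hc)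
    set e := t.equivFinOfCardEq htc with he
    obtain ⟨i, j, hij, hcl⟩ := h (fun i => (e.symm i).1) (fun i => hs1 _ (hts (e.symm i).2))
    have hne : (e.symm i).1 ≠ (e.symm j).1 := fun h => hij (e.symm.injective (Subtype.ext h))
    rcases hcl with hcl | hcl
    · exact hs2 _ (hts (e.symm i).2) _ (hts (e.symm j).2) hne hcl
    · exact hs2 _ (hts (e.symm j).2) _ (hts (e.symm i).2) hne.symm hcl
  · by_contra hc
    push Not at hc
    have has : a ∉ s := fun h => (hc a h).1 (hr a ha)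
    have h1 : insert a s ∈ F := by
      rw [hF, Finset.mem_filter]
      refine ⟨Finset.mem_univ _, ?_, ?_⟩
      · intro b hb
        rcases Finset.mem_insert.mp hb with h | h
        · rw [h]; exact ha
        · exact hs1 b h
      · intro b hb b' hb' hbb
        rcases Finset.mem_insert.mp hb with h | h
        · rcases Finset.mem_insert.mp hb' with h' | h'
          · exact absurd (h.trans h'.symm) hbb
          · rw [h]; exact (hc b' h').1
        · rcases Finset.mem_insert.mp hb' with h' | h'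
          · rw [h']; exact (hc b h).2
          · exact hs2 b h b' h' hbb
    have h2 := hmax _ h1
    rw [Finset.card_insert_of_notMem has] at h2
    omega

end Pool.Agent.Helper75.CC
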