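import Pool.Agent.Helper75.CC.Lb

/-! EXPONENTS OF ROWS, and the CUT OFF of the coefficients of finer leaves. -/

set_option autoImplicit false

namespace Pool.Agent.Helper75.CC

open Finset Filter Topology Pool.Agent.Helper69.RK Pool.Agent.Helper31.EC Pool.Agent.Helper31.EC.Sp
open Pool.Agent.Helper40.EL Pool.Agent.Helper89.LX Pool.Agent.Helper3.LF Pool.Agent.Helper84.MT Pool.Agent.Helper36.AM
open Pool.Agent.Helper7.GZ

noncomputable section

variable {S : Sp} {N : ℕ} {E : ℕ → ℕ} {ι : Type}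

/-- typical events contain points -/
theorem typ_point {A : ∀ k, (S.F k).Ω → Prop} (hA : S.Typ A) : ∀ᶠ k in UF, ∃ ω, (S.F k).μ ω ≠ 0 ∧ A k ω := by
  classical
  have h1 := pb_ne_zero (ul_pr_typ_pos A hA)
  filter_upwards [h1] with k hk
  by_contra hcon
  push Not at hcon
  apply hk
  unfold FSp.pb mass res
  apply Finset.sum_eq_zero
  intro ω _
  by_cases h2 : (S.F k).μ ω = 0
  · simp [h2]
  · simp [hcon ω h2]

/-- a sequence which is at most `K 2 ^ (b n)` and at least `2 ^ ((a - ε) n)` for all `ε > 0` -/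
theorem exp_cmp {a b : ℝ} {K : ℕ → ℝ} (hK : S.Sub K)
    (h : ∀ ε : ℝ, 0 < ε → ∀ᶠ k in UF, (2 : ℝ) ^ ((a - ε) * (S.F k).n) ≤ K k * 2 ^ (b * (S.F k).n)) : a ≤ b := by
  by_contra hcon
  push Not at hcon
  obtain ⟨ε, hε⟩ : ∃ ε : ℝ, ε = (a - b) / 2 := ⟨_, rfl⟩
  have hε0 : 0 < ε := by rw [hε]; linarith
  obtain ⟨k, h1, h2⟩ := ((h ε hε0).and (hK.eventually_le hε0)).exists
  have hn := (S.F k).pos
  have h3 : (2 : ℝ) ^ ((a - ε) * (S.F k).n) = 2 ^ (ε * (S.F k).n) * 2 ^ (b * (S.F k).n) := by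
    rw [← Real.rpow_add (by norm_num)]
    congr 1
    rw [hε]
    ring
  rw [h3] at h1
  have h4 : (0 : ℝ) < 2 ^ (b * (S.F k).n) := by positivity
  have h5 : (2 : ℝ) ^ (ε * (S.F k).n) ≤ K k := le_of_mul_le_mul_right h1 h4
  linarith

/-- derivatives of rows are at most `K 2 ^ (Λ n)` -/
theorem grad_cf {D : ℕ} {Λ : ℝ} (Q : S.VV N) (p : ∀ k, (S.F k).Ω → MvPolynomial (Fin N) ℝ)
    (hD : ∀ k ω, (p k ω).totalDegree ≤ D) (cf : ∃ K : ℕ → ℝ, S.Sub K ∧ ∀ᶠ k in UF, ∀ ω, (S.F k).μ ω ≠ 0 → ∀ a,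
      |(p k ω).coeff a| ≤ K k * 2 ^ (Λ * (S.F k).n)) (j : Fin N) : ∃ K : ℕ → ℝ, S.Sub K ∧ ∀ᶠ k in UF, ∀ ω,
        (S.F k).μ ω ≠ 0 → |MvPolynomial.eval (Q.v k ω) (MvPolynomial.pderiv j (p k ω))| ≤ K k * 2 ^ (Λ * (S.F k).n) := by
  obtain ⟨K, hK, hc⟩ := cf
  obtain ⟨L, hL, hQ⟩ := Q.bd
  refine ⟨fun k => ((D : ℝ) + 1) ^ N * (K k * D * (L k + 1) ^ D), (S.Sub_const (by positivity)).mul
    ((hK.mul (S.Sub_const (by positivity))).mul (Sub_pow' (hL.add (S.Sub_const zero_le_one)) D)), ?_⟩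
  filter_upwards [hc, hQ, hK.1, hL.1] with k h1 h2 h3 h4 ω hω
  have h5 : ∀ a, |(MvPolynomial.pderiv j (p k ω)).coeff a| ≤ K k * 2 ^ (Λ * (S.F k).n) * D := fun a =>
    Pool.Agent.Helper37.DK2.pderiv_coeff_le (hD k ω) (by positivity) (h1 ω hω) j a
  have h6 : (MvPolynomial.pderiv j (p k ω)).totalDegree ≤ D := (Pool.Agent.Helper84.MT.totalDegree_pderiv_le _ _).trans (hD k ω)
  have h7 := eval_le_of_coeff (MvPolynomial.pderiv j (p k ω)) h6 _ (L k + 1) (by positivity) (by linarith) h5 (Q.v k ω)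
    (fun i => (h2 ω hω i).trans (by linarith))
  refine h7.trans (le_of_eq ?_)
  ring

/-- derivatives of tame rows in two coordinates: `|∂_u p| 2 ^ (- n)` is at most the variation -/
theorem grad_lp {D : ℕ} : ∃ B : ℝ, 1 ≤ B ∧ ∀ {t u : Fin N} (_ : u ≠ t) {p : MvPolynomial (Fin N) ℝ}
    (_ : p.totalDegree ≤ D) (_ : ∀ i ∈ p.vars, i = t ∨ i = u) (x : Fin N → ℝ) {ρ V : ℝ} (_ : 0 < ρ)
    (_ : ∀ y : Fin N → ℝ, (∀ i, |y i - x i| ≤ ρ) → |MvPolynomial.eval y p - MvPolynomial.eval x p| ≤ V),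
      |MvPolynomial.eval x (MvPolynomial.pderiv u p)| * ρ ≤ B * V := by
  classical
  obtain ⟨B, hB1, hB⟩ := coef_bd D
  refine ⟨B, hB1, fun {t u} hut {p} hD hv x {ρ V} hρ hV => ?_⟩
  set G : ℕ → ℝ := fun m => (Gp t u p (x t) 0 (Polynomial.C (x u)) m).eval 0 with hG
  have hV0 : 0 ≤ V := (abs_nonneg _).trans (hV x fun i => by
    rw [sub_self, abs_zero]
    exact hρ.le)
  have h1 := pderiv_taylor hD hut hv (x t) 0 (Polynomial.C (x u)) 0 x (by rw [mul_zero, add_zero])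
  rw [Polynomial.eval_C, sub_self] at h1
  by_cases hD0 : D = 0
  · subst hD0
    rw [zero_add, Finset.sum_range_one, Nat.cast_zero, zero_mul, mul_zero] at h1
    rw [h1, abs_zero, zero_mul]
    exact mul_nonneg (by linarith) hV0
  have h2 : MvPolynomial.eval x (MvPolynomial.pderiv u p) = G 1 := by
    rw [h1, Finset.sum_eq_single 1]
    · simp [hG]
    · intro m _ hm
      rcases Nat.eq_zero_or_pos m with h0 | h0
      · rw [h0, Nat.cast_zero, zero_mul, mul_zero]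
      · rw [zero_pow (by omega), mul_zero, mul_zero]
    · intro h
      exact absurd (Finset.mem_range.mpr (by omega)) h
  have h3 := hB (fun m => if m = 0 then 0 else G m * ρ ^ m) V (by
    intro σ hσ0 hσ1
    have h4 := fyp_taylor (t := t) (u := u) hD (x t) 0 (Polynomial.C (x u)) 0 (ρ * σ)
    rw [Polynomial.eval_C, mul_zero, add_zero] at h4
    have e1 : ∑ m ∈ range (D + 1), (if m = 0 then 0 else G m * ρ ^ m) * σ ^ m =
        (∑ m ∈ range (D + 1), G m * (ρ * σ) ^ m) - G 0 := by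
      rw [Finset.sum_range_succ', Finset.sum_range_succ' (fun m => G m * (ρ * σ) ^ m)]
      simp only [if_true, pow_zero, mul_one, add_sub_cancel_right, Nat.succ_ne_zero, if_false, zero_mul, add_zero,
        Nat.add_eq_zero_iff, one_ne_zero, and_false]
      apply Finset.sum_congr rfl
      intro m _
      rw [mul_pow]
      ring
    have h5 := fyp_taylor (t := t) (u := u) hD (x t) 0 (Polynomial.C (x u)) 0 0
    rw [Polynomial.eval_C, mul_zero, add_zero, add_zero] at h5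
    have e2 : ∑ m ∈ range (D + 1), (Gp t u p (x t) 0 (Polynomial.C (x u)) m).eval 0 * (0 : ℝ) ^ m = G 0 := by
      rw [Finset.sum_eq_single 0]
      · simp [hG]
      · intro m _ hm
        rw [zero_pow hm, mul_zero]
      · intro h
        exact absurd (Finset.mem_range.mpr (by omega)) h
    rw [e2, fyp_eval hut hv x] at h5
    rw [e1, ← h4, ← h5]
    have h6 := fyp_eval hut hv (fun i => if i = u then x u + ρ * σ else x i)
    simp only [if_neg hut.symm, if_true] at h6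
    rw [h6]
    apply hV
    intro i
    by_cases hi : i = u
    · subst hi
      simp only [if_true, add_sub_cancel_left]
      rw [abs_mul, abs_of_pos hρ, abs_of_nonneg hσ0]
      exact mul_le_of_le_one_right hρ.le hσ1.le
    · simp only [if_neg hi, sub_self, abs_zero]
      exact hρ.le) 1 (by omega)
  simp only [one_ne_zero, if_false, pow_one] at h3
  rw [h2]
  rwa [abs_mul, abs_of_pos hρ] at h3

/-- CUT OFF: coefficients of finer leaves which are not bounded -/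
theorem Dl.of_typ {s : MSys S N E ι} {κ : ℕ} {t u : Fin N} {i : ι} {L : ∀ n, Setoid (S.F n).Ω} (sl : SL s i t L)
    (α : ∀ n, (S.F n).Ω → Fin (κ + 1) → ℝ)
    (fa : ∀ᶠ n in UF, ∀ ω ω', (S.F n).μ ω ≠ 0 → (S.F n).μ ω' ≠ 0 → (S.F n).Z ω ω' → L n ω ω' → α n ω = α n ω')
    (eq : ∃ K : ℕ → ℝ, S.Sub K ∧ S.Typ fun n ω => |s.Q.v n ω u - ∑ l, α n ω l * s.Q.v n ω t ^ (l : ℕ)| ≤
      K n * S.dl 1 n) : Nonempty (Dl κ t u s) := by
  classical
  obtain ⟨K, hK, he⟩ := eq
  obtain ⟨KQ, hKQ, hbQ⟩ := s.Q.bd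
  set f : ∀ n, (S.F n).Ω → MvPolynomial (Fin 1) ℝ := fun n ω =>
    ∑ l : Fin (κ + 1), MvPolynomial.C (α n ω l) * MvPolynomial.X 0 ^ (l : ℕ) with hf
  have hfe : ∀ n ω (y : Fin 1 → ℝ), MvPolynomial.eval y (f n ω) = ∑ l, α n ω l * y 0 ^ (l : ℕ) := by
    intro n ω y
    simp only [hf, map_sum, map_mul, map_pow, MvPolynomial.eval_C, MvPolynomial.eval_X]
  have hfc : ∀ n ω (l : Fin (κ + 1)), (f n ω).coeff (Finsupp.single 0 (l : ℕ)) = α n ω l := by
    intro n ω l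
    simp only [hf, MvPolynomial.coeff_sum, MvPolynomial.coeff_C_mul, MvPolynomial.coeff_X_pow]
    rw [Finset.sum_eq_single l]
    · rw [if_pos rfl, mul_one]
    · intro b _ hb
      rw [if_neg, mul_zero]
      intro h
      exact hb (Fin.ext (Finsupp.single_injective 0 h))
    · intro h
      exact absurd (Finset.mem_univ l) h
  have hfd : ∀ n ω, (f n ω).totalDegree ≤ κ := by
    intro n ω
    refine (MvPolynomial.totalDegree_finsetSum _ _).trans (Finset.sup_le fun l _ => ?_)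
    refine (MvPolynomial.totalDegree_mul _ _).trans ?_
    rw [MvPolynomial.totalDegree_C, zero_add]
    refine (MvPolynomial.totalDegree_pow _ _).trans ?_
    rw [MvPolynomial.totalDegree_X, mul_one]
    exact Nat.lt_succ_iff.mp l.isLt
  have hfull : Tendsto (fun k => h (fc (Setoid.ker (Pool.Agent.Helper63.FRT.celm (s.Q.co t) (fun _ => (1 : ℝ)) k)))
      (fc (L k)) / (S.F k).n) UF (𝓝 (∑ _i : Fin 1, (1 : ℝ))) := by
    rw [Finset.sum_const, Finset.card_univ, Fintype.card_fin, one_smul]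
    exact sl.real
  obtain ⟨K', hK', hK1, hT⟩ := Pool.Agent.Helper63.FRT.nes_coeff (s.Q.co t) L (fun _ => 1) (fun _ => one_pos) hfull
    (D := κ) f (Eventually.of_forall fun n ω _ => hfd n ω) (by
      filter_upwards [fa] with n hn ω ω' a b z l
      simp only [hf]
      rw [hn ω ω' a b z l])
  obtain ⟨Kc, hKc⟩ : ∃ Kc : ℕ → ℝ, ∀ n, Kc n = K' n * (KQ n + K n) := ⟨_, fun _ => rfl⟩
  have hKcs : S.Sub Kc := by
    have h1 := hK'.mul (hKQ.add hK)
    rw [show Kc = fun n => K' n * (KQ n + K n) from funext hKc]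
    exact h1
  refine ⟨⟨i, L, fun n ω => if ∀ l, |α n ω l| ≤ Kc n then α n ω else 0, sl, ?_, ⟨Kc, hKcs, ?_⟩, ⟨K, hK, ?_⟩⟩⟩
  · filter_upwards [fa] with n hn ω ω' a b z l
    rw [hn ω ω' a b z l]
  · filter_upwards [hKcs.1] with n h0 ω _ l
    by_cases h1 : ∀ l, |α n ω l| ≤ Kc n
    · rw [if_pos h1]
      exact h1 l
    · rw [if_neg h1, Pi.zero_apply, abs_zero]
      exact h0
  · refine (hT.and he).mono ?_
    filter_upwards [hbQ, hK.1, hK1] with n h0 h00 h01 ω hω hh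
    obtain ⟨h1, h2⟩ := hh
    have h3 : ∀ l, |α n ω l| ≤ Kc n := by
      intro l
      have h4 := h1 (Finsupp.single 0 (l : ℕ))
      rw [hfc] at h4
      rw [hKc]
      refine h4.trans (mul_le_mul_of_nonneg_left ?_ (by linarith))
      have e1 : MvPolynomial.eval ((s.Q.co t).v n ω) (f n ω) = ∑ l, α n ω l * s.Q.v n ω t ^ (l : ℕ) := hfe n ω _
      rw [e1]
      have h5 := h0 ω hω u
      have h6 := abs_sub (s.Q.v n ω u) (s.Q.v n ω u - ∑ l, α n ω l * s.Q.v n ω t ^ (l : ℕ))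
      rw [sub_sub_cancel] at h6
      have h7 : K n * S.dl 1 n ≤ K n * 1 := mul_le_mul_of_nonneg_left (dl_one_le S n) h00
      linarith
    rw [if_pos h3]
    exact h2

end

end Pool.Agent.Helper75.CC
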