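import Pool.Agent.Helper75.CC.Dg
import Pool.Agent.Helper7.GZ.Fr
import Pool.Agent.Helper5.HB.Lbl

/-! ZOOMS OF FINER LEAVES over labels without leak at the types. -/

set_option autoImplicit false

namespace Pool.Agent.Helper75.CC

open Finset Filter Topology Pool.Agent.Helper69.RK Pool.Agent.Helper31.EC Pool.Agent.Helper31.EC.Sp
open Pool.Agent.Helper40.EL Pool.Agent.Helper89.LX Pool.Agent.Helper3.LF Pool.Agent.Helper84.MT Pool.Agent.Helper36.AM
open Pool.Agent.Helper7.GZ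

noncomputable section

variable {S T : Sp} {M M' : ℕ} {E E' : ℕ → ℕ} {ι κ : Type}

/-- the coordinate `b` of the zoom is the remainder of the coordinate `a` of the point, shifted by a function of the label -/
def Zco (Q : S.VV M) (l : Lab S) (c e : ℝ) (he : 0 < e) (a : Fin M) (Q' : (l.ovr e he).VV M') (b : Fin M')
    (o : ∀ k, (l k).T.Ω → ℝ) : Prop :=
  (∀ᶠ k in UF, ∀ ω ω', (l k).T.μ ω ≠ 0 → (l k).T.μ ω' ≠ 0 → ((l.ovr e he).F k).Z ω ω' → o k ω = o k ω') ∧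
    ∃ K : ℕ → ℝ, S.Sub K ∧ ∀ᶠ k in UF, ∀ ω, (l k).T.μ ω ≠ 0 →
      |Q.v k ((l k).p.π ω) a - (o k ω + S.dl c k * Q'.v k ω b)| ≤ K k * S.dl (c + e) k

/-- the finer leaf of the zoom -/
def zL (Z : ZU S) (Q : S.VV M) (t : Fin M) (L : ∀ k, Setoid (S.F k).Ω) (k : ℕ) : Setoid (Z.sp.F k).Ω :=
  Setoid.comap (Z.l k).p.π (L k ⊓ Setoid.ker ((Q.co t).cellv Z.c k))

theorem Nul_leak {l : Lab S} {x y : Part S} (h : Nul S (fun k => (l k).leak (x k))) (hxy : PLe x y) :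
    Nul S (fun k => (l k).leak (y k)) := by
  have h2 : Nul S (fun k => (l k).leak (x k) + Helper31.EC.h (x k) (y k)) := h.add hxy
  exact h2.of_le (Eventually.of_forall fun k => I_nonneg _ _ _)
    (Eventually.of_forall fun k => (l k).leak_le_leak (y k) (x k))

/-- cells of the remainder and of the coordinate of the zoom -/
theorem zco_close {Z : ZU S} {Q : S.VV M} {t : Fin M} {Q' : Z.sp.VV M'} {b : Fin M'} {o : ∀ k, (Z.l k).T.Ω → ℝ}
    (hz : Zco Q Z.l Z.c Z.u Z.hu t Q' b o) : ∃ K : ℕ → ℝ, S.Sub K ∧ ∀ᶠ k in UF, ∀ ω ω', (Z.l k).T.μ ω ≠ 0 →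
      (Z.l k).T.μ ω' ≠ 0 → (Z.sp.F k).Z ω ω' → (Q.co t).cellv Z.c k ((Z.l k).p.π ω) = (Q.co t).cellv Z.c k ((Z.l k).p.π ω') →
      |((Z.fr (Q.co t)).v k ω 0 - (Z.fr (Q.co t)).v k ω' 0) - (Q'.v k ω b - Q'.v k ω' b)| ≤ K k * Z.sp.dl 1 k := by
  obtain ⟨h1, K, hK, h2⟩ := hz
  refine ⟨fun k => K k + K k, hK.add hK, ?_⟩
  filter_upwards [h1, h2] with k a1 a2 ω ω' b1 b2 b3 b4
  have e1 := Z.fr_sub (Q.co t) k ω ω' b4 0
  have e2 := a1 ω ω' b1 b2 b3
  have e3 := a2 ω b1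
  have e4 := a2 ω' b2
  have hd := S.dl_pos Z.c k
  rw [Z.sp_dl1]
  have e5 : S.dl (Z.c + Z.u) k = S.dl Z.c k * S.dl Z.u k := S.dl_add _ _ _
  rw [e5, ← e2] at e4
  rw [e5] at e3
  have e6 : (Q.co t).v k ((Z.l k).p.π ω) 0 - (Q.co t).v k ((Z.l k).p.π ω') 0 =
      Q.v k ((Z.l k).p.π ω) t - Q.v k ((Z.l k).p.π ω') t := rfl
  rw [e6] at e1
  have e7 : S.dl Z.c k * |((Z.fr (Q.co t)).v k ω 0 - (Z.fr (Q.co t)).v k ω' 0) - (Q'.v k ω b - Q'.v k ω' b)| ≤
      S.dl Z.c k * ((K k + K k) * S.dl Z.u k) := by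
    rw [← abs_of_pos hd, ← abs_mul, abs_of_pos hd]
    have e8 : S.dl Z.c k * ((Z.fr (Q.co t)).v k ω 0 - (Z.fr (Q.co t)).v k ω' 0 - (Q'.v k ω b - Q'.v k ω' b)) =
        (Q.v k ((Z.l k).p.π ω) t - (o k ω + S.dl Z.c k * Q'.v k ω b)) -
          (Q.v k ((Z.l k).p.π ω') t - (o k ω + S.dl Z.c k * Q'.v k ω' b)) := by
      linear_combination -e1
    rw [e8]
    refine (abs_sub _ _).trans ?_
    calc _ ≤ K k * (S.dl Z.c k * S.dl Z.u k) + K k * (S.dl Z.c k * S.dl Z.u k) := add_le_add e3 e4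
      _ = _ := by ring
  exact le_of_mul_le_mul_left e7 hd

/-- cells of the remainder from cells of the coordinate -/
theorem fr_of_zco {Z : ZU S} {Q : S.VV M} {t : Fin M} {L : ∀ k, Setoid (S.F k).Ω} {Q' : Z.sp.VV M'} {b : Fin M'}
    {o : ∀ k, (Z.l k).T.Ω → ℝ} (hz : Zco Q Z.l Z.c Z.u Z.hu t Q' b o) {w : ℝ} (hw : w ≤ 1) :
    PLe (S := Z.sp) (fun k => fc (Setoid.ker ((Z.fr (Q.co t)).cellv w k)))
      (fun k => fc (Setoid.ker ((Q'.co b).cellv w k) ⊓ zL Z Q t L k)) := by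
  obtain ⟨K, hK, hc⟩ := zco_close hz
  refine PLe_cell (S := Z.sp) (Z.fr (Q.co t)) w _ (fun k => 1 + K k)
    ((Z.sp.Sub_const zero_le_one).add (Z.Sub_sp.mp hK)) ?_
  filter_upwards [hc, hK.1] with k a1 a2 ω ω' b1 b2 b3 r i
  have h1 := a1 ω ω' b1 b2 b3 r.2.2
  have h2 := abs_sub_le_of_floor_eq (Z.sp.dl_pos w k) (congrFun r.1 0)
  have h3 : |Q'.v k ω b - Q'.v k ω' b| ≤ Z.sp.dl w k := h2
  have h4 := Z.sp.dl_anti hw k
  have h5 : K k * Z.sp.dl 1 k ≤ K k * Z.sp.dl w k := mul_le_mul_of_nonneg_left h4 a2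
  rw [Subsingleton.elim i 0]
  have h6 := abs_add_le (((Z.fr (Q.co t)).v k ω 0 - (Z.fr (Q.co t)).v k ω' 0) - (Q'.v k ω b - Q'.v k ω' b))
    (Q'.v k ω b - Q'.v k ω' b)
  rw [sub_add_cancel] at h6
  refine h6.trans ?_
  linarith

/-- cells of the coordinate from cells of the remainder -/
theorem zco_of_fr {Z : ZU S} {Q : S.VV M} {t : Fin M} {L : ∀ k, Setoid (S.F k).Ω} {Q' : Z.sp.VV M'} {b : Fin M'}
    {o : ∀ k, (Z.l k).T.Ω → ℝ} (hz : Zco Q Z.l Z.c Z.u Z.hu t Q' b o) {w : ℝ} (hw : w ≤ 1) :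
    PLe (S := Z.sp) (fun k => fc (Setoid.ker ((Q'.co b).cellv w k)))
      (fun k => fc (Setoid.ker ((Z.fr (Q.co t)).cellv w k) ⊓ zL Z Q t L k)) := by
  obtain ⟨K, hK, hc⟩ := zco_close hz
  refine PLe_cell (S := Z.sp) (Q'.co b) w _ (fun k => 1 + K k)
    ((Z.sp.Sub_const zero_le_one).add (Z.Sub_sp.mp hK)) ?_
  filter_upwards [hc, hK.1] with k a1 a2 ω ω' b1 b2 b3 r i
  have h1 := a1 ω ω' b1 b2 b3 r.2.2
  have h2 := abs_sub_le_of_floor_eq (Z.sp.dl_pos w k) (congrFun r.1 0)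
  have h4 := Z.sp.dl_anti hw k
  have h5 : K k * Z.sp.dl 1 k ≤ K k * Z.sp.dl w k := mul_le_mul_of_nonneg_left h4 a2
  show |Q'.v k ω b - Q'.v k ω' b| ≤ _
  have h6 := abs_sub (((Z.fr (Q.co t)).v k ω 0 - (Z.fr (Q.co t)).v k ω' 0))
    (((Z.fr (Q.co t)).v k ω 0 - (Z.fr (Q.co t)).v k ω' 0) - (Q'.v k ω b - Q'.v k ω' b))
  rw [sub_sub_cancel] at h6
  refine h6.trans ?_
  linarith

/-- ZOOM OF A FINER LEAF -/
theorem SL.zoom {s : MSys S M E ι} {i : ι} {t : Fin M} {L : ∀ k, Setoid (S.F k).Ω} (h : SL s i t L) (Z : ZU S)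
    (hl : Nul S (fun k => (Z.l k).leak ((s.lf i).win Z.c k))) {t' : MSys Z.sp M' E' κ} {i' : κ} {b : Fin M'}
    (hw : ∀ w : ℝ, 0 ≤ w → w ≤ 1 → PLe ((t'.lf i').win w) (Z.l.up Z.u Z.hu ((s.lf i).win (Z.c + Z.u * w))))
    {o : ∀ k, (Z.l k).T.Ω → ℝ} (hz : Zco s.Q Z.l Z.c Z.u Z.hu t t'.Q b o) : SL t' i' b (zL Z s.Q t L) where
  win := fun w h0 h1 => by
    have hu := Z.hu
    have hc := Z.h0
    have hc1 := Z.h1
    have a1 : 0 ≤ Z.c + Z.u * w := by positivity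
    have a2 : Z.c + Z.u * w ≤ 1 := by nlinarith
    have k1 := hw w h0 h1
    have k2 : PLe (Z.l.up Z.u Z.hu ((s.lf i).win (Z.c + Z.u * w))) (Z.l.up Z.u Z.hu (sw s.Q t L (Z.c + Z.u * w))) :=
      Lab.PLe_up (l := Z.l) (c := Z.u) (hc := Z.hu) (h.win _ a1 a2)
    have k3 := Z.up_win (tl s.Q t L h.real) w
    have k4 : PLe (S := Z.sp) (Z.zwin (tl s.Q t L h.real) w) (sw t'.Q b (zL Z s.Q t L) w) := by
      have m1 : PLe (S := Z.sp) (fun k => fc (Setoid.ker ((Z.fr (s.Q.co t)).cellv w k)))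
          (sw t'.Q b (zL Z s.Q t L) w) := by
        have := fr_of_zco (L := L) hz h1
        refine this.trans (PLe_of_le fun k => ?_)
        have e1 : sw t'.Q b (zL Z s.Q t L) w k = fc (zL Z s.Q t L k ⊓ Setoid.ker ((t'.Q.co b).cellv w k)) := rfl
        rw [e1, inf_comm]
      have m2 : PLe (S := Z.sp) (fun k => fc (zL Z s.Q t L k)) (sw t'.Q b (zL Z s.Q t L) w) :=
        PLe_of_le fun k => fc_mono inf_le_left
      exact PLe_inf (S := Z.sp) (A := zL Z s.Q t L) (B := fun k => Setoid.ker ((Z.fr (s.Q.co t)).cellv w k)) m2 m1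
    exact ((k1.trans k2).trans k3).trans k4
  real := by
    have hl' : Nul S (fun k => (Z.l k).leak ((tl s.Q t L h.real).win Z.c k)) :=
      Nul_leak hl (h.win Z.c Z.h0 (by linarith [Z.h1, Z.hu]))
    have h1 := Z.zfull (tl s.Q t L h.real) hl'
    rw [show (((tl s.Q t L h.real).e : ℕ) : ℝ) = 1 from Nat.cast_one] at h1
    exact tendsto_swap Z.sp (fun k => Setoid.ker ((Z.fr (s.Q.co t)).cellv 1 k))
      (fun k => Setoid.ker ((t'.Q.co b).cellv 1 k)) (zL Z s.Q t L) h1 (zco_of_fr (L := L) hz le_rfl)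
      (fr_of_zco (L := L) hz le_rfl)

/-! ### auxiliary systems -/

/-- cells of level zero have rate zero -/
theorem PLe_cell0 (y : S.VV 1) (B : Part S) : PLe (fun k => fc (Setoid.ker (y.cellv 0 k))) B := by
  apply PLe.of_small
  intro ε hε
  filter_upwards [h_cell_le y le_rfl B ε hε] with k hk
  rw [mul_zero, zero_add] at hk
  exact hk

/-- AUXILIARY SYSTEMS: a system over an extension with the same point, a type of which is known to a partition without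
leak at the type `i` and to the cells of the point -/
theorem SL.aux {s : MSys S M E ι} {i : ι} {t : Fin M} {L : ∀ k, Setoid (S.F k).Ω} (h : SL s i t L) (p : Pj T S)
    (V : ∀ k, Setoid (T.F k).Ω)
    (hl : Nul S (fun k => (Pool.Agent.Helper5.HB.lbI p V k).leak ((s.lf i).win 0 k))) {s' : MSys T M E' κ} {i' : κ}
    (hQ : s'.Q = p.vv s.Q)
    (hw : ∀ b : ℝ, 0 ≤ b → b ≤ 1 → PLe ((s'.lf i').win b) (fun k => fc (V k ⊓ Setoid.ker ((p.vv s.Q).cellv b k)))) :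
    SL s' i' t (fun k => Setoid.comap (p.π k) (L k) ⊓ V k) where
  win := fun b h0 h1 => by
    have e1 : sw s'.Q t (fun k => Setoid.comap (p.π k) (L k) ⊓ V k) b = fun k =>
        fc ((Setoid.comap (p.π k) (L k) ⊓ V k) ⊓ Setoid.ker ((p.vv (s.Q.co t)).cellv b k)) := by
      rw [hQ]
      rfl
    rw [e1]
    refine (hw b h0 h1).trans ?_
    refine PLe_inf (PLe_of_le fun k => fc_mono (inf_le_left.trans inf_le_right)) ?_
    -- the cells of the point
    have k1 : PLe (fun k => fc (Setoid.ker (s.Q.cellv b k))) (sw s.Q t L b) :=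
      ((s.lf i).dg_win h0 h1).trans (h.win b h0 h1)
    have k2 := PLe_pull p k1
    refine PLe.trans ?_ (k2.trans (PLe_of_le fun k => ?_))
    · refine PLe_of_le fun k => ?_
      have e2 : (p.vv s.Q).cellv b k = fun ω => s.Q.cellv b k (p.π k ω) := by
        funext ω
        rw [vv_cellv]
      rw [e2]
      exact le_rfl
    · have e3 : (p.vv (s.Q.co t)).cellv b k = fun ω => (s.Q.co t).cellv b k (p.π k ω) := by
        funext ω
        rw [vv_cellv]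
      rw [e3]
      exact fc_mono (F := T.F k) (le_inf (inf_le_left.trans inf_le_left) inf_le_right)
  real := by
    obtain ⟨l, hlb⟩ : ∃ l : Lab S, l = Pool.Agent.Helper5.HB.lbI p V := ⟨_, rfl⟩
    rw [← hlb] at hl
    have g0 : PLe ((s.lf i).win 0) (fun k => fc (L k)) := by
      refine (h.win 0 le_rfl zero_le_one).trans ?_
      exact PLe_inf (PLe.refl _) (PLe_cell0 (s.Q.co t) _)
    have hl2 := Nul_leak hl g0
    have t1 := h.real.sub hl2
    rw [sub_zero] at t1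
    have key : ∀ k, Helper31.EC.h (fc (F := T.F k) (Setoid.ker ((s'.Q.co t).cellv 1 k)))
        (fc (Setoid.comap (p.π k) (L k) ⊓ V k)) / (T.F k).n =
        Helper31.EC.h ((l k).p.map (fc (Setoid.ker ((s.Q.co t).cellv 1 k))))
          ((l k).p.map (fc (L k)) ⊔ (l k).v) / (S.F k).n := by
      intro k
      subst hlb
      have e1 : (s'.Q.co t).cellv 1 k = fun ω => (s.Q.co t).cellv 1 k (p.π k ω) := by
        rw [hQ]
        funext ω
        show (p.vv (s.Q.co t)).cellv 1 k ω = _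
        rw [vv_cellv]
      rw [e1, ← p.hn k, fc_inf]
      rfl
    have hfun : (fun n => Helper31.EC.h (fc (F := T.F n) (Setoid.ker ((s'.Q.co t).cellv 1 n)))
        (fc (Setoid.comap (p.π n) (L n) ⊓ V n)) / (T.F n).n) = _ := funext key
    rw [hfun]
    refine tendsto_of_tendsto_of_tendsto_of_le_of_le t1 h.real (fun k => ?_) (fun k => ?_)
    · show Helper31.EC.h (fc (Setoid.ker ((s.Q.co t).cellv 1 k))) (fc (L k)) / (S.F k).n -
        (l k).leak (fc (L k)) / (S.F k).n ≤ _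
      rw [← sub_div]
      apply div_le_div_of_nonneg_right _ (S.F k).pos.le
      have h3 := I_eq' (l k).v ((l k).p.map (fc (Setoid.ker ((s.Q.co t).cellv 1 k)))) ((l k).p.map (fc (L k)))
      have h4 : I (l k).v ((l k).p.map (fc (Setoid.ker ((s.Q.co t).cellv 1 k)))) ((l k).p.map (fc (L k))) ≤
          (l k).leak (fc (L k)) := I_mono_right (((l k).p.map_le_top _).trans le_sup_left)
      rw [sup_comm (l k).v, (l k).p.h_map] at h3
      linarith
    · apply div_le_div_of_nonneg_right _ (S.F k).pos.le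
      rw [← (l k).p.h_map (fc (Setoid.ker ((s.Q.co t).cellv 1 k))) (fc (L k))]
      exact h_anti le_sup_left

end

end Pool.Agent.Helper75.CC
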