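import Pool.Agent.Helper75.CC.Rp
import Pool.Agent.Helper75.CC.Zm
import Pool.Agent.Helper63.FRT.Nes
import Pool.Agent.Helper7.GZ.Row
import Pool.Agent.Helper81.MT.Bas

/-! ROWS ALONG FINER LEAVES: typically a row of the first two coordinates with a large derivative is bounded on the whole
cell along the finer leaf, and has a large Taylor coefficient. -/

set_option autoImplicit false

namespace Pool.Agent.Helper75.CC

open Finset Filter Topology Pool.Agent.Helper69.RK Pool.Agent.Helper31.EC Pool.Agent.Helper31.EC.Sp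
open Pool.Agent.Helper40.EL Pool.Agent.Helper89.LX Pool.Agent.Helper3.LF Pool.Agent.Helper84.MT Pool.Agent.Helper36.AM
open Pool.Agent.Helper7.GZ

noncomputable section

variable {S : Sp} {N : ℕ} {E : ℕ → ℕ} {ι : Type}

/-- the row along the polynomial with the coefficients `a` -/
def rw1 (t u : Fin N) (p : MvPolynomial (Fin N) ℝ) (q δ : ℝ) {k : ℕ} (a : Fin (k + 1) → ℝ) : MvPolynomial (Fin 1) ℝ :=
  MvPolynomial.bind₁ (fun i => if i = t then MvPolynomial.C q + MvPolynomial.C δ * MvPolynomial.X 0 else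
    if i = u then ∑ l : Fin (k + 1), MvPolynomial.C (a l) * (MvPolynomial.C q + MvPolynomial.C δ * MvPolynomial.X 0) ^ (l : ℕ)
      else 0) p

theorem rw1_eval {t u : Fin N} (hut : u ≠ t) {p : MvPolynomial (Fin N) ℝ} (hv : ∀ i ∈ p.vars, i = t ∨ i = u) (q δ : ℝ)
    {k : ℕ} (a : Fin (k + 1) → ℝ) (y : Fin 1 → ℝ) : MvPolynomial.eval y (rw1 t u p q δ a) =
      (fyp t u p (q + δ * y 0)).eval (pv a (q + δ * y 0)) := by
  have e1 : MvPolynomial.eval y (rw1 t u p q δ a) =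
      MvPolynomial.eval (vec t u (q + δ * y 0) (pv a (q + δ * y 0))) p := by
    unfold rw1
    rw [MvPolynomial.eval, MvPolynomial.eval₂Hom_bind₁]
    have e2 : (fun i : Fin N => MvPolynomial.eval₂Hom (RingHom.id ℝ) y (if i = t then MvPolynomial.C q + MvPolynomial.C δ *
        MvPolynomial.X 0 else if i = u then ∑ l : Fin (k + 1), MvPolynomial.C (a l) *
          (MvPolynomial.C q + MvPolynomial.C δ * MvPolynomial.X 0) ^ (l : ℕ) else 0)) =
        vec t u (q + δ * y 0) (pv a (q + δ * y 0)) := by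
      funext i
      unfold vec pv
      split_ifs with h1 h2
      · simp
      · simp
      · simp
    rw [e2]
    rfl
  have h2 := fyp_eval hut hv (vec t u (q + δ * y 0) (pv a (q + δ * y 0)))
  have e3 : vec t u (q + δ * y 0) (pv a (q + δ * y 0)) t = q + δ * y 0 := by
    unfold vec
    rw [if_pos rfl]
  have e4 : vec t u (q + δ * y 0) (pv a (q + δ * y 0)) u = pv a (q + δ * y 0) := by
    unfold vec
    rw [if_neg hut, if_pos rfl]
  rw [e3, e4] at h2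
  rw [e1, h2]

theorem lin_deg (q δ : ℝ) : (MvPolynomial.C q + MvPolynomial.C δ * MvPolynomial.X 0 : MvPolynomial (Fin 1) ℝ).totalDegree ≤ 1 := by
  refine (MvPolynomial.totalDegree_add _ _).trans (max_le ?_ ?_)
  · rw [MvPolynomial.totalDegree_C]
    exact zero_le_one
  · refine (MvPolynomial.totalDegree_mul _ _).trans ?_
    rw [MvPolynomial.totalDegree_C, zero_add]
    exact (MvPolynomial.totalDegree_X _).le

theorem rw1_deg {t u : Fin N} {p : MvPolynomial (Fin N) ℝ} {D : ℕ} (hD : p.totalDegree ≤ D) (q δ : ℝ)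
    {k : ℕ} (a : Fin (k + 1) → ℝ) : (rw1 t u p q δ a).totalDegree ≤ (k + 1) * D := by
  refine (Pool.Agent.Helper84.MT.totalDegree_bind_le p _ (k + 1) fun i => ?_).trans (Nat.mul_le_mul le_rfl hD)
  split_ifs with h1 h2
  · exact (lin_deg q δ).trans (by omega)
  · refine (MvPolynomial.totalDegree_finsetSum _ _).trans (Finset.sup_le fun l _ => ?_)
    refine (MvPolynomial.totalDegree_mul _ _).trans ?_
    rw [MvPolynomial.totalDegree_C, zero_add]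
    refine (MvPolynomial.totalDegree_pow _ _).trans ?_
    calc (l : ℕ) * _ ≤ (l : ℕ) * 1 := Nat.mul_le_mul le_rfl (lin_deg q δ)
      _ ≤ k + 1 := by have := l.isLt; omega
  · rw [MvPolynomial.totalDegree_zero]
    exact Nat.zero_le _

/-- the corner of the cell of level `c` of the coordinate `t` -/
def crq (Q : S.VV N) (t : Fin N) (c : ℝ) (k : ℕ) (ω : (S.F k).Ω) : ℝ := S.dl c k * (⌊Q.v k ω t / S.dl c k⌋ : ℝ)

theorem Gd.mono {t u : Fin N} {p : MvPolynomial (Fin N) ℝ} {D : ℕ} {q δ A A' B B' τ : ℝ} {k : ℕ} {a : Fin (k + 1) → ℝ}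
    (h : Gd t u p D q δ A B τ a) (hA : A ≤ A') (hB : B' ≤ B) : Gd t u p D q δ A' B' τ a := by
  refine ⟨fun s h0 h1 => (h.1 s h0 h1).trans hA, ?_⟩
  obtain ⟨m, h1, h2, s, h3, h4, h5⟩ := h.2
  exact ⟨m, h1, h2, s, h3, h4, hB.trans h5⟩

/-- TYPICALLY THE COEFFICIENTS OF THE FINER LEAF ARE GOOD -/
theorem gd_typ {s : MSys S N E ι} {κ : ℕ} {t u : Fin N} (hut : u ≠ t) (d : Dl κ t u s) (W : ∀ k, Setoid (S.F k).Ω)
    (Z : ZU S) (hZ : Z.l = Lab.ofZ W) (hl : Nul S (fun k => (Z.l k).leak ((s.lf d.i).win Z.c k))) {D : ℕ} {lam : ℝ}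
    (hlam : lam ≤ 1) (p : ∀ k, (S.F k).Ω → MvPolynomial (Fin N) ℝ) (hD : ∀ k ω, (p k ω).totalDegree ≤ D)
    (hv : ∀ k ω, ∀ i ∈ (p k ω).vars, i = t ∨ i = u)
    (hfn : ∀ᶠ k in UF, ∀ ω ω', (S.F k).μ ω ≠ 0 → (S.F k).μ ω' ≠ 0 → (S.F k).Z ω ω' → W k ω ω' → p k ω = p k ω')
    (bd : ∃ K : ℕ → ℝ, S.Sub K ∧ S.Typ fun k ω => |MvPolynomial.eval (s.Q.v k ω) (p k ω)| ≤ K k)
    (lp : ∀ L : ℕ → ℝ, S.Sub L → ∃ K : ℕ → ℝ, S.Sub K ∧ S.Typ fun k ω => ∀ y : Fin N → ℝ,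
      (∀ i, |y i - s.Q.v k ω i| ≤ L k * S.dl 1 k) →
        |MvPolynomial.eval y (p k ω) - MvPolynomial.eval (s.Q.v k ω) (p k ω)| ≤ K k * S.dl Z.u k)
    (der : ∃ K : ℕ → ℝ, S.Sub K ∧ S.Typ fun k ω =>
      1 ≤ K k * (|MvPolynomial.eval (s.Q.v k ω) (MvPolynomial.pderiv u (p k ω))| * S.dl lam k)) :
    ∃ K : ℕ → ℝ, S.Sub K ∧ (∀ᶠ k in UF, 1 ≤ K k) ∧ S.Typ fun k ω =>
      Gd t u (p k ω) D (crq s.Q t Z.c k ω) (S.dl Z.c k) (K k) (1 / K k) (S.dl lam k) (d.a k ω) := by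
  classical
  obtain ⟨l, c, e, h0, hu, h1⟩ := Z
  subst hZ
  obtain ⟨Z, hZe⟩ : ∃ Z : ZU S, Z = ⟨Lab.ofZ W, c, e, h0, hu, h1⟩ := ⟨_, rfl⟩
  -- the polynomials along the leaf
  have hl' : Nul S (fun k => ((Lab.ofZ W) k).leak ((tl s.Q t d.L d.sl.real).win c k)) :=
    Nul_leak hl (d.sl.win c h0 (by linarith))
  have hfull := ZU.zfull ⟨Lab.ofZ W, c, e, h0, hu, h1⟩ (tl s.Q t d.L d.sl.real) hl'
  rw [show (((tl s.Q t d.L d.sl.real).e : ℕ) : ℝ) = 1 from Nat.cast_one] at hfull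
  have hfull' : Tendsto (fun k => h (fc (F := (ZU.sp ⟨Lab.ofZ W, c, e, h0, hu, h1⟩).F k) (Setoid.ker
      (Pool.Agent.Helper63.FRT.celm (S := ZU.sp ⟨Lab.ofZ W, c, e, h0, hu, h1⟩)
        (ZU.fr ⟨Lab.ofZ W, c, e, h0, hu, h1⟩ (s.Q.co t)) (fun _ => (1 : ℝ)) k)))
      (fc (zL ⟨Lab.ofZ W, c, e, h0, hu, h1⟩ s.Q t d.L k)) /
        ((ZU.sp ⟨Lab.ofZ W, c, e, h0, hu, h1⟩).F k).n) UF (𝓝 (∑ _i : Fin 1, (1 : ℝ))) := by
    rw [Finset.sum_const, Finset.card_univ, Fintype.card_fin, one_smul]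
    exact hfull
  obtain ⟨K0, hK0, hK01, hT0⟩ := Pool.Agent.Helper63.FRT.nes_full (S := ZU.sp ⟨Lab.ofZ W, c, e, h0, hu, h1⟩)
    (ZU.fr ⟨Lab.ofZ W, c, e, h0, hu, h1⟩ (s.Q.co t)) (zL ⟨Lab.ofZ W, c, e, h0, hu, h1⟩ s.Q t d.L) (fun _ => 0)
    (fun _ => 1) (fun _ => le_rfl) (fun _ => one_pos) hfull' (D := (κ + 1) * D)
    (fun k ω => rw1 t u (p k ω) (crq s.Q t c k ω) (S.dl c k) (d.a k ω))
    (Eventually.of_forall fun k ω _ => rw1_deg (hD k ω) _ _ _) (by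
      filter_upwards [hfn, d.fa] with k a1 a2
      intro (ω : (S.F k).Ω) (ω' : (S.F k).Ω) b1 b2 b3 b4 b5
      obtain ⟨g1, g2, -⟩ := ZU.hZ ⟨Lab.ofZ W, c, e, h0, hu, h1⟩ k ω ω' b1 b2 b3
      have e1 : p k ω = p k ω' := a1 ω ω' b1 b2 g2 g1
      have e2 : d.a k ω = d.a k ω' := a2 ω ω' b1 b2 g2 b4.1
      have e3 : crq s.Q t c k ω = crq s.Q t c k ω' := by
        have h5 : (s.Q.co t).cellv c k ω = (s.Q.co t).cellv c k ω' := b4.2
        have h6 : ⌊s.Q.v k ω t / S.dl c k⌋ = ⌊s.Q.v k ω' t / S.dl c k⌋ := congrFun h5 0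
        unfold crq
        rw [h6]
      show rw1 t u (p k ω) (crq s.Q t c k ω) (S.dl c k) (d.a k ω) = rw1 t u (p k ω') (crq s.Q t c k ω') (S.dl c k) (d.a k ω')
      rw [e1, e2, e3])
  have hK0' : S.Sub K0 := (ZU.Sub_sp ⟨Lab.ofZ W, c, e, h0, hu, h1⟩).2 hK0
  have hK01' : ∀ᶠ k in UF, 1 ≤ K0 k := hK01
  obtain ⟨Kb, hKb, hTb⟩ := bd
  obtain ⟨Ke, hKe, hTe⟩ := d.eq
  obtain ⟨Kl, hKl, hTl⟩ := lp Ke hKe
  obtain ⟨K1, hK1, hT1⟩ := der
  have hT0' : S.Typ fun k ω => ∀ ρ : ℝ, 1 ≤ ρ → ∀ x : Fin 1 → ℝ,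
      (∀ i, |x i - (s.Q.v k ω t / S.dl c k - ⌊s.Q.v k ω t / S.dl c k⌋)| ≤ ρ * S.dl (e * 0) k) →
        |MvPolynomial.eval x (rw1 t u (p k ω) (crq s.Q t c k ω) (S.dl c k) (d.a k ω))| ≤ K0 k * ρ ^ ((κ + 1) * D) *
          |MvPolynomial.eval (fun _ => (s.Q.v k ω t / S.dl c k - ⌊s.Q.v k ω t / S.dl c k⌋))
            (rw1 t u (p k ω) (crq s.Q t c k ω) (S.dl c k) (d.a k ω))| := by
    refine Typ.mono (S := ZU.sp ⟨Lab.ofZ W, c, e, h0, hu, h1⟩) hT0 (Eventually.of_forall fun k => ?_)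
    intro (ω : (S.F k).Ω) _ hω ρ hρ x hx
    refine (hω ρ hρ x ?_).1
    intro i
    have e5 : (ZU.sp ⟨Lab.ofZ W, c, e, h0, hu, h1⟩).dl 0 k = S.dl (e * 0) k := ZU.sp_dl' ⟨Lab.ofZ W, c, e, h0, hu, h1⟩ 0 k
    rw [e5]
    exact hx i
  refine ⟨fun k => K0 k * (Kb k + Kl k) + (K1 k + 1) * (Ke k + 1) ^ D * ((D : ℝ) + 1) ^ 2 + 1,
    ((hK0'.mul (hKb.add hKl)).add (((hK1.add (S.Sub_const zero_le_one)).mul
      (Sub_pow' (hKe.add (S.Sub_const zero_le_one)) D)).mul (S.Sub_const (by positivity)))).add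
        (S.Sub_const zero_le_one), ?_, ?_⟩
  · filter_upwards [hK01', hKb.1, hKl.1, hK1.1, hKe.1] with k a1 a2 a3 a4 a5
    have b1 : 0 ≤ K0 k * (Kb k + Kl k) := mul_nonneg (by linarith) (by linarith)
    have b2 : 0 ≤ (K1 k + 1) * (Ke k + 1) ^ D * ((D : ℝ) + 1) ^ 2 := by positivity
    linarith
  · refine ((((hT0'.and hTb).and hTe).and hTl).and hT1).mono ?_
    filter_upwards [hK01', hKb.1, hKl.1, hK1.1, hKe.1] with k a1 a2 a3 a4 a5 ω hω hh
    obtain ⟨⟨⟨⟨c1, c2⟩, c3⟩, c4⟩, c5⟩ := hh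
    have hδ := S.dl_pos c k
    have hδ' := hδ.ne'
    obtain ⟨q, hq⟩ : ∃ q : ℝ, q = crq s.Q t c k ω := ⟨_, rfl⟩
    obtain ⟨δ, hδe⟩ : ∃ δ : ℝ, δ = S.dl c k := ⟨_, rfl⟩
    obtain ⟨τ, hτe⟩ : ∃ τ : ℝ, τ = S.dl lam k := ⟨_, rfl⟩
    obtain ⟨sω, hs⟩ : ∃ x : ℝ, x = s.Q.v k ω t / S.dl c k - ⌊s.Q.v k ω t / S.dl c k⌋ := ⟨_, rfl⟩
    have hx : s.Q.v k ω t = q + δ * sω := by
      rw [hq, hs, hδe]
      unfold crq
      field_simp
      ring
    have hs0 : 0 ≤ sω := by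
      rw [hs]
      have := Int.floor_le (s.Q.v k ω t / S.dl c k)
      linarith
    have hs1 : sω ≤ 1 := by
      rw [hs]
      have := Int.lt_floor_add_one (s.Q.v k ω t / S.dl c k)
      linarith
    rw [← hs, ← hq, ← hδe] at c1
    have hpv : pv (d.a k ω) (q + δ * sω) = ∑ l, d.a k ω l * s.Q.v k ω t ^ (l : ℕ) := by
      unfold pv
      rw [hx]
    have hτ0 : 0 < τ := by rw [hτe]; exact S.dl_pos _ _
    have hdτ : S.dl 1 k ≤ τ := by rw [hτe]; exact S.dl_anti hlam k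
    -- the value at the point
    have v1 : |(fyp t u (p k ω) (q + δ * sω)).eval (pv (d.a k ω) (q + δ * sω))| ≤ Kb k + Kl k := by
      set x' : Fin N → ℝ := fun i => if i = u then pv (d.a k ω) (q + δ * sω) else s.Q.v k ω i with hx'
      have e1 : x' t = q + δ * sω := by simp only [hx', if_neg hut.symm, hx]
      have e2 : x' u = pv (d.a k ω) (q + δ * sω) := by simp only [hx', if_true]
      have e3 := fyp_eval hut (hv k ω) x'
      rw [e1, e2] at e3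
      rw [e3]
      have h5 := c4 x' (fun i => by
        by_cases hi : i = u
        · subst hi
          rw [e2, hpv, abs_sub_comm]
          exact c3
        · have e6 : x' i = s.Q.v k ω i := by simp only [hx', if_neg hi]
          rw [e6, sub_self, abs_zero]
          exact mul_nonneg a5 (S.dl_pos _ _).le)
      have h6 : S.dl e k ≤ 1 := by
        rw [← S.dl_zero k]
        exact S.dl_anti hu.le k
      have h7 : Kl k * S.dl e k ≤ Kl k * 1 := mul_le_mul_of_nonneg_left h6 a3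
      have h8 := abs_add_le (MvPolynomial.eval x' (p k ω) - MvPolynomial.eval (s.Q.v k ω) (p k ω))
        (MvPolynomial.eval (s.Q.v k ω) (p k ω))
      rw [sub_add_cancel] at h8
      have h9 : |MvPolynomial.eval x' (p k ω) - MvPolynomial.eval (s.Q.v k ω) (p k ω)| ≤ Kl k * S.dl e k := h5
      linarith
    have hA : ∀ x : ℝ, 0 ≤ x → x ≤ 1 → |(fyp t u (p k ω) (q + δ * x)).eval (pv (d.a k ω) (q + δ * x))| ≤
        K0 k * (Kb k + Kl k) := by
      intro x hx0 hx1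
      have h5 := c1 1 le_rfl (fun _ => x) (fun _ => by
        rw [mul_zero, S.dl_zero, mul_one, abs_le]
        constructor <;> linarith)
      rw [rw1_eval hut (hv k ω), rw1_eval hut (hv k ω), one_pow, mul_one] at h5
      exact h5.trans (mul_le_mul_of_nonneg_left v1 (by linarith))
    have hB : ∃ m, 1 ≤ m ∧ m ≤ D ∧ ∃ x : ℝ, 0 ≤ x ∧ x ≤ 1 ∧
        1 / ((K1 k + 1) * (Ke k + 1) ^ D * ((D : ℝ) + 1) ^ 2) ≤
          |(Gp t u (p k ω) q δ (Pp (d.a k ω) q δ) m).eval x| * τ ^ m := by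
      have h5 := pderiv_taylor (hD k ω) hut (hv k ω) q δ (Pp (d.a k ω) q δ) sω (s.Q.v k ω) hx
      obtain ⟨m, hm1, hm2, hm3⟩ := large_coef (D := D)
        (c := fun m => (Gp t u (p k ω) q δ (Pp (d.a k ω) q δ) m).eval sω)
        (y := s.Q.v k ω u - (Pp (d.a k ω) q δ).eval sω) (R := Ke k + 1) (K := K1 k + 1) hτ0 (by linarith) (by linarith)
        (by
          rw [Pp_eval, hpv]
          calc _ ≤ Ke k * S.dl 1 k := c3
            _ ≤ (Ke k + 1) * τ := mul_le_mul (by linarith) hdτ (S.dl_pos _ _).le (by linarith)) (by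
          rw [← h5]
          have h6 : 0 ≤ |MvPolynomial.eval (s.Q.v k ω) (MvPolynomial.pderiv u (p k ω))| * τ := by positivity
          rw [← hτe] at c5
          nlinarith)
      exact ⟨m, hm1, hm2, sω, hs0, hs1, hm3⟩
    rw [← hq, ← hδe, ← hτe]
    have b1 : 0 ≤ K0 k * (Kb k + Kl k) := mul_nonneg (by linarith) (by linarith)
    have b2 : 0 < (K1 k + 1) * (Ke k + 1) ^ D * ((D : ℝ) + 1) ^ 2 := by positivity
    refine Gd.mono (A := K0 k * (Kb k + Kl k)) (B := 1 / ((K1 k + 1) * (Ke k + 1) ^ D * ((D : ℝ) + 1) ^ 2)) ⟨hA, hB⟩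
      (by linarith) ?_
    apply one_div_le_one_div_of_le b2
    linarith

end

end Pool.Agent.Helper75.CC
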