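import Pool.Agent.Helper10.JET.Near
import Pool.Agent.Helper50.CV.Power

/-! (6.1) of CORNERm, information form: in a corner with one unit direction and without labels and relations there is
no scalar function `Φ (t, R)`, `Φ` a polynomial with coefficients of rate zero which depends on `R`, that is a polynomial
of degree at most `k` in the time along all curves, when `k` is less than the lowest weight `w`. -/

set_option autoImplicit false

namespace Pool.Agent.Helper75.CC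

open Finset Filter Topology Pool.Agent.Helper69.RK Pool.Agent.Helper31.EC Pool.Agent.Helper31.EC.Sp
open Pool.Agent.Helper31.EC.QS Pool.Agent.Helper57.TA Pool.Agent.Helper5.DO Pool.Agent.Helper10.JET

noncomputable section

variable {S : Sp} {ι σ : Type}

/-- values of a polynomial at two points which are equal modulo an ideal -/
theorem eval_sub_mem {R : Type*} [CommRing R] (I : Ideal R) (Φ : MvPolynomial σ R) {x x' : σ → R}
    (h : ∀ j, x j - x' j ∈ I) : MvPolynomial.eval x Φ - MvPolynomial.eval x' Φ ∈ I := by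
  rw [← Ideal.Quotient.eq, ← MvPolynomial.eval₂_id, ← MvPolynomial.eval₂_id]
  have h1 : ∀ y : σ → R, Ideal.Quotient.mk I (MvPolynomial.eval₂ (RingHom.id R) y Φ) =
      MvPolynomial.eval₂ (Ideal.Quotient.mk I) (fun j => Ideal.Quotient.mk I (y j)) Φ := by
    intro y
    rw [MvPolynomial.eval₂_comp_left]
    rfl
  rw [h1, h1]
  congr 1
  funext j
  exact (Ideal.Quotient.eq).2 (h j)

theorem C_mem_PU {A : S.L} {c : QS S} (hc : dg c 1 ≤ A) : Polynomial.C c ∈ PU A := by
  intro m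
  rw [Polynomial.coeff_C]
  split_ifs
  · exact hc
  · rw [dg_of_mem_Id (Id S 1).zero_mem le_rfl le_rfl]
    exact bot_le

theorem X_mem_PU (A : S.L) : (Polynomial.X : Polynomial (QS S)) ∈ PU A := by
  intro m
  rw [Polynomial.coeff_X]
  split_ifs
  · exact (mem_Kn (hr := le_rfl)).1 (Kn S 1 le_rfl A).one_mem
  · exact (mem_Kn (hr := le_rfl)).1 (Kn S 1 le_rfl A).zero_mem

/-- substitution of polynomials of the time -/
theorem subst_mem {A : S.L} {Φ : MvPolynomial σ (QS S)} (hΦ : Φ ∈ PK A) {b : σ → Polynomial (QS S)}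
    (hb : ∀ j, b j ∈ PU A) : MvPolynomial.eval₂ Polynomial.C b Φ ∈ PU A := by
  rw [MvPolynomial.eval₂_eq]
  apply (PU A).sum_mem
  intro m _
  exact (PU A).mul_mem (C_mem_PU (hΦ m)) ((PU A).prod_mem fun j _ => (PU A).pow_mem (hb j) _)

theorem eval_subst (Φ : MvPolynomial σ (QS S)) (b : σ → Polynomial (QS S)) (t : QS S) :
    (MvPolynomial.eval₂ Polynomial.C b Φ).eval t = MvPolynomial.eval (fun j => (b j).eval t) Φ := by
  rw [← Polynomial.coe_evalRingHom, MvPolynomial.eval₂_comp_left, ← MvPolynomial.eval₂_id]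
  congr 1
  ext x
  simp

/-- the box of a polynomial function of the coordinates -/
theorem Bx_eval {β : S.L} {t : QS S} {x : σ → QS S} {ρ : ℝ} (hx : ∀ j, Bx β t (x j) ρ) {Φ : MvPolynomial σ (QS S)}
    (hΦ : Φ ∈ PK β) : Bx β t (MvPolynomial.eval x Φ) ρ := by
  choose b hb hb' using hx
  refine ⟨MvPolynomial.eval₂ Polynomial.C b Φ, subst_mem hΦ hb, ?_⟩
  rw [eval_subst]
  exact eval_sub_mem _ _ hb'

/-- **(6.1)**: no scalar function of degree less than the lowest weight. `x` are the coordinates of the point, `i0` is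
the time. -/
theorem cc_kill [Nonempty ι] {O : S.L} {ξ : ι → S.L} (hL : NL O ξ) {x : σ → QS S} {i0 : σ} (htO : dg (x i0) 1 ≤ O)
    (ht : ∀ i, h (dg (x i0) 1) (ξ i) = 1) {Φ : MvPolynomial σ (QS S)} (hΦ : Φ ∈ PK (⊥ : S.L)) {k : ℕ}
    (P : ι → Polynomial (QS S)) (hP : ∀ i, P i ∈ PU (ξ i)) (hk : ∀ i, (P i).natDegree ≤ k)
    (hy : ∀ i, (P i).eval (x i0) = MvPolynomial.eval x Φ) {w s : ℝ} (hs0 : 0 < s) (hs1 : s < 1)
    (hws : w * s ≤ 1) {β : S.L} (hβO : β ≤ O) (hβ : ∀ i, β ≤ ξ i ⊔ dg (x i0) s)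
    (hB : ∀ j, Bx β (x i0) (x j) (w * s)) {D : ℕ} (hD : Φ.totalDegree ≤ D) (hkD : k ≤ D) {ρ : ℝ} (hρ0 : 0 < ρ)
    (hρ : ρ ≤ (w - k) * s) (hN : NR D x ⊥ ρ) {m : σ →₀ ℕ} {j : σ} (hj : j ≠ i0) (hm : m j ≠ 0)
    (hunit : Φ.coeff m ∉ Id S ρ) : False := by
  classical
  have hk0 : (0 : ℝ) ≤ k := Nat.cast_nonneg k
  have hρ1 : ρ ≤ 1 := by nlinarith
  have hBy : Bx β (x i0) (MvPolynomial.eval x Φ) (w * s) := Bx_eval hB fun m => (hΦ m).trans bot_le
  have hlow : ∀ l : ℕ, l ≤ k → ρ ≤ w * s - l * s := by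
    intro l hl
    have h1 : (l : ℝ) ≤ k := by exact_mod_cast hl
    nlinarith
  have hzero : ∀ i (l : ℕ), k < l → tc (P i) (x i0) l = 0 := by
    intro i l hl
    unfold tc
    rw [Polynomial.hasseDeriv_eq_zero_of_lt_natDegree _ _ ((hk i).trans_lt hl), Polynomial.eval_zero]
  have hF : ∀ i l, dg (tc (P i) (x i0) l) ρ ≤ O := by
    intro i l
    by_cases hl : l ≤ k
    · exact near_known (ht i) htO hs0.le hs1 (hβ i) hβO (hP i) (hy i) hws hBy l (hlow l hl) hρ1
    · rw [hzero i l (not_le.1 hl), dg_of_mem_Id (Id S ρ).zero_mem le_rfl hρ1]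
      exact bot_le
  have hFF : ∀ i i' l, tc (P i) (x i0) l - tc (P i') (x i0) l ∈ Id S ρ := by
    intro i i' l
    by_cases hl : l ≤ k
    · exact near_common (ht i) (ht i') hs0.le hs1 (hβ i) (hβ i') (hP i) (hP i') (hy i) (hy i') hws hBy l (hlow l hl)
    · rw [hzero i l (not_le.1 hl), hzero i' l (not_le.1 hl), sub_zero]
      exact (Id S ρ).zero_mem
  obtain ⟨i⟩ : Nonempty ι := inferInstance
  obtain ⟨c, hc, hc'⟩ := lab_poly hL P hP hρ0.le hρ1 ((QS.dg_mono _ hρ1).trans htO) hF hFF hk i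
  rw [hy i] at hc'
  -- the relation
  set Θ : MvPolynomial σ (QS S) := Φ - ∑ m ∈ Finset.range (k + 1), MvPolynomial.monomial (Finsupp.single i0 m) (c m)
    with hΘ
  have h1 : Θ.totalDegree ≤ D := by
    refine (MvPolynomial.totalDegree_sub _ _).trans (max_le hD ?_)
    refine (MvPolynomial.totalDegree_finsetSum _ _).trans ?_
    apply Finset.sup_le
    intro m hm
    refine (MvPolynomial.totalDegree_monomial_le _ _).trans ?_
    rw [Finsupp.sum_single_index rfl]
    exact (Nat.lt_succ_iff.mp (Finset.mem_range.mp hm)).trans hkD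
  have h2 : Θ ∈ PK (⊥ : S.L) := (PK _).sub_mem hΦ ((PK _).sum_mem fun m _ => monomial_mem _ (hc m))
  have h3 : MvPolynomial.eval x Θ ∈ Id S ρ := by
    rw [hΘ, map_sub, map_sum]
    have h4 : ∀ m, MvPolynomial.eval x (MvPolynomial.monomial (Finsupp.single i0 m) (c m)) = c m * x i0 ^ m := by
      intro m
      rw [MvPolynomial.eval_monomial]
      congr 1
      rw [Finsupp.prod_single_index]
      exact pow_zero _
    rw [Finset.sum_congr rfl fun m _ => h4 m]
    exact hc'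
  have h5 := hN Θ h1 h2 h3 m
  have h6 : Θ.coeff m = Φ.coeff m := by
    rw [hΘ, MvPolynomial.coeff_sub, MvPolynomial.coeff_sum, Finset.sum_eq_zero, sub_zero]
    intro l _
    rw [MvPolynomial.coeff_monomial, if_neg]
    intro h8
    apply hm
    rw [← h8, Finsupp.single_eq_of_ne hj]
  rw [h6] at h5
  exact hunit h5

/-- the derivatives of order at least `k` are small along the curve if the one of order `k` is small at the point -/
theorem tail_small {ξ : S.L} {t : QS S} (ht : h (dg t 1) ξ = 1) {P : Polynomial (QS S)} (hP : P ∈ PU ξ) {k : ℕ} {ρ : ℝ}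
    (hρ : ρ ≤ 1) (h0 : tc P t k ∈ Id S ρ) (l : ℕ) (hl : k ≤ l) : tc P t l ∈ Id S ρ := by
  obtain ⟨m, rfl⟩ := Nat.exists_eq_add_of_le hl
  have h1 : 1 - (0 : ℝ) ≤ h (dg t 1) (ξ ⊔ dg t 0) := by
    have h2 := h_triangle (dg t 1) (dg t 0) ξ
    have h3 : h (dg t 0) ξ ≤ 0 := (h_le_H _ _).trans (H_dg_le t le_rfl)
    rw [ht, sup_comm] at h2
    linarith
  have h2 := hasse_small (Polynomial.hasseDeriv k P) t (PU_hasse hP k) le_rfl one_pos h1 hρ h0 m
  have h3 : Polynomial.hasseDeriv m (Polynomial.hasseDeriv k P) =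
      ((m + k).choose m : Polynomial (QS S)) * Polynomial.hasseDeriv (m + k) P := by
    have h4 := DFunLike.congr_fun (Polynomial.hasseDeriv_comp (R := QS S) m k) P
    rw [LinearMap.comp_apply] at h4
    rw [h4]
    simp
  rw [h3, Polynomial.eval_mul, mul_zero, sub_zero] at h2
  have h5 : ((m + k).choose m : Polynomial (QS S)).eval t = (((m + k).choose m : ℕ) : QS S) := by
    rw [← Polynomial.C_eq_natCast, Polynomial.eval_C]
  rw [h5] at h2
  have h6 := mem_Id_of_unit_mul (Pool.Agent.Helper50.CV.isUnit_nat (S := S) _ (Nat.choose_pos (Nat.le_add_right m k))) h2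
  rw [add_comm k m]
  exact h6

/-- **(6.1), one type.** If the scalar function `Φ` has degree at most `k` in the time along the curves of ONE type, then
the lowest weight is at most `k + 1`. -/
theorem cc_kill1 {O : S.L} {ξ : ι → S.L} (hL : NL O ξ) {x : σ → QS S} {i0 : σ} (htO : dg (x i0) 1 ≤ O)
    (ht : ∀ i, h (dg (x i0) 1) (ξ i) = 1) {Φ : MvPolynomial σ (QS S)} (hΦ : Φ ∈ PK (⊥ : S.L)) {k : ℕ}
    (P : ι → Polynomial (QS S)) (hP : ∀ i, P i ∈ PU (ξ i)) (hy : ∀ i, (P i).eval (x i0) = MvPolynomial.eval x Φ)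
    {w s : ℝ} (hs0 : 0 < s) (hs1 : s < 1) (hws : w * s ≤ 1) {β : S.L} (hβO : β ≤ O)
    (hβ : ∀ i, β ≤ ξ i ⊔ dg (x i0) s) (hB : ∀ j, Bx β (x i0) (x j) (w * s)) {D : ℕ} (hD : Φ.totalDegree ≤ D)
    (hPD : ∀ i, (P i).natDegree ≤ D) {ρ : ℝ} (hρ0 : 0 < ρ) (hρ : ρ ≤ (w - (k + 1)) * s) (hN : NR D x ⊥ ρ) (i₁ : ι)
    (h1 : tc (P i₁) (x i0) (k + 1) ∈ Id S ρ) {m : σ →₀ ℕ} {j : σ} (hj : j ≠ i0) (hm : m j ≠ 0)
    (hunit : Φ.coeff m ∉ Id S ρ) : False := by
  classical
  have hk0 : (0 : ℝ) ≤ k := Nat.cast_nonneg k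
  have hρ1 : ρ ≤ 1 := by nlinarith
  have hBy : Bx β (x i0) (MvPolynomial.eval x Φ) (w * s) := Bx_eval hB fun m => (hΦ m).trans bot_le
  have hlow : ∀ l : ℕ, l ≤ k + 1 → ρ ≤ w * s - l * s := by
    intro l hl
    have h1 : (l : ℝ) ≤ k + 1 := by exact_mod_cast hl
    nlinarith
  have hcom : ∀ i i' l, l ≤ k + 1 → tc (P i) (x i0) l - tc (P i') (x i0) l ∈ Id S ρ := fun i i' l hl =>
    near_common (ht i) (ht i') hs0.le hs1 (hβ i) (hβ i') (hP i) (hP i') (hy i) (hy i') hws hBy l (hlow l hl)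
  have htail : ∀ i l, k + 1 ≤ l → tc (P i) (x i0) l ∈ Id S ρ := by
    intro i l hl
    refine tail_small (ht i) (hP i) hρ1 ?_ l hl
    have h2 := (Id S ρ).add_mem (hcom i i₁ (k + 1) le_rfl) h1
    rwa [sub_add_cancel] at h2
  have hF : ∀ i l, dg (tc (P i) (x i0) l) ρ ≤ O := by
    intro i l
    by_cases hl : l ≤ k + 1
    · exact near_known (ht i) htO hs0.le hs1 (hβ i) hβO (hP i) (hy i) hws hBy l (hlow l hl) hρ1
    · rw [dg_of_mem_Id (htail i l (by omega)) le_rfl hρ1]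
      exact bot_le
  have hFF : ∀ i i' l, tc (P i) (x i0) l - tc (P i') (x i0) l ∈ Id S ρ := by
    intro i i' l
    by_cases hl : l ≤ k + 1
    · exact hcom i i' l hl
    · exact (Id S ρ).sub_mem (htail i l (by omega)) (htail i' l (by omega))
  have : Nonempty ι := ⟨i₁⟩
  obtain ⟨c, hc, hc'⟩ := lab_poly hL P hP hρ0.le hρ1 ((QS.dg_mono _ hρ1).trans htO) hF hFF hPD i₁
  rw [hy i₁] at hc'
  set Θ : MvPolynomial σ (QS S) := Φ - ∑ m ∈ Finset.range (D + 1), MvPolynomial.monomial (Finsupp.single i0 m) (c m)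
    with hΘ
  have h1 : Θ.totalDegree ≤ D := by
    refine (MvPolynomial.totalDegree_sub _ _).trans (max_le hD ?_)
    refine (MvPolynomial.totalDegree_finsetSum _ _).trans ?_
    apply Finset.sup_le
    intro m hm
    refine (MvPolynomial.totalDegree_monomial_le _ _).trans ?_
    rw [Finsupp.sum_single_index rfl]
    exact Nat.lt_succ_iff.mp (Finset.mem_range.mp hm)
  have h2 : Θ ∈ PK (⊥ : S.L) := (PK _).sub_mem hΦ ((PK _).sum_mem fun m _ => monomial_mem _ (hc m))
  have h3 : MvPolynomial.eval x Θ ∈ Id S ρ := by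
    rw [hΘ, map_sub, map_sum]
    have h4 : ∀ m, MvPolynomial.eval x (MvPolynomial.monomial (Finsupp.single i0 m) (c m)) = c m * x i0 ^ m := by
      intro m
      rw [MvPolynomial.eval_monomial]
      congr 1
      rw [Finsupp.prod_single_index]
      exact pow_zero _
    rw [Finset.sum_congr rfl fun m _ => h4 m]
    exact hc'
  have h5 := hN Θ h1 h2 h3 m
  have h6 : Θ.coeff m = Φ.coeff m := by
    rw [hΘ, MvPolynomial.coeff_sub, MvPolynomial.coeff_sum, Finset.sum_eq_zero, sub_zero]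
    intro l _
    rw [MvPolynomial.coeff_monomial, if_neg]
    intro h8
    apply hm
    rw [← h8, Finsupp.single_eq_of_ne hj]
  rw [h6] at h5
  exact hunit h5

end

end Pool.Agent.Helper75.CC
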