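import Pool.Agent.Helper75.CC.Gt

/-! THE BRANCH as a function of the label: the finer label `W ⊓ cells ⊓ idx` knows a polynomial of degree at most `κ` in
`x_t` which is close to `x_u`. -/

set_option autoImplicit false

namespace Pool.Agent.Helper75.CC

open Finset Filter Topology Pool.Agent.Helper69.RK Pool.Agent.Helper31.EC Pool.Agent.Helper31.EC.Sp
open Pool.Agent.Helper40.EL Pool.Agent.Helper89.LX Pool.Agent.Helper3.LF Pool.Agent.Helper84.MT Pool.Agent.Helper36.AM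
open Pool.Agent.Helper7.GZ

noncomputable section

variable {S : Sp} {N : ℕ} {E : ℕ → ℕ} {ι : Type}

open Classical in
/-- THE BRANCH -/
theorem exists_branch {s : MSys S N E ι} {κ : ℕ} {t u : Fin N} (hut : u ≠ t) (d : Dl κ t u s)
    (W : ∀ k, Setoid (S.F k).Ω) (Z : ZU S) (hZ : Z.l = Lab.ofZ W)
    (hl : Nul S (fun k => (Z.l k).leak ((s.lf d.i).win Z.c k))) {D : ℕ} {lam : ℝ}
    (hlam : lam ≤ 1) (p : ∀ k, (S.F k).Ω → MvPolynomial (Fin N) ℝ) (hD : ∀ k ω, (p k ω).totalDegree ≤ D)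
    (hv : ∀ k ω, ∀ i ∈ (p k ω).vars, i = t ∨ i = u)
    (hfn : ∀ᶠ k in UF, ∀ ω ω', (S.F k).μ ω ≠ 0 → (S.F k).μ ω' ≠ 0 → (S.F k).Z ω ω' → W k ω ω' → p k ω = p k ω')
    (bd : ∃ K : ℕ → ℝ, S.Sub K ∧ S.Typ fun k ω => |MvPolynomial.eval (s.Q.v k ω) (p k ω)| ≤ K k)
    (lp : ∀ L : ℕ → ℝ, S.Sub L → ∃ K : ℕ → ℝ, S.Sub K ∧ S.Typ fun k ω => ∀ y : Fin N → ℝ,
      (∀ i, |y i - s.Q.v k ω i| ≤ L k * S.dl 1 k) →
        |MvPolynomial.eval y (p k ω) - MvPolynomial.eval (s.Q.v k ω) (p k ω)| ≤ K k * S.dl Z.u k)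
    (der : ∃ K : ℕ → ℝ, S.Sub K ∧ S.Typ fun k ω =>
      1 ≤ K k * (|MvPolynomial.eval (s.Q.v k ω) (MvPolynomial.pderiv u (p k ω))| * S.dl lam k)) :
    ∃ (idx : ∀ k, (S.F k).Ω → Fin (2 * D + 1)) (b : ∀ k, (S.F k).Ω → Fin (κ + 1) → ℝ),
      (∀ k ω ω', W k ω ω' → (S.F k).Z ω ω' → (s.Q.co t).cellv Z.c k ω = (s.Q.co t).cellv Z.c k ω' →
        s.Q.v k ω = s.Q.v k ω' → idx k ω = idx k ω') ∧
      (∀ k ω ω', W k ω ω' → (S.F k).Z ω ω' → (s.Q.co t).cellv Z.c k ω = (s.Q.co t).cellv Z.c k ω' →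
        idx k ω = idx k ω' → b k ω = b k ω') ∧
      (∃ K : ℕ → ℝ, S.Sub K ∧ ∀ᶠ k in UF, ∀ ω, (S.F k).μ ω ≠ 0 → ∀ l, |b k ω l| ≤ K k) ∧
      ∃ K : ℕ → ℝ, S.Sub K ∧ S.Typ fun k ω => |s.Q.v k ω u - pv (b k ω) (s.Q.v k ω t)| ≤ K k * S.dl lam k := by
  obtain ⟨K, hK, hK1, hT⟩ := gd_typ hut d W Z hZ hl hlam p hD hv hfn bd lp der
  obtain ⟨Ka, hKa, hba⟩ := d.ba
  obtain ⟨Ke, hKe, hTe⟩ := d.eq
  -- the class and the good elements
  set cls : ∀ k, (S.F k).Ω → (S.F k).Ω → Prop := fun k ω ω' => W k ω ω' ∧ (S.F k).Z ω ω' ∧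
    (s.Q.co t).cellv Z.c k ω = (s.Q.co t).cellv Z.c k ω' with hcls
  set gd : ∀ k, (S.F k).Ω → Prop := fun k ω => (S.F k).μ ω ≠ 0 ∧
    Gd t u (p k ω) D (crq s.Q t Z.c k ω) (S.dl Z.c k) (K k) (1 / K k) (S.dl lam k) (d.a k ω) with hgd
  have crq_eq : ∀ k ω ω', (s.Q.co t).cellv Z.c k ω = (s.Q.co t).cellv Z.c k ω' →
      crq s.Q t Z.c k ω = crq s.Q t Z.c k ω' := by
    intro k ω ω' h
    have h6 : ⌊s.Q.v k ω t / S.dl Z.c k⌋ = ⌊s.Q.v k ω' t / S.dl Z.c k⌋ := congrFun h 0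
    unfold crq
    rw [h6]
  have cls_eq : ∀ k ω ω', cls k ω ω' → (fun x => cls k ω x ∧ gd k x) = fun x => cls k ω' x ∧ gd k x := by
    intro k ω ω' h
    funext x
    apply propext
    have h1 : cls k ω x ↔ cls k ω' x := by
      constructor
      · rintro ⟨a1, a2, a3⟩
        exact ⟨(W k).trans ((W k).symm h.1) a1, ((S.F k).Z).trans (((S.F k).Z).symm h.2.1) a2, h.2.2.symm.trans a3⟩
      · rintro ⟨a1, a2, a3⟩
        exact ⟨(W k).trans h.1 a1, ((S.F k).Z).trans h.2.1 a2, h.2.2.trans a3⟩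
    rw [h1]
  obtain ⟨Tc, hTc⟩ : ∃ Tc : ℕ → ℝ, ∀ k, Tc k = CB D κ * (K k / (1 / K k)) * S.dl lam k := ⟨_, fun _ => rfl⟩
  set bb : ∀ k, (S.F k).Ω → Fin (2 * D + 1) → Fin (κ + 1) → ℝ := fun k ω =>
    rps (2 * D + 1) (crq s.Q t Z.c k ω) (S.dl Z.c k) (Tc k) (d.a k) (fun x => cls k ω x ∧ gd k x) with hbb
  have bb_eq : ∀ k ω ω', cls k ω ω' → bb k ω = bb k ω' := by
    intro k ω ω' h
    simp only [hbb]
    rw [cls_eq k ω ω' h, crq_eq k ω ω' h.2.2]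
  obtain ⟨Tt, hTt⟩ : ∃ Tt : ℕ → ℝ, ∀ k, Tt k = (Ke k + CB D κ * (K k * K k)) * S.dl lam k := ⟨_, fun _ => rfl⟩
  set ch : ∀ k, (Fin (2 * D + 1) → Fin (κ + 1) → ℝ) → (Fin N → ℝ) → Fin (2 * D + 1) := fun k B x =>
    if h : ∃ i, |x u - pv (B i) (x t)| ≤ Tt k then h.choose else 0 with hch
  refine ⟨fun k ω => ch k (bb k ω) (s.Q.v k ω), fun k ω => bb k ω (ch k (bb k ω) (s.Q.v k ω)), ?_, ?_, ?_, ?_⟩
  · intro k ω ω' h1 h2 h3 h4
    show ch k (bb k ω) (s.Q.v k ω) = ch k (bb k ω') (s.Q.v k ω')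
    rw [bb_eq k ω ω' ⟨h1, h2, h3⟩, h4]
  · intro k ω ω' h1 h2 h3 h4
    have h5 : ch k (bb k ω) (s.Q.v k ω) = ch k (bb k ω') (s.Q.v k ω') := h4
    show bb k ω (ch k (bb k ω) (s.Q.v k ω)) = bb k ω' (ch k (bb k ω') (s.Q.v k ω'))
    rw [h5, bb_eq k ω ω' ⟨h1, h2, h3⟩]
  · refine ⟨Ka, hKa, ?_⟩
    filter_upwards [hba, hKa.1] with k h1 h0 ω hω l
    rcases rps_or (2 * D + 1) (crq s.Q t Z.c k ω) (S.dl Z.c k) (Tc k) (d.a k) (fun x => cls k ω x ∧ gd k x)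
      (ch k (bb k ω) (s.Q.v k ω)) with h | ⟨x, hx, h⟩
    · have e1 : bb k ω (ch k (bb k ω) (s.Q.v k ω)) = 0 := h
      show |bb k ω (ch k (bb k ω) (s.Q.v k ω)) l| ≤ Ka k
      rw [e1, Pi.zero_apply, abs_zero]
      exact h0
    · have e1 : bb k ω (ch k (bb k ω) (s.Q.v k ω)) = d.a k x := h
      show |bb k ω (ch k (bb k ω) (s.Q.v k ω)) l| ≤ Ka k
      rw [e1]
      exact h1 x hx.2.1 l
  · refine ⟨fun k => Ke k + CB D κ * (K k * K k), hKe.add ((S.Sub_const (by linarith [CB_one D κ])).mul (hK.mul hK)),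
      (hT.and hTe).mono ?_⟩
    filter_upwards [hfn, hK1, hKe.1] with k h1 h2 h3 ω hω hh
    obtain ⟨g1, g2⟩ := hh
    have hKpos : 0 < K k := by linarith
    have hg : gd k ω := ⟨hω, g1⟩
    have hcl : cls k ω ω := ⟨(W k).refl ω, ((S.F k).Z).refl ω, rfl⟩
    obtain ⟨i, hi⟩ := rps_cls (t := t) (u := u) (p := p k ω) (D := D) (hD k ω) (crq s.Q t Z.c k ω) (S.dl Z.c k)
      (A := K k) (B := 1 / K k) (τ := S.dl lam k) (S.dl_pos _ _) (by positivity) (by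
        rw [div_le_iff₀ hKpos]
        nlinarith) (d.a k) (fun x => cls k ω x ∧ gd k x) (fun x hx => by
        have e1 : p k ω = p k x := h1 ω x hω hx.2.1 hx.1.2.1 hx.1.1
        have e2 := crq_eq k ω x hx.1.2.2
        rw [e1, e2]
        exact hx.2.2) (x := ω) ⟨hcl, hg⟩
    rw [← hTc k] at hi
    have hδ := S.dl_pos Z.c k
    have hδ' := hδ.ne'
    have hx : s.Q.v k ω t = crq s.Q t Z.c k ω + S.dl Z.c k * (s.Q.v k ω t / S.dl Z.c k -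
        ⌊s.Q.v k ω t / S.dl Z.c k⌋) := by
      unfold crq
      field_simp
      ring
    have hs0 : 0 ≤ s.Q.v k ω t / S.dl Z.c k - ⌊s.Q.v k ω t / S.dl Z.c k⌋ := by
      have := Int.floor_le (s.Q.v k ω t / S.dl Z.c k)
      linarith
    have hs1 : s.Q.v k ω t / S.dl Z.c k - ⌊s.Q.v k ω t / S.dl Z.c k⌋ ≤ 1 := by
      have := Int.lt_floor_add_one (s.Q.v k ω t / S.dl Z.c k)
      linarith
    have hi2 := hi _ hs0 hs1
    rw [← hx] at hi2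
    have hex : ∃ i, |s.Q.v k ω u - pv (bb k ω i) (s.Q.v k ω t)| ≤ Tt k := by
      refine ⟨i, ?_⟩
      have h4 : |s.Q.v k ω u - pv (d.a k ω) (s.Q.v k ω t)| ≤ Ke k * S.dl lam k :=
        g2.trans (mul_le_mul_of_nonneg_left (S.dl_anti hlam k) h3)
      have h5 := abs_add_le (s.Q.v k ω u - pv (d.a k ω) (s.Q.v k ω t))
        (pv (d.a k ω) (s.Q.v k ω t) - pv (bb k ω i) (s.Q.v k ω t))
      rw [sub_add_sub_cancel] at h5
      have h6 : |pv (d.a k ω) (s.Q.v k ω t) - pv (bb k ω i) (s.Q.v k ω t)| ≤ Tc k := hi2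
      have e3 : K k / (1 / K k) = K k * K k := by
        rw [div_div_eq_mul_div, div_one]
      rw [hTt]
      rw [hTc, e3] at h6
      calc _ ≤ _ := h5
        _ ≤ Ke k * S.dl lam k + CB D κ * (K k * K k) * S.dl lam k := add_le_add h4 h6
        _ = _ := by ring
    have e4 : ch k (bb k ω) (s.Q.v k ω) = hex.choose := by
      simp only [hch]
      rw [dif_pos hex]
    show |s.Q.v k ω u - pv (bb k ω (ch k (bb k ω) (s.Q.v k ω))) (s.Q.v k ω t)| ≤ (Ke k + CB D κ * (K k * K k)) * S.dl lam k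
    rw [e4, ← hTt]
    exact hex.choose_spec

end

end Pool.Agent.Helper75.CC
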