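import Pool.Agent.Helper75.CC.Kill
import Pool.Agent.Helper13.AM.Cor

/-! (6.1) for helper13's corners: in a corner over a line (`d = 0`) with no relation, on which a real polynomial `Φ` has
degree at most `k` in the height along the curves of one type, some weight is at most `k + 1`. -/

set_option autoImplicit false

namespace Pool.Agent.Helper75.CC

open Finset Filter Topology Pool.Agent.Helper69.RK Pool.Agent.Helper31.EC Pool.Agent.Helper31.EC.Sp
open Pool.Agent.Helper31.EC.QS Pool.Agent.Helper57.TA Pool.Agent.Helper5.DO Pool.Agent.Helper10.JET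
open Pool.Agent.Helper13.AM (CD)

noncomputable section

variable {S : Sp} {N r : ℕ}

/-- the curve of type `i` as a family of polynomials in the height -/
def cvp (c : CD S 0 N r) (i : Fin r) : Fin 1 ⊕ Fin N → Polynomial (QS S) :=
  Sum.elim (fun _ => Polynomial.X) fun j => ∑ a : Fin (c.g + 1), Polynomial.C (c.cf i j a) * Polynomial.X ^ (a : ℕ)

theorem cvp_eval {w : Fin N → ℝ} {z : Fin N} {ρ : ℝ} {c : CD S 0 N r} (hA : c.Ax w z ρ) (i : Fin r)
    (j : Fin 1 ⊕ Fin N) : (cvp c i j).eval (c.q 0) = c.pt j := by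
  rcases j with j | j
  · rw [Subsingleton.elim j 0]
    exact Polynomial.eval_X
  · show (∑ a : Fin (c.g + 1), Polynomial.C (c.cf i j a) * Polynomial.X ^ (a : ℕ)).eval (c.q 0) = c.R j
    rw [hA.ln.curve i j, Polynomial.eval_finsetSum]
    apply Finset.sum_congr rfl
    intro a _
    rw [Polynomial.eval_mul, Polynomial.eval_C, Polynomial.eval_pow, Polynomial.eval_X]

theorem cvp_mem (c : CD S 0 N r) (i : Fin r) (j : Fin 1 ⊕ Fin N) : cvp c i j ∈ PU (c.xi i) := by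
  rcases j with j | j
  · exact X_mem_PU _
  · show (∑ a : Fin (c.g + 1), Polynomial.C (c.cf i j a) * Polynomial.X ^ (a : ℕ)) ∈ PU (c.xi i)
    have h1 : ∀ a, dg (c.cf i j a) 1 ≤ c.xi i := by
      intro a
      have h2 : dg (c.cv i (j, a)) 1 ≤ vd (c.cv i) 1 := dg_le_vd (c.cv i) 1 (j, a)
      have h3 : vd (c.cv i) 1 ≤ c.xi i := le_sup_right
      exact h2.trans h3
    exact (PU (c.xi i)).sum_mem fun a _ => (PU (c.xi i)).mul_mem (C_mem_PU (h1 a))
      ((PU (c.xi i)).pow_mem (X_mem_PU _) _)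

/-- the frame as a box -/
theorem cd_box {w : Fin N → ℝ} {z : Fin N} {ρ : ℝ} {c : CD S 0 N r} (hA : c.Ax w z ρ) {w0 : ℝ} (hw0 : ∀ j, w0 ≤ w j)
    {s : ℝ} (hs : 0 ≤ s) (hs1 : w z * s ≤ 1) (j : Fin 1 ⊕ Fin N) : Bx (c.K s) (c.q 0) (c.pt j) (w0 * s) := by
  have hK : ∀ f : QS S, Helper82.TP.Lit (c.VK s) f → dg f 1 ≤ c.K s := fun f hf =>
    hf.dg_le (hA.bx.bdd s) le_rfl
  rcases j with j | j
  · refine ⟨Polynomial.X, X_mem_PU _, ?_⟩
    rw [Polynomial.eval_X, Subsingleton.elim j 0]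
    show c.q 0 - c.q 0 ∈ _
    rw [sub_self]
    exact (Id S _).zero_mem
  · refine ⟨MvPolynomial.eval₂ Polynomial.C (Sum.elim (fun i => Polynomial.X - Polynomial.C (c.q0 s i))
      fun _ => 0) (c.F s j), ?_, ?_⟩
    · apply subst_mem
      · exact fun m => hK _ (hA.bx.litF s j m)
      · rintro (i | i)
        · exact (PU _).sub_mem (X_mem_PU _) (C_mem_PU (hK _ (hA.bx.litq s i)))
        · exact (PU _).zero_mem
    · rw [eval_subst]
      have h1 : c.pt (Sum.inr j) = c.R j := rfl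
      rw [h1, hA.bx.fR s hs hs1 j, add_sub_right_comm]
      have hγ : ∀ l, c.γ s l ∈ Id S (w0 * s) := fun l =>
        Id_mono (mul_le_mul_of_nonneg_right (hw0 l) hs) (hA.bx.fγ s hs hs1 l)
      refine (Id S _).add_mem ?_ (hγ j)
      apply eval_sub_mem
      rintro (i | i)
      · have hi : i = 0 := Subsingleton.elim (α := Fin 1) i 0
        rw [Sum.elim_inl, Sum.elim_inl, Polynomial.eval_sub, Polynomial.eval_X, Polynomial.eval_C, hi, sub_self]
        exact (Id S _).zero_mem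
      · rw [Sum.elim_inr, Sum.elim_inr, Polynomial.eval_zero, sub_zero]
        exact hγ i

/-- **(6.1)** for helper13's corners -/
theorem low_cd {w : Fin N → ℝ} {z : Fin N} {ρ' : ℝ} {c : CD S 0 N r} (hA : c.Ax w z ρ')
    (hN : ∀ (D : ℕ) (κ : ℝ), 0 < κ → κ ≤ 1 → NR D c.pt ⊥ κ) {Φ : MvPolynomial (Fin 1 ⊕ Fin N) (QS S)}
    (hΦ : Φ ∈ PK (⊥ : S.L)) {k : ℕ} (i₁ : Fin r) {P : Polynomial (QS S)} (hP : P ∈ PU (c.xi i₁))
    (hk : P.natDegree ≤ k) (hy : P.eval (c.q 0) = MvPolynomial.eval c.pt Φ) {m : Fin 1 ⊕ Fin N →₀ ℕ} {j : Fin N}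
    (hm : m (Sum.inr j) ≠ 0) (hu : IsUnit (Φ.coeff m)) : ∃ l, w l ≤ k + 1 := by
  classical
  by_contra hcon
  push Not at hcon
  obtain ⟨l, -, hl⟩ := Finset.exists_min_image (Finset.univ : Finset (Fin N)) w ⟨j, mem_univ _⟩
  have hl1 : ∀ i, w l ≤ w i := fun i => hl i (mem_univ i)
  have hwz : 1 < w z := hA.w1 z
  have hz0 : 0 < w z := by linarith
  have hlt : (0 : ℝ) < w l - (k + 1) := by linarith [hcon l]
  obtain ⟨s, hs⟩ : ∃ s : ℝ, s = 1 / (w z) := ⟨_, rfl⟩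
  have hs0 : 0 < s := by rw [hs]; positivity
  have hs1 : s < 1 := by rw [hs, div_lt_one hz0]; exact hwz
  have hws : w z * s = 1 := by rw [hs]; field_simp
  have hwl : w l * s ≤ 1 := by rw [← hws]; exact mul_le_mul_of_nonneg_right (hA.wz l) hs0.le
  have hxi : ∀ i, h (dg (c.q 0) 1) (c.xi i) = 1 := hA.ln.time
  have hK0 : c.K 0 = ⊥ := by
    have h1 := hA.num.hbe 0 le_rfl (by rw [mul_zero]; exact zero_le_one)
    rw [mul_zero] at h1
    rw [eq_bot_iff, ← h_eq_zero_iff, h_bot]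
    exact h1
  have hL : NL c.O c.xi := by
    intro X hX hX'
    rw [eq_bot_iff, ← hK0]
    exact hA.lb.lab 0 le_rfl (by rw [mul_zero]; exact one_pos) X hX fun i => (hX' i).trans le_sup_left
  have htO : dg (c.q 0) 1 ≤ c.O := (dg_le_vd c.q 1 0).trans le_sup_left
  have hβO : c.K s ≤ c.O := by
    refine (hA.bx.pt s hs0.le hws.le).trans ?_
    rw [hws]
    exact le_rfl
  obtain ⟨p, hp⟩ : ∃ p : Fin r → Polynomial (QS S), p = fun i => MvPolynomial.eval₂ Polynomial.C (cvp c i) Φ := ⟨_, rfl⟩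
  have hpm : ∀ i, p i ∈ PU (c.xi i) := by
    intro i
    rw [hp]
    exact subst_mem (fun m => (hΦ m).trans bot_le) (cvp_mem c i)
  have hpe : ∀ i, (p i).eval (c.q 0) = MvPolynomial.eval c.pt Φ := by
    intro i
    rw [hp]
    show (MvPolynomial.eval₂ Polynomial.C (cvp c i) Φ).eval (c.q 0) = _
    rw [eval_subst]
    congr 1
    congr 1
    funext j'
    exact cvp_eval hA i j'
  obtain ⟨D, hD⟩ : ∃ D : ℕ, D = max Φ.totalDegree (univ.sup fun i => (p i).natDegree) := ⟨_, rfl⟩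
  have hpD : ∀ i, (p i).natDegree ≤ D := by
    intro i
    rw [hD]
    exact (Finset.le_sup (f := fun i => (p i).natDegree) (mem_univ i)).trans (le_max_right _ _)
  obtain ⟨κ, hκ⟩ : ∃ κ : ℝ, κ = min ((w l - (k + 1)) * s) 1 := ⟨_, rfl⟩
  have hκ0 : 0 < κ := by rw [hκ]; exact lt_min (mul_pos hlt hs0) one_pos
  have hκ1 : κ ≤ 1 := by rw [hκ]; exact min_le_right _ _
  have htc : tc (p i₁) (c.q 0) (k + 1) ∈ Id S κ := by
    have h1 : (p i₁ - P).eval (c.q 0) ∈ Id S 1 := by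
      rw [Polynomial.eval_sub, hpe, hy, sub_self]
      exact (Id S 1).zero_mem
    have h2 : 1 - (0 : ℝ) ≤ h (dg (c.q 0) 1) (c.xi i₁ ⊔ dg (c.q 0) 0) := by
      have h2 := h_triangle (dg (c.q 0) 1) (dg (c.q 0) 0) (c.xi i₁)
      have h3 : h (dg (c.q 0) 0) (c.xi i₁) ≤ 0 := (h_le_H _ _).trans (H_dg_le _ le_rfl)
      rw [hxi, sup_comm] at h2
      linarith
    have h3 := hasse_small (p i₁ - P) (c.q 0) ((PU _).sub_mem (hpm i₁) hP) le_rfl one_pos h2 le_rfl h1 (k + 1)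
    rw [mul_zero, sub_zero, map_sub, Polynomial.eval_sub,
      Polynomial.hasseDeriv_eq_zero_of_lt_natDegree P _ (by omega), Polynomial.eval_zero, sub_zero] at h3
    exact Id_mono hκ1 h3
  refine cc_kill1 hL (i0 := Sum.inl 0) (x := c.pt) (w := w l) (s := s) (β := c.K s) (D := D) (ρ := κ) (m := m)
    (j := Sum.inr j) htO hxi hΦ p hpm hpe hs0 hs1 hwl hβO ?_ ?_ ?_ hpD hκ0 ?_ (hN D κ hκ0 hκ1) i₁ htc ?_ hm ?_
  · intro i
    exact hA.bx.xi s hs0.le hws.le i
  · intro j'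
    exact cd_box hA hl1 hs0.le hws.le j'
  · rw [hD]
    exact le_max_left _ _
  · rw [hκ]
    exact min_le_left _ _
  · exact Sum.inr_ne_inl
  · exact isUnit_notMem_Id hκ0 hu

end

end Pool.Agent.Helper75.CC
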