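import Pool.Agent.Helper75.CC.Dg
import Pool.Agent.Helper5.BLD.Nrm
import Pool.Agent.Helper63.FRT.Nes

/-! NO HULL: if the hull of the system is full, then polynomials of the point with coefficients known up to rate zero are
typically not small (up to subexponential factors). -/

set_option autoImplicit false

namespace Pool.Agent.Helper75.CC

open Finset Filter Topology Pool.Agent.Helper69.RK Pool.Agent.Helper31.EC Pool.Agent.Helper31.EC.Sp
open Pool.Agent.Helper31.EC.QS
open Pool.Agent.Helper40.EL Pool.Agent.Helper89.LX Pool.Agent.Helper3.LF Pool.Agent.Helper84.MT Pool.Agent.Helper36.AM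
open Pool.Agent.Helper63.FRT (exps mem_exps exps_deg deg_of_support coeff_zero_of_deg eval_exps)
open Pool.Agent.Helper5.HB (cq)

noncomputable section

variable {S T : Sp} {M : ℕ} {E : ℕ → ℕ} {ι κ : Type}

/-- a tame function known to an information of rate zero has no digits -/
theorem dg_rate0 (f : TR T) {W0 : ∀ n, Setoid (T.F n).Ω} (nW : Nul T (fun n => H (fc (W0 n) : FL (T.F n))))
    (hf : ∀ᶠ n in UF, ∀ ω ω', (T.F n).μ ω ≠ 0 → (T.F n).μ ω' ≠ 0 → (T.F n).Z ω ω' → W0 n ω ω' →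
      TR.ev f n ω = TR.ev f n ω') : QS.dg (QS.mk f) 1 ≤ ⊥ := by
  rw [dg_mk _ le_rfl, ← cl_bot]
  have e1 : TR.dg f 1 = cl ((TR.vec fun _ : Fin 1 => f).bdd 1).toInf := io_eq ((TR.vec fun _ : Fin 1 => f).bdd 1)
  rw [e1, ← PLe_rpI]
  have h1 : PLe (S := T) (fun n => fc (Setoid.ker ((TR.vec fun _ : Fin 1 => f).cellv 1 n))) (fun n => fc (W0 n)) := by
    refine PLe_cell (TR.vec fun _ : Fin 1 => f) 1 W0 (fun _ => 0) (T.Sub_const le_rfl) ?_
    filter_upwards [hf] with n hn ω ω' a b z r i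
    have h2 := hn ω ω' a b z r
    show |TR.ev f n ω - TR.ev f n ω'| ≤ _
    rw [h2, sub_self, abs_zero, zero_mul]
  have h2 : PLe (S := T) (fun n => fc (W0 n)) (rpI Inf.bot) := by
    refine nW.of_le (Eventually.of_forall fun _ => h_nonneg _ _) (Eventually.of_forall fun n => ?_)
    exact h_le_H _ _
  exact h1.trans h2

/-- NO HULL: polynomials with coefficients of rate zero are not small at the point -/
theorem nr_low [Finite ι] {s : MSys S M E ι} (hv : ∀ D, (M : ℝ) ≤ s.vol D 0) (p : Pj T S)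
    {W0 : ∀ n, Setoid (T.F n).Ω} (nW : Nul T (fun n => H (fc (W0 n) : FL (T.F n)))) {D : ℕ}
    (f : ∀ n, (T.F n).Ω → MvPolynomial (Fin M) ℝ)
    (deg : ∀ᶠ n in UF, ∀ ω, (T.F n).μ ω ≠ 0 → (f n ω).totalDegree ≤ D)
    (hf : ∀ᶠ n in UF, ∀ ω ω', (T.F n).μ ω ≠ 0 → (T.F n).μ ω' ≠ 0 → (T.F n).Z ω ω' → W0 n ω ω' → f n ω = f n ω')
    (bf : ∃ K : ℕ → ℝ, T.Sub K ∧ ∀ᶠ n in UF, ∀ ω, (T.F n).μ ω ≠ 0 → ∀ m, |(f n ω).coeff m| ≤ K n)
    (nd : ∃ K : ℕ → ℝ, T.Sub K ∧ T.Typ fun n ω => ∃ m, 1 ≤ K n * |(f n ω).coeff m|) :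
    ∃ K : ℕ → ℝ, T.Sub K ∧ T.Typ fun n ω => 1 ≤ K n * |MvPolynomial.eval (s.Q.v n (p.π n ω)) (f n ω)| := by
  classical
  suffices h : ∀ e : ℝ, 0 < e → Sp.Typ (S := T) (fun n ω => 2 ^ ((0 - e) * (T.F n).n) ≤
      |MvPolynomial.eval (s.Q.v n (p.π n ω)) (f n ω)|) by
    obtain ⟨K, hK, _, hT⟩ := typ_sub_ge _ 0 h
    refine ⟨K, hK, hT.mono (Eventually.of_forall fun n ω _ h1 => ?_)⟩
    rw [zero_mul, Real.rpow_zero] at h1
    exact h1
  -- it is enough to take `e ≤ 1`
  suffices h : ∀ e : ℝ, 0 < e → e ≤ 1 → Sp.Typ (S := T) (fun n ω => 2 ^ ((0 - e) * (T.F n).n) ≤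
      |MvPolynomial.eval (s.Q.v n (p.π n ω)) (f n ω)|) by
    intro e he
    refine (h (min e 1) (lt_min he one_pos) (min_le_right _ _)).mono (Eventually.of_forall fun n ω _ h1 => ?_)
    refine le_trans ?_ h1
    apply Real.rpow_le_rpow_of_exponent_le (by norm_num)
    exact mul_le_mul_of_nonneg_right (by linarith [min_le_left e 1]) (T.F n).pos.le
  intro e he he1
  by_contra hno
  obtain ⟨Ev, hEv⟩ : ∃ Ev : ∀ n, (T.F n).Ω → Prop, Ev = fun n ω => ¬ (2 : ℝ) ^ ((0 - e) * (T.F n).n) ≤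
      |MvPolynomial.eval (s.Q.v n (p.π n ω)) (f n ω)| := ⟨_, rfl⟩
  have hE : 0 < ul (T.pr Ev) := by
    rw [hEv]
    exact Pool.Agent.Helper5.HB.pos_of_not_typ hno
  have hNR := Pool.Agent.Helper5.HB.NR_bot_of_vol s.Q (s.exists_can D 0).choose_spec.1 (hv D) p Ev hE he he1
  obtain ⟨Kf, hKf, hbf⟩ := bf
  obtain ⟨Kn, hKn, hnd⟩ := nd
  -- the coefficients
  obtain ⟨c, hc⟩ : ∃ c : (Fin M →₀ ℕ) → TR T, ∀ a n ω, TR.ev (c a) n ω = (f n ω).coeff a :=
    ⟨fun a => ⟨fun n ω => (f n ω).coeff a, Kf, hKf, hbf.mono fun n hn ω hω => hn ω hω a⟩, fun _ _ _ => rfl⟩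
  obtain ⟨P, hP⟩ : ∃ P : MvPolynomial (Fin M) (QS T), P = ∑ a ∈ exps M D, MvPolynomial.monomial a (mk (c a)) := ⟨_, rfl⟩
  have hPc : ∀ a, P.coeff a = if a ∈ exps M D then mk (c a) else 0 := by
    intro a
    rw [hP, MvPolynomial.coeff_sum]
    split_ifs with ha
    · rw [Finset.sum_eq_single a]
      · rw [MvPolynomial.coeff_monomial, if_pos rfl]
      · intro b _ hb
        rw [MvPolynomial.coeff_monomial, if_neg hb]
      · intro h1
        exact absurd ha h1
    · apply Finset.sum_eq_zero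
      intro b hb
      rw [MvPolynomial.coeff_monomial, if_neg]
      intro h1
      rw [h1] at hb
      exact ha hb
  have hdeg : P.totalDegree ≤ D := by
    rw [hP]
    refine MvPolynomial.totalDegree_finsetSum_le fun a ha => ?_
    refine (MvPolynomial.totalDegree_monomial_le _ _).trans ?_
    have h1 := exps_deg ha
    rw [Finsupp.sum_fintype _ _ (fun _ => rfl)]
    exact h1
  have hknown : ∀ a, dg (P.coeff a) 1 ≤ ⊥ := by
    intro a
    rw [hPc]
    split_ifs
    · apply dg_rate0 (c a) nW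
      filter_upwards [hf] with n hn ω ω' h1 h2 h3 h4
      rw [hc, hc, hn ω ω' h1 h2 h3 h4]
    · have h1 : (0 : QS T) ∈ Id T 1 := zero_mem _
      rw [dg_of_mem_Id h1 le_rfl le_rfl]
  -- the value
  obtain ⟨V, hV⟩ : ∃ V : TR T, V = ∑ a ∈ exps M D, c a * ∏ i, (p.tr (TR.cor s.Q i)) ^ a i := ⟨_, rfl⟩
  have hev : MvPolynomial.eval (fun i => p.qs (cq s.Q i)) P = mk V := by
    rw [hP, hV, map_sum, map_sum]
    refine Finset.sum_congr rfl fun a _ => ?_
    rw [MvPolynomial.eval_monomial, map_mul, map_prod, Finsupp.prod_fintype _ _ (fun _ => pow_zero _)]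
    congr 1
  have hVv : ∀ᶠ n in UF, ∀ ω, (T.F n).μ ω ≠ 0 → TR.ev V n ω =
      MvPolynomial.eval (s.Q.v n (p.π n ω)) (f n ω) := by
    filter_upwards [deg] with n hn ω hω
    rw [hV, ← TR.evh_apply, map_sum, eval_exps _ (hn ω hω)]
    refine Finset.sum_congr rfl fun a _ => ?_
    rw [map_mul, map_prod, TR.evh_apply, hc]
    congr 1
  -- no relation on the event
  have h1 := hNR (MvPolynomial.map (QS.rest Ev hE) P)
    ((Pool.Agent.Helper24.PR.deg_map _ P hdeg)) (by
      intro m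
      rw [MvPolynomial.coeff_map, QS.rest_dg]
      rw [← restL_bot Ev hE]
      exact restL_mono Ev hE (hknown m)) (by
    have h2 : MvPolynomial.eval (fun i => QS.rest Ev hE (p.qs (cq s.Q i))) (MvPolynomial.map (QS.rest Ev hE) P) =
        QS.rest Ev hE (MvPolynomial.eval (fun i => p.qs (cq s.Q i)) P) := (MvPolynomial.map_eval (QS.rest Ev hE) _ P).symm
    rw [h2, hev, Pool.Agent.Helper32.BF2.rest_mem_iff]
    intro δ hδ
    refine Typ_true.mono ?_
    filter_upwards [hVv] with n hn ω hω _ h3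
    rw [hn ω hω]
    rw [hEv] at h3
    refine (not_le.mp h3).le.trans ?_
    have h4 : (2 : ℝ) ^ ((0 - e) * (T.F n).n) = T.dl e n := by
      unfold Sp.dl
      congr 1
      ring
    rw [h4, min_eq_left he1]
    exact T.dl_anti (by linarith) n)
  -- all coefficients are small on the event
  have h2 : Sp.Typ (S := T) (fun n ω => ∀ a ∈ exps M D, Ev n ω → |(f n ω).coeff a| ≤ T.dl (e / 2) n) := by
    have key : ∀ A : Finset (Fin M →₀ ℕ), A ⊆ exps M D → Sp.Typ (S := T) (fun n ω => ∀ a ∈ A, Ev n ω →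
        |(f n ω).coeff a| ≤ T.dl (e / 2) n) := by
      intro A
      induction A using Finset.induction_on with
      | empty => exact fun _ => Typ_true.mono (Eventually.of_forall fun n ω _ _ a ha => absurd ha (Finset.notMem_empty a))
      | insert b A hb ih =>
        intro hs
        have i1 := ih fun a ha => hs (Finset.mem_insert_of_mem ha)
        have i2 := h1 b
        rw [MvPolynomial.coeff_map, hPc, if_pos (hs (Finset.mem_insert_self b A)),
          Pool.Agent.Helper32.BF2.rest_mem_iff] at i2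
        have i3 := i2 (e / 2) (by linarith)
        refine (i1.and i3).mono (Eventually.of_forall fun n ω _ h3 a ha hEω => ?_)
        rcases Finset.mem_insert.mp ha with h4 | h4
        · rw [h4]
          have h5 := h3.2 hEω
          rw [hc, min_eq_left he1] at h5
          have h6 : e - e / 2 = e / 2 := by ring
          rw [h6] at h5
          exact h5
        · exact h3.1 a h4 hEω
    exact key _ subset_rfl
  -- contradiction
  have h3 : Sp.Typ (S := T) (fun n ω => ¬ Ev n ω) := by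
    refine (h2.and hnd).mono ?_
    filter_upwards [deg, hKn.eventually_le (show 0 < e / 4 by linarith), hKn.1,
      T.lim.eventually (eventually_ge_atTop (1 : ℝ))] with n hd hK hK0 hn1 ω hω h4 hEω
    obtain ⟨m, hm⟩ := h4.2
    have hme : m ∈ exps M D := by
      by_contra hme
      have : (f n ω).coeff m = 0 := coeff_zero_of_deg (hd ω hω) fun h5 => hme (mem_exps h5)
      rw [this, abs_zero, mul_zero] at hm
      linarith
    have h5 := h4.1 m hme hEω
    have h6 : Kn n * |(f n ω).coeff m| ≤ Kn n * T.dl (e / 2) n := mul_le_mul_of_nonneg_left h5 hK0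
    have h7 : Kn n * T.dl (e / 2) n < 1 := by
      have hd0 := T.dl_pos (e / 2) n
      have h8 : Kn n * T.dl (e / 2) n < 2 ^ (e / 4 * (T.F n).n) * T.dl (e / 2) n :=
        mul_lt_mul_of_pos_right (by linarith) hd0
      have h9 : (2 : ℝ) ^ (e / 4 * (T.F n).n) * T.dl (e / 2) n ≤ 1 := by
        unfold Sp.dl
        rw [← Real.rpow_add (by norm_num)]
        apply Real.rpow_le_one_of_one_le_of_nonpos (by norm_num)
        have := (T.F n).pos
        nlinarith
      linarith
    linarith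
  have h4 : ul (T.pr Ev) = 0 := by
    apply ul_eq
    unfold Sp.Typ at h3
    refine h3.congr fun n => ?_
    unfold Sp.pr FSp.pb
    congr 1
    funext ω
    simp
  linarith

end

end Pool.Agent.Helper75.CC
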