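import Pool.Agent.Helper75.CC.Ro

/-! THE NEW ROWS over the finer label. -/

set_option autoImplicit false

namespace Pool.Agent.Helper75.CC

open Finset Filter Topology Pool.Agent.Helper69.RK Pool.Agent.Helper31.EC Pool.Agent.Helper31.EC.Sp
open Pool.Agent.Helper40.EL Pool.Agent.Helper89.LX Pool.Agent.Helper3.LF Pool.Agent.Helper84.MT Pool.Agent.Helper36.AM
open Pool.Agent.Helper7.GZ

noncomputable section

variable {S : Sp} {N : ℕ} {E : ℕ → ℕ} {ι : Type}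

/-- the polynomials of the new rows -/
def nwp (Q : S.VV N) (t u : Fin N) (c lu : ℝ) {κ : ℕ} (b : ∀ k, (S.F k).Ω → Fin (κ + 1) → ℝ)
    (p : ∀ k, (S.F k).Ω → Fin N → MvPolynomial (Fin N) ℝ) (k : ℕ) (ω : (S.F k).Ω) (j : Fin N) : MvPolynomial (Fin N) ℝ :=
  if j = t then rt t (2 ^ (c * (S.F k).n)) (crq Q t c k ω) else
    if j = u then ru t u (2 ^ (lu * (S.F k).n)) (b k ω) else p k ω j

theorem crq_le (Q : S.VV N) (t : Fin N) {c : ℝ} (hc : 0 ≤ c) (k : ℕ) (ω : (S.F k).Ω) :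
    |crq Q t c k ω| ≤ |Q.v k ω t| + 1 := by
  have hδ := S.dl_pos c k
  have h1 : |Q.v k ω t - crq Q t c k ω| ≤ 1 := by
    unfold crq
    have h2 := Int.floor_le (Q.v k ω t / S.dl c k)
    have h3 := Int.lt_floor_add_one (Q.v k ω t / S.dl c k)
    rw [le_div_iff₀ hδ] at h2
    rw [div_lt_iff₀ hδ] at h3
    have h4 : S.dl c k ≤ 1 := by
      rw [← S.dl_zero k]
      exact S.dl_anti hc k
    rw [abs_le]
    constructor <;> nlinarith
  have h2 := abs_sub (Q.v k ω t) (Q.v k ω t - crq Q t c k ω)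
  rw [sub_sub_cancel] at h2
  linarith

theorem two_dl (S : Sp) (a : ℝ) (k : ℕ) : (2 : ℝ) ^ (a * (S.F k).n) * S.dl a k = 1 := by
  unfold Sp.dl
  rw [← Real.rpow_add (by norm_num), add_neg_cancel, Real.rpow_zero]

theorem two_dl1 (S : Sp) (a : ℝ) (k : ℕ) : (2 : ℝ) ^ (a * (S.F k).n) * S.dl 1 k = S.dl (1 - a) k := by
  unfold Sp.dl
  rw [← Real.rpow_add (by norm_num)]
  congr 1
  ring

/-- the fractional part of the coordinate `t` -/
theorem rt_crq (Q : S.VV N) (t : Fin N) (c : ℝ) (k : ℕ) (ω : (S.F k).Ω) :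
    (2 : ℝ) ^ (c * (S.F k).n) * (Q.v k ω t - crq Q t c k ω) = Q.v k ω t / S.dl c k - ⌊Q.v k ω t / S.dl c k⌋ := by
  have hδ := S.dl_pos c k
  have h1 : (2 : ℝ) ^ (c * (S.F k).n) = 1 / S.dl c k := by
    rw [eq_div_iff hδ.ne']
    exact two_dl S c k
  unfold crq
  rw [h1]
  field_simp

/-- THE NEW ROWS -/
def nrw (Q : S.VV N) {t u : Fin N} {W W' : ∀ k, Setoid (S.F k).Ω} {D : ℕ} {Λ e c lu : ℝ}
    (R : Rows Q (Lab.ofZ W) N D Λ e) (hc : 0 ≤ c) (hce : c + e ≤ 1) (hcΛ : c ≤ Λ) (hlΛ : lu ≤ Λ)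
    (hle : lu + e ≤ 1) (hW : ∀ᶠ k in UF, ∀ ω ω', (S.F k).μ ω ≠ 0 → (S.F k).μ ω' ≠ 0 → (S.F k).Z ω ω' → W' k ω ω' →
      W k ω ω') (hq : ∀ᶠ k in UF, ∀ ω ω', (S.F k).μ ω ≠ 0 → (S.F k).μ ω' ≠ 0 → (S.F k).Z ω ω' → W' k ω ω' →
      crq Q t c k ω = crq Q t c k ω') {κ : ℕ} (b : ∀ k, (S.F k).Ω → Fin (κ + 1) → ℝ)
    (hb : ∀ᶠ k in UF, ∀ ω ω', (S.F k).μ ω ≠ 0 → (S.F k).μ ω' ≠ 0 → (S.F k).Z ω ω' → W' k ω ω' → b k ω = b k ω')
    (hbb : ∃ K : ℕ → ℝ, S.Sub K ∧ ∀ᶠ k in UF, ∀ ω, (S.F k).μ ω ≠ 0 → ∀ l, |b k ω l| ≤ K k)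
    (hbx : ∃ K : ℕ → ℝ, S.Sub K ∧ S.Typ fun k ω => |Q.v k ω u - pv (b k ω) (Q.v k ω t)| ≤ K k * S.dl lu k) :
    Rows Q (Lab.ofZ W') N (max D (max κ 1)) Λ e where
  p := nwp Q t u c lu b R.p
  deg := fun k ω j => by
    unfold nwp
    split_ifs
    · exact (rt_deg _ _ _).trans ((le_max_right κ 1).trans (le_max_right _ _))
    · exact (ru_deg _ _ _ _).trans (le_max_right _ _)
    · exact (R.deg k ω j).trans (le_max_left _ _)
  fn := by
    filter_upwards [hW, hq, hb, R.fn] with k h1 h2 h3 h4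
    intro (ω : (S.F k).Ω) (ω' : (S.F k).Ω) a1 a2 a3 a4
    have e1 := h2 ω ω' a1 a2 a3 a4
    have e2 := h3 ω ω' a1 a2 a3 a4
    have e3 : R.p k ω = R.p k ω' := h4 ω ω' a1 a2 a3 (h1 ω ω' a1 a2 a3 a4)
    show nwp Q t u c lu b R.p k ω = nwp Q t u c lu b R.p k ω'
    funext j
    unfold nwp
    rw [e1, e2, e3]
  cf := by
    obtain ⟨Kc, hKc, h1⟩ := R.cf
    obtain ⟨KQ, hKQ, h2⟩ := Q.bd
    obtain ⟨Kb, hKb, h3⟩ := hbb
    refine ⟨fun k => (1 + (KQ k + 1)) + (1 + (κ + 1) * Kb k) + Kc k, (((S.Sub_const zero_le_one).add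
      (hKQ.add (S.Sub_const zero_le_one))).add ((S.Sub_const zero_le_one).add
        ((S.Sub_const (by positivity)).mul hKb))).add hKc, ?_⟩
    filter_upwards [h1, h2, h3, hKc.1, hKQ.1, hKb.1] with k a1 a2 a3 a4 a5 a6
    intro (ω : (S.F k).Ω) hω j m
    have hn := (S.F k).pos
    have hω' : (S.F k).μ ω ≠ 0 := hω
    have p0 : (0 : ℝ) < 2 ^ (Λ * (S.F k).n) := by positivity
    have p1 : (0 : ℝ) ≤ 1 + (KQ k + 1) := by linarith
    have p2 : (0 : ℝ) ≤ 1 + (κ + 1) * Kb k := by positivity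
    show |(nwp Q t u c lu b R.p k ω j).coeff m| ≤ _
    unfold nwp
    split_ifs with g1 g2
    · refine (rt_coeff t (by positivity) _ m).trans ?_
      have e1 : |crq Q t c k ω| ≤ KQ k + 1 := (crq_le Q t hc k ω).trans (by linarith [a2 ω hω' t])
      have e2 : (2 : ℝ) ^ (c * (S.F k).n) ≤ 2 ^ (Λ * (S.F k).n) :=
        Real.rpow_le_rpow_of_exponent_le (by norm_num) (mul_le_mul_of_nonneg_right hcΛ hn.le)
      calc (1 + |crq Q t c k ω|) * 2 ^ (c * (S.F k).n) ≤ (1 + (KQ k + 1)) * 2 ^ (Λ * (S.F k).n) :=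
            mul_le_mul (by linarith) e2 (by positivity) p1
        _ ≤ _ := mul_le_mul_of_nonneg_right (by linarith) p0.le
    · refine (ru_coeff t u (by positivity) _ (a3 ω hω') m).trans ?_
      have e2 : (2 : ℝ) ^ (lu * (S.F k).n) ≤ 2 ^ (Λ * (S.F k).n) :=
        Real.rpow_le_rpow_of_exponent_le (by norm_num) (mul_le_mul_of_nonneg_right hlΛ hn.le)
      calc (1 + (κ + 1) * Kb k) * 2 ^ (lu * (S.F k).n) ≤ (1 + (κ + 1) * Kb k) * 2 ^ (Λ * (S.F k).n) :=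
            mul_le_mul_of_nonneg_left e2 p2
        _ ≤ _ := mul_le_mul_of_nonneg_right (by linarith) p0.le
    · have e1 := a1 ω hω j m
      exact e1.trans (mul_le_mul_of_nonneg_right (by linarith) p0.le)
  bd := by
    obtain ⟨Kr, hKr, h1⟩ := R.bd
    obtain ⟨Kx, hKx, h2⟩ := hbx
    refine ⟨fun k => 1 + Kx k + Kr k, ((S.Sub_const zero_le_one).add hKx).add hKr, ?_⟩
    have h1' : S.Typ fun k (ω : (S.F k).Ω) => ∀ j, |MvPolynomial.eval (Q.v k ω) (R.p k ω j)| ≤ Kr k := h1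
    have key : S.Typ fun k (ω : (S.F k).Ω) => ∀ j, |MvPolynomial.eval (Q.v k ω) (nwp Q t u c lu b R.p k ω j)| ≤
        1 + Kx k + Kr k := by
      refine (h1'.and h2).mono ?_
      filter_upwards [hKr.1, hKx.1] with k a1 a2 ω hω hh j
      obtain ⟨g1, g2⟩ := hh
      unfold nwp
      split_ifs with f1 f2
      · rw [rt_eval, rt_crq]
        have h3 := Int.floor_le (Q.v k ω t / S.dl c k)
        have h4 := Int.lt_floor_add_one (Q.v k ω t / S.dl c k)
        rw [abs_le]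
        constructor <;> linarith
      · rw [ru_eval, abs_mul, abs_of_pos (by positivity : (0 : ℝ) < 2 ^ (lu * (S.F k).n))]
        calc (2 : ℝ) ^ (lu * (S.F k).n) * |Q.v k ω u - pv (b k ω) (Q.v k ω t)| ≤
              2 ^ (lu * (S.F k).n) * (Kx k * S.dl lu k) := mul_le_mul_of_nonneg_left g2 (by positivity)
          _ = Kx k * (2 ^ (lu * (S.F k).n) * S.dl lu k) := by ring
          _ = Kx k := by rw [two_dl, mul_one]
          _ ≤ _ := by linarith
      · exact (g1 j).trans (by linarith)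
    exact key
  lp := fun L hL => by
    obtain ⟨Kr, hKr, h1⟩ := R.lp L hL
    obtain ⟨KQ, hKQ, h2⟩ := Q.bd
    obtain ⟨Kb, hKb, h3⟩ := hbb
    have h1' : S.Typ fun k (ω : (S.F k).Ω) => ∀ y : Fin N → ℝ, (∀ i, |y i - Q.v k ω i| ≤ L k * S.dl 1 k) → ∀ j,
        |MvPolynomial.eval y (R.p k ω j) - MvPolynomial.eval (Q.v k ω) (R.p k ω j)| ≤ Kr k * S.dl e k := h1
    refine ⟨fun k => L k + (1 + (κ + 1) * (Kb k * (κ * (KQ k + L k + 1) ^ κ))) * L k + Kr k,
      (hL.add (((S.Sub_const zero_le_one).add ((S.Sub_const (by positivity)).mul (hKb.mul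
        ((S.Sub_const (by positivity)).mul (Sub_pow' ((hKQ.add hL).add (S.Sub_const zero_le_one)) κ))))).mul hL)).add hKr, ?_⟩
    have key : S.Typ fun k (ω : (S.F k).Ω) => ∀ y : Fin N → ℝ, (∀ i, |y i - Q.v k ω i| ≤ L k * S.dl 1 k) → ∀ j,
        |MvPolynomial.eval y (nwp Q t u c lu b R.p k ω j) - MvPolynomial.eval (Q.v k ω) (nwp Q t u c lu b R.p k ω j)| ≤
          (L k + (1 + (κ + 1) * (Kb k * (κ * (KQ k + L k + 1) ^ κ))) * L k + Kr k) * S.dl e k := by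
      refine h1'.mono ?_
      filter_upwards [hKr.1, h2, h3, hL.1, hKQ.1, hKb.1] with k a1 a2 a3 a4 a5 a6 ω hω g y hy j
      have hde := S.dl_pos e k
      obtain ⟨Z1, hZ1⟩ : ∃ Z1 : ℝ, Z1 = 1 + (κ + 1) * (Kb k * (κ * (KQ k + L k + 1) ^ κ)) := ⟨_, rfl⟩
      have hZ10 : 0 ≤ Z1 := by rw [hZ1]; positivity
      rw [← hZ1]
      unfold nwp
      split_ifs with f1 f2
      · rw [rt_eval, rt_eval, ← mul_sub, sub_sub_sub_cancel_right, abs_mul,
          abs_of_pos (by positivity : (0 : ℝ) < 2 ^ (c * (S.F k).n))]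
        calc (2 : ℝ) ^ (c * (S.F k).n) * |y t - Q.v k ω t| ≤ 2 ^ (c * (S.F k).n) * (L k * S.dl 1 k) :=
              mul_le_mul_of_nonneg_left (hy t) (by positivity)
          _ = L k * (2 ^ (c * (S.F k).n) * S.dl 1 k) := by ring
          _ = L k * S.dl (1 - c) k := by rw [two_dl1]
          _ ≤ L k * S.dl e k := mul_le_mul_of_nonneg_left (S.dl_anti (by linarith) k) a4
          _ ≤ _ := mul_le_mul_of_nonneg_right (by nlinarith) hde.le
      · rw [ru_eval, ru_eval, ← mul_sub, abs_mul, abs_of_pos (by positivity : (0 : ℝ) < 2 ^ (lu * (S.F k).n))]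
        have e1 : (y u - pv (b k ω) (y t)) - (Q.v k ω u - pv (b k ω) (Q.v k ω t)) =
            (y u - Q.v k ω u) - (pv (b k ω) (y t) - pv (b k ω) (Q.v k ω t)) := by ring
        rw [e1]
        have hR1 : (1 : ℝ) ≤ KQ k + L k + 1 := by linarith
        have hx : |Q.v k ω t| ≤ KQ k + L k + 1 := (a2 ω hω t).trans (by linarith)
        have hyt : |y t| ≤ KQ k + L k + 1 := by
          have h5 := abs_add_le (y t - Q.v k ω t) (Q.v k ω t)
          rw [sub_add_cancel] at h5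
          have h6 := hy t
          have h7 : L k * S.dl 1 k ≤ L k * 1 := mul_le_mul_of_nonneg_left (dl_one_le S k) a4
          linarith [a2 ω hω t]
        have h5 := pv_sub_bd (a3 ω hω) hR1 hx hyt
        have h6 : |(y u - Q.v k ω u) - (pv (b k ω) (y t) - pv (b k ω) (Q.v k ω t))| ≤ Z1 * (L k * S.dl 1 k) := by
          refine (abs_sub _ _).trans ?_
          have h7 : (κ + 1) * (Kb k * (κ * (KQ k + L k + 1) ^ κ)) * |y t - Q.v k ω t| ≤
              (κ + 1) * (Kb k * (κ * (KQ k + L k + 1) ^ κ)) * (L k * S.dl 1 k) :=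
            mul_le_mul_of_nonneg_left (hy t) (by positivity)
          rw [hZ1, add_mul, one_mul]
          exact add_le_add (hy u) (h5.trans h7)
        calc (2 : ℝ) ^ (lu * (S.F k).n) * _ ≤ 2 ^ (lu * (S.F k).n) * (Z1 * (L k * S.dl 1 k)) :=
              mul_le_mul_of_nonneg_left h6 (by positivity)
          _ = Z1 * L k * (2 ^ (lu * (S.F k).n) * S.dl 1 k) := by ring
          _ = Z1 * L k * S.dl (1 - lu) k := by rw [two_dl1]
          _ ≤ Z1 * L k * S.dl e k := mul_le_mul_of_nonneg_left (S.dl_anti (by linarith) k) (mul_nonneg hZ10 a4)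
          _ ≤ _ := mul_le_mul_of_nonneg_right (by linarith) hde.le
      · refine (g y hy j).trans (mul_le_mul_of_nonneg_right ?_ hde.le)
        have := mul_nonneg hZ10 a4
        linarith
    exact key

/-- the point of the new zoom -/
def nwX (Q : S.VV N) (t : Fin N) (Z : ZU S) {D : ℕ} {Λ : ℝ} (R : Rows Q Z.l N D Λ Z.u) : Z.sp.VV N where
  v := fun k ω j => if j = t then (Z.fr (Q.co t)).v k ω 0 else (rQ Z R).v k ω j
  bd := by
    obtain ⟨K1, hK1, h1⟩ := (Z.fr (Q.co t)).bd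
    obtain ⟨K2, hK2, h2⟩ := (rQ Z R).bd
    refine ⟨fun k => K1 k + K2 k, hK1.add hK2, ?_⟩
    filter_upwards [h1, h2, hK1.1, hK2.1] with k a1 a2 a3 a4 ω hω j
    split_ifs
    · exact (a1 ω hω 0).trans (by linarith)
    · exact (a2 ω hω j).trans (by linarith)

end

end Pool.Agent.Helper75.CC
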