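import Pool.Agent.Helper75.CC.Ex

/-! THE TWO NEW ROWS: `a (x_t - q)` and `a (x_u - ∑ b_l x_t ^ l)`. -/

set_option autoImplicit false

namespace Pool.Agent.Helper75.CC

open Finset MvPolynomial

noncomputable section

variable {N : ℕ}

/-- the row of the coordinate `t` -/
def rt (t : Fin N) (a q : ℝ) : MvPolynomial (Fin N) ℝ := C a * (X t - C q)

/-- the row of the coordinate `u` -/
def ru (t u : Fin N) (a : ℝ) {κ : ℕ} (b : Fin (κ + 1) → ℝ) : MvPolynomial (Fin N) ℝ :=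
  C a * (X u - ∑ l, C (b l) * X t ^ (l : ℕ))

theorem rt_deg (t : Fin N) (a q : ℝ) : (rt t a q).totalDegree ≤ 1 := by
  refine (totalDegree_mul _ _).trans ?_
  rw [totalDegree_C, zero_add]
  refine (totalDegree_sub _ _).trans (max_le (totalDegree_X _).le ?_)
  rw [totalDegree_C]
  exact zero_le_one

theorem ru_deg (t u : Fin N) (a : ℝ) {κ : ℕ} (b : Fin (κ + 1) → ℝ) : (ru t u a b).totalDegree ≤ max κ 1 := by
  refine (totalDegree_mul _ _).trans ?_
  rw [totalDegree_C, zero_add]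
  refine (totalDegree_sub _ _).trans (max_le ((totalDegree_X _).le.trans (le_max_right _ _)) ?_)
  refine (totalDegree_finsetSum _ _).trans (Finset.sup_le fun l _ => ?_)
  refine (totalDegree_mul _ _).trans ?_
  rw [totalDegree_C, zero_add]
  refine (totalDegree_pow _ _).trans ?_
  rw [totalDegree_X, mul_one]
  exact (Nat.lt_succ_iff.mp l.isLt).trans (le_max_left _ _)

theorem rt_eval (t : Fin N) (a q : ℝ) (x : Fin N → ℝ) : eval x (rt t a q) = a * (x t - q) := by
  unfold rt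
  rw [map_mul, map_sub, eval_C, eval_X, eval_C]

theorem ru_eval (t u : Fin N) (a : ℝ) {κ : ℕ} (b : Fin (κ + 1) → ℝ) (x : Fin N → ℝ) :
    eval x (ru t u a b) = a * (x u - pv b (x t)) := by
  unfold ru pv
  simp only [map_mul, map_sub, map_sum, map_pow, eval_C, eval_X]

theorem coeff_X_le (i : Fin N) (m : Fin N →₀ ℕ) : |(X i : MvPolynomial (Fin N) ℝ).coeff m| ≤ 1 := by
  classical
  rw [coeff_X]
  split_ifs
  · rw [abs_one]
  · rw [abs_zero]
    exact zero_le_one

theorem coeff_C_le (q : ℝ) (m : Fin N →₀ ℕ) : |(C q : MvPolynomial (Fin N) ℝ).coeff m| ≤ |q| := by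
  classical
  rw [coeff_C]
  split_ifs
  · exact le_rfl
  · rw [abs_zero]
    exact abs_nonneg _

theorem rt_coeff (t : Fin N) {a : ℝ} (ha : 0 ≤ a) (q : ℝ) (m : Fin N →₀ ℕ) : |(rt t a q).coeff m| ≤ (1 + |q|) * a := by
  unfold rt
  rw [coeff_C_mul, abs_mul, abs_of_nonneg ha, mul_comm, coeff_sub]
  apply mul_le_mul_of_nonneg_right _ ha
  exact (abs_sub _ _).trans (add_le_add (coeff_X_le t m) (coeff_C_le q m))

theorem ru_coeff (t u : Fin N) {a : ℝ} (ha : 0 ≤ a) {κ : ℕ} (b : Fin (κ + 1) → ℝ) {K : ℝ} (hb : ∀ l, |b l| ≤ K)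
    (m : Fin N →₀ ℕ) : |(ru t u a b).coeff m| ≤ (1 + (κ + 1) * K) * a := by
  classical
  unfold ru
  rw [coeff_C_mul, abs_mul, abs_of_nonneg ha, mul_comm, coeff_sub, coeff_sum]
  apply mul_le_mul_of_nonneg_right _ ha
  refine (abs_sub _ _).trans (add_le_add (coeff_X_le u m) ((Finset.abs_sum_le_sum_abs _ _).trans ?_))
  have h1 : ∀ l ∈ (Finset.univ : Finset (Fin (κ + 1))), |(C (b l) * X t ^ (l : ℕ) : MvPolynomial (Fin N) ℝ).coeff m| ≤ K := by
    intro l _
    rw [coeff_C_mul, abs_mul, coeff_X_pow]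
    have hK : 0 ≤ K := (abs_nonneg _).trans (hb l)
    split_ifs
    · rw [abs_one, mul_one]
      exact hb l
    · rw [abs_zero, mul_zero]
      exact hK
  have h2 := Finset.sum_le_card_nsmul _ _ _ h1
  rw [Finset.card_univ, Fintype.card_fin, nsmul_eq_mul, Nat.cast_add, Nat.cast_one] at h2
  exact h2

theorem rt_vars (t : Fin N) (a q : ℝ) : ∀ i ∈ (rt t a q).vars, i = t := by
  classical
  intro i hi
  have h1 := vars_mul _ _ hi
  rw [vars_C, Finset.empty_union] at h1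
  have h2 := vars_sub_subset _ h1
  rw [vars_C, Finset.union_empty, vars_X, Finset.mem_singleton] at h2
  exact h2

theorem ru_vars (t u : Fin N) (a : ℝ) {κ : ℕ} (b : Fin (κ + 1) → ℝ) : ∀ i ∈ (ru t u a b).vars, i = t ∨ i = u := by
  classical
  intro i hi
  have h1 := vars_mul _ _ hi
  rw [vars_C, Finset.empty_union] at h1
  have h2 := vars_sub_subset _ h1
  rw [vars_X, Finset.mem_union, Finset.mem_singleton] at h2
  rcases h2 with h2 | h2
  · exact Or.inr h2
  · left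
    have h3 := vars_sum_subset _ _ h2
    rw [Finset.mem_biUnion] at h3
    obtain ⟨l, _, hl⟩ := h3
    have h4 := vars_mul _ _ hl
    rw [vars_C, Finset.empty_union] at h4
    have h5 := vars_pow _ _ h4
    rw [vars_X, Finset.mem_singleton] at h5
    exact h5

theorem rt_pderiv (t : Fin N) (a q : ℝ) : pderiv t (rt t a q) = C a := by
  unfold rt
  rw [pderiv_C_mul, map_sub, pderiv_X_self, pderiv_C, sub_zero, mul_one]

theorem ru_pderiv {t u : Fin N} (hut : u ≠ t) (a : ℝ) {κ : ℕ} (b : Fin (κ + 1) → ℝ) : pderiv u (ru t u a b) = C a := by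
  unfold ru
  have h1 : pderiv u (∑ l, C (b l) * X t ^ (l : ℕ) : MvPolynomial (Fin N) ℝ) = 0 := by
    rw [map_sum]
    apply Finset.sum_eq_zero
    intro l _
    rw [pderiv_C_mul, Derivation.leibniz_pow, pderiv_X_of_ne hut.symm, smul_zero, smul_zero, mul_zero]
  rw [pderiv_C_mul, map_sub, pderiv_X_self, h1, sub_zero, mul_one]

/-- differences of powers -/
theorem pow_sub_bd {x y R : ℝ} (hR : 1 ≤ R) (hx : |x| ≤ R) (hy : |y| ≤ R) (l : ℕ) : |y ^ l - x ^ l| ≤ l * R ^ l * |y - x| := by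
  induction l with
  | zero => simp
  | succ l ih =>
    have e1 : y ^ (l + 1) - x ^ (l + 1) = y ^ l * (y - x) + (y ^ l - x ^ l) * x := by ring
    rw [e1]
    refine (abs_add_le _ _).trans ?_
    rw [abs_mul, abs_mul, abs_pow]
    have hR0 : 0 ≤ R := by linarith
    have h1 : |y| ^ l ≤ R ^ (l + 1) := by
      calc |y| ^ l ≤ R ^ l := pow_le_pow_left₀ (abs_nonneg _) hy l
        _ ≤ R ^ (l + 1) := pow_le_pow_right₀ hR (Nat.le_succ l)
    have h2 : |y ^ l - x ^ l| * |x| ≤ l * R ^ l * |y - x| * R :=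
      mul_le_mul ih hx (abs_nonneg _) (by positivity)
    have h3 : |y| ^ l * |y - x| ≤ R ^ (l + 1) * |y - x| := mul_le_mul_of_nonneg_right h1 (abs_nonneg _)
    rw [Nat.cast_succ]
    calc _ ≤ R ^ (l + 1) * |y - x| + l * R ^ l * |y - x| * R := add_le_add h3 h2
      _ = _ := by rw [pow_succ]; ring

/-- differences of values of polynomials -/
theorem pv_sub_bd {κ : ℕ} {b : Fin (κ + 1) → ℝ} {K x y R : ℝ} (hb : ∀ l, |b l| ≤ K) (hR : 1 ≤ R) (hx : |x| ≤ R)
    (hy : |y| ≤ R) : |pv b y - pv b x| ≤ (κ + 1) * (K * (κ * R ^ κ)) * |y - x| := by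
  unfold pv
  rw [← Finset.sum_sub_distrib]
  refine (Finset.abs_sum_le_sum_abs _ _).trans ?_
  have hK : 0 ≤ K := (abs_nonneg _).trans (hb 0)
  have h1 : ∀ l ∈ (Finset.univ : Finset (Fin (κ + 1))), |b l * y ^ (l : ℕ) - b l * x ^ (l : ℕ)| ≤
      K * (κ * R ^ κ) * |y - x| := by
    intro l _
    have hl : (l : ℕ) ≤ κ := Nat.lt_succ_iff.mp l.isLt
    rw [← mul_sub, abs_mul]
    have h2 := pow_sub_bd hR hx hy (l : ℕ)
    have h3 : ((l : ℕ) : ℝ) * R ^ (l : ℕ) ≤ κ * R ^ κ :=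
      mul_le_mul (by exact_mod_cast hl) (pow_le_pow_right₀ hR hl) (by positivity) (by positivity)
    calc |b l| * |y ^ (l : ℕ) - x ^ (l : ℕ)| ≤ K * (l * R ^ (l : ℕ) * |y - x|) :=
          mul_le_mul (hb l) h2 (abs_nonneg _) hK
      _ ≤ K * (κ * R ^ κ * |y - x|) :=
          mul_le_mul_of_nonneg_left (mul_le_mul_of_nonneg_right h3 (abs_nonneg _)) hK
      _ = _ := by ring
  have h2 := Finset.sum_le_card_nsmul _ _ _ h1
  rw [Finset.card_univ, Fintype.card_fin, nsmul_eq_mul, Nat.cast_add, Nat.cast_one] at h2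
  refine h2.trans (le_of_eq ?_)
  ring

/-- coefficients of the recentred polynomial -/
theorem Pp_coeff {κ : ℕ} (a : Fin (κ + 1) → ℝ) (q δ x : ℝ) :
    ∑ l : Fin (κ + 1), (Pp a q δ).coeff (l : ℕ) * x ^ (l : ℕ) = pv a (q + δ * x) := by
  rw [← Pp_eval, Polynomial.eval_eq_sum_range' (lt_of_le_of_lt (Pp_deg a q δ) (Nat.lt_succ_self κ)) x,
    Finset.sum_range]

theorem pv_sub {κ : ℕ} (a b : Fin (κ + 1) → ℝ) (x : ℝ) : pv (fun l => a l - b l) x = pv a x - pv b x := by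
  unfold pv
  rw [← Finset.sum_sub_distrib]
  apply Finset.sum_congr rfl
  intro l _
  ring

end

end Pool.Agent.Helper75.CC
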