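import Pool.Agent.Helper75.CC.Br
import Pool.Agent.Helper37.DK2.DlF

/-! BRANCHES OF A ROW: a polynomial in two coordinates along polynomials `P` of the first one; representatives of the
polynomials along which it is bounded and has a large derivative. -/

set_option autoImplicit false

namespace Pool.Agent.Helper75.CC

open Finset Polynomial

noncomputable section

variable {N : ℕ} (t u : Fin N) (p : MvPolynomial (Fin N) ℝ)

/-- the point with the coordinates `a`, `b` -/
def vec (a b : ℝ) : Fin N → ℝ := fun i => if i = t then a else if i = u then b else 0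

/-- polynomials in two coordinates -/
theorem ev2 (hut : u ≠ t) (hv : ∀ i ∈ p.vars, i = t ∨ i = u) (x : Fin N → ℝ) :
    MvPolynomial.eval x p = ∑ α ∈ p.support, p.coeff α * x t ^ (α t) * x u ^ (α u) := by
  classical
  rw [MvPolynomial.eval_eq']
  apply Finset.sum_congr rfl
  intro α hα
  rw [mul_assoc, Fintype.prod_eq_mul t u hut.symm]
  rintro i ⟨h1, h2⟩
  have h3 : α i = 0 := by
    by_contra h
    have h4 : i ∈ p.vars := (MvPolynomial.mem_vars_iff_mem_support i).mpr ⟨α, hα, Finsupp.mem_support_iff.mpr h⟩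
    rcases hv i h4 with h5 | h5
    · exact h1 h5
    · exact h2 h5
  rw [h3, pow_zero]

/-- the polynomial in the coordinate `u` -/
def fyp (a : ℝ) : ℝ[X] := ∑ α ∈ p.support, C (p.coeff α * a ^ (α t)) * X ^ (α u)

/-- the Taylor coefficients along `P` -/
def Gp (q δ : ℝ) (P : ℝ[X]) (m : ℕ) : ℝ[X] :=
  ∑ α ∈ p.support, C (p.coeff α * ((α u).choose m : ℝ)) * (C q + C δ * X) ^ (α t) * P ^ (α u - m)

variable {t u p}

theorem exp_le {D : ℕ} (hD : p.totalDegree ≤ D) {α : Fin N →₀ ℕ} (hα : α ∈ p.support) (i : Fin N) : α i ≤ D := by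
  have h1 := MvPolynomial.le_totalDegree hα
  have h2 : α i ≤ α.sum fun _ e => e := by
    by_cases h : i ∈ α.support
    · exact Finset.single_le_sum (f := fun j => α j) (fun _ _ => Nat.zero_le _) h
    · rw [Finsupp.notMem_support_iff.mp h]
      exact Nat.zero_le _
  omega

theorem fyp_deg {D : ℕ} (hD : p.totalDegree ≤ D) (a : ℝ) : (fyp t u p a).natDegree ≤ D := by
  refine natDegree_sum_le_of_forall_le _ _ fun α hα => ?_
  refine (natDegree_C_mul_X_pow_le _ _).trans (exp_le hD hα u)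

theorem fyp_eval (hut : u ≠ t) (hv : ∀ i ∈ p.vars, i = t ∨ i = u) (x : Fin N → ℝ) :
    (fyp t u p (x t)).eval (x u) = MvPolynomial.eval x p := by
  rw [ev2 t u p hut hv, fyp, eval_finsetSum]
  apply Finset.sum_congr rfl
  intro α _
  rw [eval_mul, eval_C, eval_pow, eval_X]

theorem Gp_deg {D k : ℕ} (hD : p.totalDegree ≤ D) (q δ : ℝ) {P : ℝ[X]} (hP : P.natDegree ≤ k) (m : ℕ) :
    (Gp t u p q δ P m).natDegree ≤ D + D * k := by
  refine natDegree_sum_le_of_forall_le _ _ fun α hα => ?_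
  refine natDegree_mul_le.trans ?_
  refine Nat.add_le_add ?_ ?_
  · refine (natDegree_C_mul_le _ _).trans (natDegree_pow_le.trans ?_)
    have h1 : (C q + C δ * X : ℝ[X]).natDegree ≤ 1 := by
      refine (natDegree_add_le _ _).trans (max_le ?_ ?_)
      · rw [natDegree_C]
        exact Nat.zero_le _
      · exact (natDegree_C_mul_le _ _).trans natDegree_X_le
    calc α t * (C q + C δ * X : ℝ[X]).natDegree ≤ α t * 1 := Nat.mul_le_mul le_rfl h1
      _ ≤ D := by rw [mul_one]; exact exp_le hD hα t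
  · refine natDegree_pow_le.trans ?_
    exact Nat.mul_le_mul ((Nat.sub_le _ _).trans (exp_le hD hα u)) hP

/-- TAYLOR EXPANSION along `P` -/
theorem fyp_taylor {D : ℕ} (hD : p.totalDegree ≤ D) (q δ : ℝ) (P : ℝ[X]) (s y : ℝ) :
    (fyp t u p (q + δ * s)).eval (P.eval s + y) = ∑ m ∈ range (D + 1), (Gp t u p q δ P m).eval s * y ^ m := by
  simp only [fyp, Gp, eval_finsetSum, Finset.sum_mul]
  rw [Finset.sum_comm]
  apply Finset.sum_congr rfl
  intro α hα
  have h1 : α u ≤ D := exp_le hD hα u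
  have e0 : (C (p.coeff α * (q + δ * s) ^ (α t)) * X ^ (α u) : ℝ[X]).eval (P.eval s + y) =
      p.coeff α * (q + δ * s) ^ (α t) * (y + P.eval s) ^ (α u) := by
    rw [eval_mul, eval_C, eval_pow, eval_X, add_comm (P.eval s) y]
  rw [e0, add_pow y (P.eval s) (α u), Finset.mul_sum]
  have h2 : range (α u + 1) ⊆ range (D + 1) := Finset.range_subset_range.mpr (by omega)
  rw [← Finset.sum_subset h2]
  · apply Finset.sum_congr rfl
    intro m _
    rw [eval_mul, eval_mul, eval_C, eval_pow, eval_pow, eval_add, eval_mul, eval_C, eval_C, eval_X]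
    ring
  · intro m _ hm
    have h3 : α u < m := by
      rw [Finset.mem_range] at hm
      omega
    rw [eval_mul, eval_mul, eval_C, Nat.choose_eq_zero_of_lt h3, Nat.cast_zero, mul_zero, zero_mul, zero_mul, zero_mul]

/-- the derivative in the coordinate `u` -/
theorem pderiv_taylor {D : ℕ} (hD : p.totalDegree ≤ D) (hut : u ≠ t) (hv : ∀ i ∈ p.vars, i = t ∨ i = u) (q δ : ℝ)
    (P : ℝ[X]) (s : ℝ) (x : Fin N → ℝ) (hx : x t = q + δ * s) :
    MvPolynomial.eval x (MvPolynomial.pderiv u p) =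
      ∑ m ∈ range (D + 1), (Gp t u p q δ P m).eval s * (m * (x u - P.eval s) ^ (m - 1)) := by
  classical
  set y₀ : ℝ := x u - P.eval s with hy
  set φ : ℝ → Fin N → ℝ := fun y i => if i = u then P.eval s + y else x i with hφ
  have hφ' : ∀ i, HasDerivAt (fun y => φ y i) (if i = u then 1 else 0) y₀ := by
    intro i
    by_cases hi : i = u
    · simp only [hφ, hi, if_true]
      exact (hasDerivAt_id y₀).const_add _
    · simp only [hφ, if_neg hi]
      exact hasDerivAt_const _ _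
  have h1 := Pool.Agent.Helper37.DK2.hasDeriv_eval p hφ'
  have e1 : φ y₀ = x := by
    funext i
    by_cases hi : i = u
    · simp only [hφ, hi, if_true, hy]
      ring
    · simp only [hφ, if_neg hi]
  rw [e1] at h1
  have e2 : ∑ i, MvPolynomial.eval x (MvPolynomial.pderiv i p) * (if i = u then (1 : ℝ) else 0) =
      MvPolynomial.eval x (MvPolynomial.pderiv u p) := by
    simp only [mul_ite, mul_one, mul_zero, Finset.sum_ite_eq', Finset.mem_univ, if_true]
  rw [e2] at h1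
  have e3 : (fun y => MvPolynomial.eval (φ y) p) = fun y =>
      ∑ m ∈ range (D + 1), (Gp t u p q δ P m).eval s * y ^ m := by
    funext y
    rw [← fyp_taylor hD q δ P s y, ← fyp_eval hut hv (φ y)]
    have e4 : φ y t = q + δ * s := by
      simp only [hφ, if_neg hut.symm, hx]
    have e5 : φ y u = P.eval s + y := by simp only [hφ, if_true]
    rw [e4, e5]
  rw [e3] at h1
  have h2 : HasDerivAt (fun y : ℝ => ∑ m ∈ range (D + 1), (Gp t u p q δ P m).eval s * y ^ m)
      (∑ m ∈ range (D + 1), (Gp t u p q δ P m).eval s * (m * y₀ ^ (m - 1))) y₀ := by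
    apply HasDerivAt.fun_sum
    intro m _
    exact (hasDerivAt_pow m y₀).const_mul _
  exact h1.unique h2

/-- a large Taylor coefficient -/
theorem large_coef {D : ℕ} {c : ℕ → ℝ} {y τ R K : ℝ} (hτ : 0 < τ) (hR : 1 ≤ R) (hK : 0 < K) (hy : |y| ≤ R * τ)
    (h : 1 ≤ K * (|∑ m ∈ range (D + 1), c m * (m * y ^ (m - 1))| * τ)) :
    ∃ m, 1 ≤ m ∧ m ≤ D ∧ 1 / (K * R ^ D * ((D : ℝ) + 1) ^ 2) ≤ |c m| * τ ^ m := by
  classical
  by_contra hcon
  push Not at hcon
  set V : ℝ := 1 / (K * R ^ D * ((D : ℝ) + 1) ^ 2) with hV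
  have hRD : 1 ≤ R ^ D := one_le_pow₀ hR
  have hV0 : 0 < V := by positivity
  have hterm : ∀ m ∈ range (D + 1), |c m * (m * y ^ (m - 1))| * τ ≤ D * R ^ D * V := by
    intro m hm
    have hmD : m ≤ D := Nat.lt_succ_iff.mp (Finset.mem_range.mp hm)
    rcases Nat.eq_zero_or_pos m with h0 | h0
    · rw [h0, Nat.cast_zero, zero_mul, mul_zero, abs_zero, zero_mul]
      positivity
    · obtain ⟨j, hj⟩ : ∃ j, m = j + 1 := ⟨m - 1, by omega⟩
      subst hj
      have h1 := hcon (j + 1) h0 hmD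
      have h2 : |y| ^ j ≤ R ^ D * τ ^ j := by
        calc |y| ^ j ≤ (R * τ) ^ j := pow_le_pow_left₀ (abs_nonneg _) hy j
          _ = R ^ j * τ ^ j := mul_pow _ _ _
          _ ≤ R ^ D * τ ^ j := mul_le_mul_of_nonneg_right (pow_le_pow_right₀ hR (by omega)) (by positivity)
      have h3 : ((j + 1 : ℕ) : ℝ) ≤ D := by exact_mod_cast hmD
      rw [Nat.add_sub_cancel, abs_mul, abs_mul, abs_pow, abs_of_nonneg (Nat.cast_nonneg (j + 1) : (0 : ℝ) ≤ _)]
      calc |c (j + 1)| * (((j + 1 : ℕ) : ℝ) * |y| ^ j) * τ ≤ |c (j + 1)| * ((D : ℝ) * (R ^ D * τ ^ j)) * τ := by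
            apply mul_le_mul_of_nonneg_right _ hτ.le
            apply mul_le_mul_of_nonneg_left _ (abs_nonneg _)
            exact mul_le_mul h3 h2 (by positivity) (Nat.cast_nonneg _)
        _ = D * R ^ D * (|c (j + 1)| * τ ^ (j + 1)) := by rw [pow_succ]; ring
        _ ≤ D * R ^ D * V := mul_le_mul_of_nonneg_left h1.le (by positivity)
  have h2 : |∑ m ∈ range (D + 1), c m * (m * y ^ (m - 1))| * τ ≤ (D + 1) * (D * R ^ D * V) := by
    calc _ ≤ (∑ m ∈ range (D + 1), |c m * (m * y ^ (m - 1))|) * τ :=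
          mul_le_mul_of_nonneg_right (Finset.abs_sum_le_sum_abs _ _) hτ.le
      _ = ∑ m ∈ range (D + 1), |c m * (m * y ^ (m - 1))| * τ := Finset.sum_mul _ _ _
      _ ≤ ∑ _m ∈ range (D + 1), D * R ^ D * V := Finset.sum_le_sum hterm
      _ = (D + 1) * (D * R ^ D * V) := by
          rw [Finset.sum_const, Finset.card_range, nsmul_eq_mul, Nat.cast_add, Nat.cast_one]
  have h3 : K * (|∑ m ∈ range (D + 1), c m * (m * y ^ (m - 1))| * τ) ≤ K * ((D + 1) * (D * R ^ D * V)) :=
    mul_le_mul_of_nonneg_left h2 hK.le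
  have e1 : K * ((D + 1) * (D * R ^ D * V)) = D / (D + 1) := by
    rw [hV]
    have : (D : ℝ) + 1 ≠ 0 := by positivity
    field_simp
  rw [e1] at h3
  have h4 : (D : ℝ) / (D + 1) < 1 := by
    rw [div_lt_one (by positivity)]
    linarith
  linarith

/-! ### representatives -/

/-- the value of the polynomial with the coefficients `a` -/
def pv {k : ℕ} (a : Fin (k + 1) → ℝ) (x : ℝ) : ℝ := ∑ l, a l * x ^ (l : ℕ)

/-- the polynomial with the coefficients `a`, recentred -/
def Pp {k : ℕ} (a : Fin (k + 1) → ℝ) (q δ : ℝ) : ℝ[X] := ∑ l, C (a l) * (C q + C δ * X) ^ (l : ℕ)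

theorem Pp_eval {k : ℕ} (a : Fin (k + 1) → ℝ) (q δ s : ℝ) : (Pp a q δ).eval s = pv a (q + δ * s) := by
  unfold Pp pv
  rw [eval_finsetSum]
  apply Finset.sum_congr rfl
  intro l _
  rw [eval_mul, eval_C, eval_pow, eval_add, eval_mul, eval_C, eval_C, eval_X]

theorem Pp_deg {k : ℕ} (a : Fin (k + 1) → ℝ) (q δ : ℝ) : (Pp a q δ).natDegree ≤ k := by
  refine natDegree_sum_le_of_forall_le _ _ fun l _ => ?_
  refine (natDegree_C_mul_le _ _).trans (natDegree_pow_le.trans ?_)
  have h1 : (C q + C δ * X : ℝ[X]).natDegree ≤ 1 := by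
    refine (natDegree_add_le _ _).trans (max_le ?_ ?_)
    · rw [natDegree_C]
      exact Nat.zero_le _
    · exact (natDegree_C_mul_le _ _).trans natDegree_X_le
  calc (l : ℕ) * (C q + C δ * X : ℝ[X]).natDegree ≤ (l : ℕ) * 1 := Nat.mul_le_mul le_rfl h1
    _ ≤ k := by rw [mul_one]; exact Nat.lt_succ_iff.mp l.isLt

/-- GOOD elements: the row is bounded along the polynomial, and it has a large Taylor coefficient -/
def Gd (t u : Fin N) (p : MvPolynomial (Fin N) ℝ) (D : ℕ) (q δ A B τ : ℝ) {k : ℕ} (a : Fin (k + 1) → ℝ) : Prop :=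
  (∀ s : ℝ, 0 ≤ s → s ≤ 1 → |(fyp t u p (q + δ * s)).eval (pv a (q + δ * s))| ≤ A) ∧
    ∃ m, 1 ≤ m ∧ m ≤ D ∧ ∃ s : ℝ, 0 ≤ s ∧ s ≤ 1 ∧ B ≤ |(Gp t u p q δ (Pp a q δ) m).eval s| * τ ^ m

/-- the constant of the branches of a row -/
def CB (D k : ℕ) : ℝ := (branches D k (D + D * k)).choose

theorem CB_one (D k : ℕ) : 1 ≤ CB D k := (branches D k (D + D * k)).choose_spec.1

/-- two polynomials of degree at most `k` are close -/
def Cls (q δ T : ℝ) {k : ℕ} (a b : Fin (k + 1) → ℝ) : Prop :=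
  ∀ s : ℝ, 0 ≤ s → s ≤ 1 → |pv a (q + δ * s) - pv b (q + δ * s)| ≤ T

theorem Cls.symm {q δ T : ℝ} {k : ℕ} {a b : Fin (k + 1) → ℝ} (h : Cls q δ T a b) : Cls q δ T b a := by
  intro s h0 h1
  rw [abs_sub_comm]
  exact h s h0 h1

/-- REPRESENTATIVES of the good elements of a finite family -/
theorem reps {α : Type} [Finite α] {D k : ℕ} (hD : p.totalDegree ≤ D) (q δ : ℝ) {A B τ : ℝ} (hτ : 0 < τ) (hB : 0 < B)
    (hBA : B ≤ A) (a : α → Fin (k + 1) → ℝ) (g : α → Prop) (hg : ∀ x, g x → Gd t u p D q δ A B τ (a x)) :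
    ∃ f : Fin (2 * D + 1) → Fin (k + 1) → ℝ, (∀ i, f i = 0 ∨ ∃ x, g x ∧ f i = a x) ∧
      ∀ x, g x → ∃ i, Cls q δ (CB D k * (A / B) * τ) (a x) (f i) := by
  classical
  obtain ⟨s, hs1, hs2, hs3⟩ := exists_reps (2 * D + 1) g
    (fun x y => Cls q δ (CB D k * (A / B) * τ) (a x) (a y)) (fun x _ s _ _ => by
      rw [sub_self, abs_zero]
      have := CB_one D k
      have : 0 ≤ A / B := div_nonneg (hB.le.trans hBA) hB.le
      positivity) (fun f hf => by
      obtain ⟨i, j, hij, hcl⟩ := (branches D k (D + D * k)).choose_spec.2 A B τ hτ hB hBA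
        (fun i => Pp (a (f i)) q δ) (fun s => fyp t u p (q + δ * s)) (fun i m => Gp t u p q δ (Pp (a (f i)) q δ) m)
        (fun i => Pp_deg _ _ _) (fun s => fyp_deg hD _) (fun i m => Gp_deg hD q δ (Pp_deg _ _ _) m)
        (fun i s y => fyp_taylor hD q δ _ s y) (fun i s h0 h1 => by
          rw [Pp_eval]
          exact (hg _ (hf i)).1 s h0 h1) (fun i => (hg _ (hf i)).2)
      refine ⟨i, j, hij, Or.inl fun s h0 h1 => ?_⟩
      have h2 := hcl s h0 h1
      rw [Pp_eval, Pp_eval] at h2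
      exact h2)
  obtain ⟨e, he⟩ : ∃ e : Fin (2 * D + 1) → Option α, (∀ i x, e i = some x → x ∈ s) ∧ ∀ x ∈ s, ∃ i, e i = some x := by
    set w := s.equivFin with hw
    refine ⟨fun i => if h : (i : ℕ) < s.card then some (w.symm ⟨i, h⟩).1 else none, fun i x hx => ?_, fun x hx => ?_⟩
    · by_cases h : (i : ℕ) < s.card
      · simp only [dif_pos h] at hx
        rw [← Option.some.inj hx]
        exact (w.symm ⟨i, h⟩).2
      · simp only [dif_neg h] at hx
        exact absurd hx (by simp)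
    · have h1 := (w ⟨x, hx⟩).2
      refine ⟨⟨w ⟨x, hx⟩, lt_of_lt_of_le h1 hs1⟩, ?_⟩
      simp only [dif_pos h1]
      have : (⟨((w ⟨x, hx⟩ : Fin s.card) : ℕ), h1⟩ : Fin s.card) = w ⟨x, hx⟩ := rfl
      rw [this, Equiv.symm_apply_apply]
  refine ⟨fun i => match e i with | some x => a x | none => 0, fun i => ?_, fun x hx => ?_⟩
  · cases h : e i with
    | none => exact Or.inl (by simp only [h])
    | some x => exact Or.inr ⟨x, hs2 x (he.1 i x h), by simp only [h]⟩
  · obtain ⟨y, hy, hcl⟩ := hs3 x hx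
    obtain ⟨i, hi⟩ := he.2 y hy
    refine ⟨i, ?_⟩
    simp only [hi]
    rcases hcl with h | h
    · exact h
    · exact h.symm

open Classical in
/-- the representatives of a family of elements -/
def rps {α : Type} (n : ℕ) {k : ℕ} (q δ T : ℝ) (a : α → Fin (k + 1) → ℝ) (g : α → Prop) : Fin n → Fin (k + 1) → ℝ :=
  if h : ∃ f : Fin n → Fin (k + 1) → ℝ, (∀ i, f i = 0 ∨ ∃ x, g x ∧ f i = a x) ∧ ∀ x, g x → ∃ i, Cls q δ T (a x) (f i) then
    h.choose else 0

theorem rps_or {α : Type} (n : ℕ) {k : ℕ} (q δ T : ℝ) (a : α → Fin (k + 1) → ℝ) (g : α → Prop) (i : Fin n) :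
    rps n q δ T a g i = 0 ∨ ∃ x, g x ∧ rps n q δ T a g i = a x := by
  unfold rps
  split_ifs with h
  · exact h.choose_spec.1 i
  · exact Or.inl rfl

theorem rps_cls {α : Type} [Finite α] {D k : ℕ} (hD : p.totalDegree ≤ D) (q δ : ℝ) {A B τ : ℝ} (hτ : 0 < τ) (hB : 0 < B)
    (hBA : B ≤ A) (a : α → Fin (k + 1) → ℝ) (g : α → Prop) (hg : ∀ x, g x → Gd t u p D q δ A B τ (a x)) {x : α}
    (hx : g x) : ∃ i, Cls q δ (CB D k * (A / B) * τ) (a x) (rps (2 * D + 1) q δ (CB D k * (A / B) * τ) a g i) := by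
  have h := reps hD q δ hτ hB hBA a g hg
  unfold rps
  rw [dif_pos h]
  exact h.choose_spec.2 x hx

end

end Pool.Agent.Helper75.CC
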