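import Pool.Agent.Helper75.CC.Ta
import Pool.Agent.Helper29.MX.St
import Pool.Agent.Helper84.MT.Row

/-! THE ZOOM OF `CL k` in the coordinates of a flag: over the finer literal label `W ⊓ cells_c (x_t) ⊓ idx` the rows
`2 ^ (c n) (x_t - q)` and `2 ^ (λ n) (x_u - b (x_t))` have the same exponents, and the zoom is in `CL k`. -/

set_option autoImplicit false

namespace Pool.Agent.Helper75.CC

open Finset Filter Topology Pool.Agent.Helper69.RK Pool.Agent.Helper31.EC Pool.Agent.Helper31.EC.Sp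
open Pool.Agent.Helper40.EL Pool.Agent.Helper89.LX Pool.Agent.Helper3.LF Pool.Agent.Helper84.MT Pool.Agent.Helper36.AM
open Pool.Agent.Helper7.GZ
open Pool.Agent.Helper29.MX (Rsl KLb Flg Pt KZ rover Tam)
open Pool.Agent.Helper7.RD (RW)
open Pool.Agent.Helper87.NSL (cndR KnS)

noncomputable section

variable {S : Sp} {N : ℕ} {E : ℕ → ℕ} {ι : Type}

/-- THE ZOOM CLAUSE -/
theorem clrow {s : MSys S N E ι} {κ : ℕ} {t u : Fin N} (ht : t.val = 0) (hu : u.val = 1) (d : Dl κ t u s) (R : Rsl S)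
    (hPt : Pt s R) (z : RW s N) (lam : Fin N → ℝ) (W : Rsl S) (hW : z.Z.l = Lab.ofZ W) (hK : KLb s R z.Z.c z.Z.l)
    (hF : Flg z lam) (h0 : lam t = z.Z.c)
    (hn0 : Nul S (fun k => h (fc (Setoid.ker ((s.Q.co t).cellv z.Z.c k))) (fc (W k)))) :
    ∃ (z' : RW s N) (W' : Rsl S), z'.Z.l = Lab.ofZ W' ∧ (∀ᶠ k in UF, W' k ≤ W k) ∧
      Nul S (fun k => h (fc (W' k)) (fc (W k))) ∧ z'.Z.c = z.Z.c ∧ z'.Z.u = z.Z.u ∧ z'.κ = z.κ ∧ KLb s R z.Z.c z'.Z.l ∧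
        Flg z' lam ∧ Nonempty (Dl κ t u z'.sys) ∧ Pt z'.sys (rover z'.Z.l z'.Z.u z'.Z.hu R) ∧
          z'.D = max z.D (max κ 1) ∧
            ∀ a : ℝ, z.Z.c ≤ a → (∀ j, lam j ≤ a) → Tam z a → Tam z' a := by
  classical
  have hut : u ≠ t := fun h => by rw [h, ht] at hu; exact zero_ne_one hu
  obtain ⟨⟨l, c, e, hc0, he, hce⟩, hcp, dm, D, Λ, Rw, X, hX, κz, hκ1, hek, hκ⟩ := z
  dsimp only at hW h0 hn0
  subst hW
  -- the rows in the space itself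
  have hD : ∀ k (ω : (S.F k).Ω) j, (Rw.p k ω j).totalDegree ≤ D := Rw.deg
  have hfn : ∀ᶠ k in UF, ∀ ω ω' : (S.F k).Ω, (S.F k).μ ω ≠ 0 → (S.F k).μ ω' ≠ 0 → (S.F k).Z ω ω' → W k ω ω' →
      Rw.p k ω = Rw.p k ω' := Rw.fn
  have hbd : ∃ K : ℕ → ℝ, S.Sub K ∧ S.Typ fun k (ω : (S.F k).Ω) => ∀ j,
      |MvPolynomial.eval (s.Q.v k ω) (Rw.p k ω j)| ≤ K k := Rw.bd
  have hlp : ∀ L : ℕ → ℝ, S.Sub L → ∃ K : ℕ → ℝ, S.Sub K ∧ S.Typ fun k (ω : (S.F k).Ω) => ∀ y : Fin N → ℝ,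
      (∀ i, |y i - s.Q.v k ω i| ≤ L k * S.dl 1 k) → ∀ j,
        |MvPolynomial.eval y (Rw.p k ω j) - MvPolynomial.eval (s.Q.v k ω) (Rw.p k ω j)| ≤ K k * S.dl e k := Rw.lp
  have hcf : ∃ K : ℕ → ℝ, S.Sub K ∧ ∀ᶠ k in UF, ∀ ω : (S.F k).Ω, (S.F k).μ ω ≠ 0 → ∀ j a,
      |(Rw.p k ω j).coeff a| ≤ K k * 2 ^ (Λ * (S.F k).n) := Rw.cf
  have htri : ∀ k (ω : (S.F k).Ω) j, ∀ i ∈ (Rw.p k ω j).vars, i ≤ j := hF.tri
  have hex : ∀ ε : ℝ, 0 < ε → S.Typ fun k (ω : (S.F k).Ω) => ∀ j, 2 ^ ((lam j - ε) * (S.F k).n) ≤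
      |MvPolynomial.eval (s.Q.v k ω) (MvPolynomial.pderiv j (Rw.p k ω j))| ∧
      |MvPolynomial.eval (s.Q.v k ω) (MvPolynomial.pderiv j (Rw.p k ω j))| ≤ 2 ^ ((lam j + ε) * (S.F k).n) := hF.ex
  have hvu : ∀ k (ω : (S.F k).Ω), ∀ i ∈ (Rw.p k ω u).vars, i = t ∨ i = u := by
    intro k ω i hi
    have h1 := Fin.le_def.mp (htri k ω u i hi)
    rw [hu] at h1
    rcases Nat.lt_or_ge i.val 1 with h2 | h2
    · left
      apply Fin.ext
      rw [ht]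
      omega
    · right
      apply Fin.ext
      rw [hu]
      omega
  -- the exponents
  have hΛ : ∀ j, lam j ≤ Λ := by
    intro j
    obtain ⟨Kc, hKc, hc1⟩ := hcf
    obtain ⟨K, hK', h1⟩ := grad_cf s.Q (fun k ω => Rw.p k ω j) (fun k ω => hD k ω j)
      ⟨Kc, hKc, hc1.mono fun k hk ω hω a => hk ω hω j a⟩ j
    apply exp_cmp hK'
    intro ε hε
    filter_upwards [typ_point (hex ε hε), h1] with k hk h2
    obtain ⟨ω, hω, g⟩ := hk
    exact (g j).1.trans (h2 ω hω)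
  have hlu : lam u + e ≤ 1 := by
    obtain ⟨B, hB1, hB⟩ := grad_lp (N := N) (D := D)
    obtain ⟨K, hKs, h1⟩ := hlp (fun _ => 1) (S.Sub_const zero_le_one)
    have h2 : lam u ≤ 1 - e := by
      apply exp_cmp ((S.Sub_const (by linarith : (0 : ℝ) ≤ B)).mul hKs)
      intro ε hε
      filter_upwards [typ_point ((hex ε hε).and h1)] with k hk
      obtain ⟨ω, hω, g1, g2⟩ := hk
      have h3 := hB hut (hD k ω u) (hvu k ω) (s.Q.v k ω) (S.dl_pos 1 k) (V := K k * S.dl e k) (fun y hy =>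
        g2 y (fun i => by rw [one_mul]; exact hy i) u)
      have h4 : (2 : ℝ) ^ (1 * (S.F k).n) * S.dl 1 k = 1 := two_dl S 1 k
      have h5 : (2 : ℝ) ^ (1 * (S.F k).n) * S.dl e k = 2 ^ ((1 - e) * (S.F k).n) := by
        unfold Sp.dl
        rw [← Real.rpow_add (by norm_num)]
        congr 1
        ring
      have h6 : (0 : ℝ) < 2 ^ (1 * (S.F k).n) := by positivity
      calc (2 : ℝ) ^ ((lam u - ε) * (S.F k).n) ≤ |MvPolynomial.eval (s.Q.v k ω) (MvPolynomial.pderiv u (Rw.p k ω u))| :=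
            (g1 u).1
        _ = |MvPolynomial.eval (s.Q.v k ω) (MvPolynomial.pderiv u (Rw.p k ω u))| * S.dl 1 k * 2 ^ (1 * (S.F k).n) := by
            rw [mul_assoc, mul_comm (S.dl 1 k), h4, mul_one]
        _ ≤ B * (K k * S.dl e k) * 2 ^ (1 * (S.F k).n) := mul_le_mul_of_nonneg_right h3 h6.le
        _ = B * K k * (2 ^ (1 * (S.F k).n) * S.dl e k) := by ring
        _ = B * K k * 2 ^ ((1 - e) * (S.F k).n) := by rw [h5]
    linarith
  have hder : ∀ j, ∃ K : ℕ → ℝ, S.Sub K ∧ S.Typ fun k (ω : (S.F k).Ω) =>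
      1 ≤ K k * (|MvPolynomial.eval (s.Q.v k ω) (MvPolynomial.pderiv j (Rw.p k ω j))| * S.dl (lam j) k) := by
    intro j
    obtain ⟨K, hKs, _, hT⟩ := typ_sub_ge (S := S)
      (fun k (ω : (S.F k).Ω) => |MvPolynomial.eval (s.Q.v k ω) (MvPolynomial.pderiv j (Rw.p k ω j))|) (lam j)
      (fun ε hε => (hex ε hε).mono (Eventually.of_forall fun k ω _ g => (g j).1))
    refine ⟨K, hKs, hT.mono (Eventually.of_forall fun k ω _ g => ?_)⟩
    have h1 := mul_le_mul_of_nonneg_right g (S.dl_pos (lam j) k).le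
    rw [two_dl] at h1
    linarith
  -- the branch
  obtain ⟨Kb0, hKb0, hbd0⟩ := hbd
  obtain ⟨idx, b, hidx, hb, hbb, hbx⟩ := exists_branch hut d W ⟨Lab.ofZ W, c, e, hc0, he, hce⟩ rfl (dm d.i) (D := D)
    (lam := lam u) (by linarith) (fun k ω => Rw.p k ω u) (fun k ω => hD k ω u) hvu
    (hfn.mono fun k hk ω ω' a1 a2 a3 a4 => congrFun (hk ω ω' a1 a2 a3 a4) u)
    ⟨Kb0, hKb0, hbd0.mono (Eventually.of_forall fun k ω _ g => g u)⟩
    (fun L hL => by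
      obtain ⟨K, hKs, h1⟩ := hlp L hL
      exact ⟨K, hKs, h1.mono (Eventually.of_forall fun k ω _ g y hy => g y hy u)⟩) (hder u)
  dsimp only at hidx hb
  -- the label
  set W' : Rsl S := fun k => W k ⊓ Setoid.ker ((s.Q.co t).cellv c k) ⊓ Setoid.ker (idx k) with hW'
  have crq_eq : ∀ k (ω ω' : (S.F k).Ω), (s.Q.co t).cellv c k ω = (s.Q.co t).cellv c k ω' →
      crq s.Q t c k ω = crq s.Q t c k ω' := by
    intro k ω ω' h
    have h6 : ⌊s.Q.v k ω t / S.dl c k⌋ = ⌊s.Q.v k ω' t / S.dl c k⌋ := congrFun h 0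
    unfold crq
    rw [h6]
  have hle : ∀ k, W' k ≤ W k := fun k => inf_le_left.trans inf_le_left
  have hnW : PLe (S := S) (fun k => fc (W' k)) (fun k => fc (W k)) := by
    refine PLe_inf (PLe_inf (PLe.refl _) hn0) ?_
    exact nul_fin (l := fun k => FLab.triv (S.F k)) idx (fun k => fc (W k))
  have hW_fn : ∀ᶠ k in UF, ∀ ω ω' : (S.F k).Ω, (S.F k).μ ω ≠ 0 → (S.F k).μ ω' ≠ 0 → (S.F k).Z ω ω' → W' k ω ω' →
      W k ω ω' := Eventually.of_forall fun k ω ω' _ _ _ r => r.1.1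
  have hq_fn : ∀ᶠ k in UF, ∀ ω ω' : (S.F k).Ω, (S.F k).μ ω ≠ 0 → (S.F k).μ ω' ≠ 0 → (S.F k).Z ω ω' → W' k ω ω' →
      crq s.Q t c k ω = crq s.Q t c k ω' := Eventually.of_forall fun k ω ω' _ _ _ r => crq_eq k ω ω' r.1.2
  have hb_fn : ∀ᶠ k in UF, ∀ ω ω' : (S.F k).Ω, (S.F k).μ ω ≠ 0 → (S.F k).μ ω' ≠ 0 → (S.F k).Z ω ω' → W' k ω ω' →
      b k ω = b k ω' := Eventually.of_forall fun k ω ω' _ _ g r => hb k ω ω' r.1.1 g r.1.2 r.2
  have hcΛ : c ≤ Λ := by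
    have := hΛ t
    rw [h0] at this
    exact this
  have hKdm : ∀ i, PLe (fun k => fc (W k)) (cndR s R c i) := (Lab.ofZ_DMf W).mp hK.1
  have hKdm' : ∀ i, PLe (fun k => fc (W' k)) (cndR s R c i) := fun i => hnW.trans (hKdm i)
  have dm' : ∀ i, Nul S (fun k => ((Lab.ofZ W') k).leak ((s.lf i).win c k)) := by
    intro i
    have h1 := (Lab.ofZ_DMf W').mpr hKdm' (some i)
    exact h1
  -- the rows
  set R' : Rows s.Q (Lab.ofZ W') N (max D (max κ 1)) Λ e := nrw s.Q (W' := W') (c := c) (lu := lam u) Rw hc0 hce hcΛ (hΛ u)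
    hlu hW_fn hq_fn b hb_fn hbb hbx with hR'
  have hRp : ∀ k (ω : (S.F k).Ω) j, R'.p k ω j = nwp s.Q t u c (lam u) b Rw.p k ω j := fun _ _ _ => rfl
  obtain ⟨Z', hZ'⟩ : ∃ Z' : ZU S, Z' = ⟨Lab.ofZ W', c, e, hc0, he, hce⟩ := ⟨_, rfl⟩
  set X' : (ZU.sp ⟨Lab.ofZ W', c, e, hc0, he, hce⟩).VV N := nwX s.Q t ⟨Lab.ofZ W', c, e, hc0, he, hce⟩ R' with hX'
  have hXt : ∀ k (ω : (S.F k).Ω), X'.v k ω t = s.Q.v k ω t / S.dl c k - ⌊s.Q.v k ω t / S.dl c k⌋ := by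
    intro k ω
    show (if t = t then (ZU.fr ⟨Lab.ofZ W', c, e, hc0, he, hce⟩ (s.Q.co t)).v k ω 0 else _) = _
    rw [if_pos rfl]
    rfl
  have hXj : ∀ k (ω : (S.F k).Ω) j, j ≠ t → X'.v k ω j = (rQ ⟨Lab.ofZ W', c, e, hc0, he, hce⟩ R').v k ω j := by
    intro k ω j hj
    show (if j = t then (ZU.fr ⟨Lab.ofZ W', c, e, hc0, he, hce⟩ (s.Q.co t)).v k ω 0 else _) = _
    rw [if_neg hj]
  have hval : ∀ k (ω : (S.F k).Ω) j, Rows.val ⟨Lab.ofZ W', c, e, hc0, he, hce⟩ R' k ω j =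
      MvPolynomial.eval (s.Q.v k ω) (nwp s.Q t u c (lam u) b Rw.p k ω j) := fun _ _ _ => rfl
  have hXtyp : Typ (S := ZU.sp ⟨Lab.ofZ W', c, e, hc0, he, hce⟩) (fun k (ω : (S.F k).Ω) => ∀ j,
      X'.v k ω j = Rows.val ⟨Lab.ofZ W', c, e, hc0, he, hce⟩ R' k ω j) := by
    refine (rQ_typ ⟨Lab.ofZ W', c, e, hc0, he, hce⟩ R').mono (Eventually.of_forall fun k => ?_)
    intro (ω : (S.F k).Ω) _ g j
    by_cases hj : j = t
    · subst hj
      have e1 : nwp s.Q j u c (lam u) b Rw.p k ω j = rt j (2 ^ (c * (S.F k).n)) (crq s.Q j c k ω) := by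
        unfold nwp
        rw [if_pos rfl]
      rw [hXt, hval, e1, rt_eval, rt_crq]
    · rw [hXj k ω j hj]
      exact g j
  have hX'' : Rows.IsX ⟨Lab.ofZ W', c, e, hc0, he, hce⟩ R' X' := by
    refine ⟨fun _ => 0, S.Sub_const le_rfl, hXtyp.mono (Eventually.of_forall fun k => ?_)⟩
    intro (ω : (S.F k).Ω) _ hh j
    rw [hh j, sub_self, abs_zero, zero_mul]
  -- the zoom
  refine ⟨⟨⟨Lab.ofZ W', c, e, hc0, he, hce⟩, hcp, dm', max D (max κ 1), Λ, R', X', hX'', κz, hκ1, hek, hκ⟩, W', rfl,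
    Eventually.of_forall hle, hnW, rfl, rfl, rfl, ⟨(Lab.ofZ_DMf W').mpr hKdm', ?_⟩, ⟨?_, ?_⟩, ?_, ?_, rfl,
    fun a ha hla hT L hL => nwp_tam s.Q (t := t) (u := u) hc0 ha (hla u) b hbb hbx Rw.p hT L hL⟩
  · -- exact K-label
    have hKz : ∀ᶠ k in UF, ((Lab.ofZ W) k).leak (fc (R k)) = 0 := hK.2
    have hP : ∀ᶠ k in UF, ∀ ω ω' : (S.F k).Ω, (S.F k).μ ω ≠ 0 → (S.F k).μ ω' ≠ 0 → (S.F k).Z ω ω' → R k ω ω' →
        s.Q.v k ω = s.Q.v k ω' := hPt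
    have key : ∀ᶠ k in UF, ((Lab.ofZ W') k).leak (fc (R k)) = 0 := by
      filter_upwards [hKz, hP] with k h1 h2
      rw [Lab.ofZ_leak W (fun k => fc (R k)) k] at h1
      rw [Lab.ofZ_leak W' (fun k => fc (R k)) k]
      apply h_zero
      have h3 : fc (W k) ≤ fc (R k) := h_eq_zero_iff.mp h1
      have h4 : fc (W' k) ≤ fc (W k ⊓ R k) := by
        apply fc_le
        intro ω ω' a1 a2 a3 a4
        have e1 := h2 ω ω' a1 a2 a3 a4.2
        have e2 : (s.Q.co t).cellv c k ω = (s.Q.co t).cellv c k ω' := by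
          funext i
          show ⌊s.Q.v k ω t / S.dl c k⌋ = ⌊s.Q.v k ω' t / S.dl c k⌋
          rw [e1]
        exact ⟨⟨a4.1, e2⟩, hidx k ω ω' a4.1 a3 e2 e1⟩
      rw [fc_inf] at h4
      exact h4.trans (sup_le h3 le_rfl)
    exact key
  · -- the flag
    intro k ω j i hi
    have hi' : i ∈ (nwp s.Q t u c (lam u) b Rw.p k ω j).vars := hi
    unfold nwp at hi'
    split_ifs at hi' with g1 g2
    · rw [rt_vars _ _ _ i hi', g1]
    · rcases ru_vars _ _ _ _ i hi' with h3 | h3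
      · rw [h3]
        exact Fin.le_def.mpr (by rw [ht]; exact Nat.zero_le _)
      · rw [h3, g2]
    · exact htri k ω j i hi'
  · intro ε hε
    have key : S.Typ fun k (ω : (S.F k).Ω) => ∀ j, 2 ^ ((lam j - ε) * (S.F k).n) ≤
        |MvPolynomial.eval (s.Q.v k ω) (MvPolynomial.pderiv j (nwp s.Q t u c (lam u) b Rw.p k ω j))| ∧
        |MvPolynomial.eval (s.Q.v k ω) (MvPolynomial.pderiv j (nwp s.Q t u c (lam u) b Rw.p k ω j))| ≤
          2 ^ ((lam j + ε) * (S.F k).n) := by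
      refine (hex ε hε).mono (Eventually.of_forall fun k ω _ g j => ?_)
      have hn := (S.F k).pos
      have m1 : ∀ x : ℝ, (2 : ℝ) ^ ((x - ε) * (S.F k).n) ≤ 2 ^ (x * (S.F k).n) := fun x =>
        Real.rpow_le_rpow_of_exponent_le (by norm_num) (mul_le_mul_of_nonneg_right (by linarith) hn.le)
      have m2 : ∀ x : ℝ, (2 : ℝ) ^ (x * (S.F k).n) ≤ 2 ^ ((x + ε) * (S.F k).n) := fun x =>
        Real.rpow_le_rpow_of_exponent_le (by norm_num) (mul_le_mul_of_nonneg_right (by linarith) hn.le)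
      unfold nwp
      split_ifs with g1 g2
      · subst g1
        rw [rt_pderiv, MvPolynomial.eval_C, h0, abs_of_pos (by positivity : (0 : ℝ) < 2 ^ (c * (S.F k).n))]
        exact ⟨m1 c, m2 c⟩
      · subst g2
        rw [ru_pderiv hut, MvPolynomial.eval_C, abs_of_pos (by positivity : (0 : ℝ) < 2 ^ (lam j * (S.F k).n))]
        exact ⟨m1 _, m2 _⟩
      · exact g j
    exact key
  · -- the data
    obtain ⟨z', hz'⟩ : ∃ z' : RW s N, z' = ⟨⟨Lab.ofZ W', c, e, hc0, he, hce⟩, hcp, dm', max D (max κ 1), Λ, R', X', hX'',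
      κz, hκ1, hek, hκ⟩ := ⟨_, rfl⟩
    have hco : Zco s.Q (Lab.ofZ W') c e he t X' t (fun k (ω : (S.F k).Ω) => crq s.Q t c k ω) := by
      refine ⟨Eventually.of_forall fun k => ?_, fun _ => 0, S.Sub_const le_rfl, Eventually.of_forall fun k => ?_⟩
      · intro (ω : (S.F k).Ω) (ω' : (S.F k).Ω) a1 a2 a3
        have a4 : W' k ω ω' := a3.1
        exact crq_eq k ω ω' a4.1.2
      · intro (ω : (S.F k).Ω) _
        have e1 : s.Q.v k ω t - (crq s.Q t c k ω + S.dl c k * X'.v k ω t) = 0 := by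
          rw [hXt]
          unfold crq
          have := (S.dl_pos c k).ne'
          field_simp
          ring
        show |s.Q.v k ω t - (crq s.Q t c k ω + S.dl c k * X'.v k ω t)| ≤ 0 * _
        rw [e1, abs_zero, zero_mul]
    have hsl : SL (RW.sys ⟨⟨Lab.ofZ W', c, e, hc0, he, hce⟩, hcp, dm', max D (max κ 1), Λ, R', X', hX'', κz, hκ1, hek, hκ⟩)
        d.i t (zL ⟨Lab.ofZ W', c, e, hc0, he, hce⟩ s.Q t d.L) :=
      d.sl.zoom ⟨Lab.ofZ W', c, e, hc0, he, hce⟩ (dm' d.i)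
        (t' := RW.sys ⟨⟨Lab.ofZ W', c, e, hc0, he, hce⟩, hcp, dm', max D (max κ 1), Λ, R', X', hX'', κz, hκ1, hek, hκ⟩)
        (i' := d.i) (b := t) (fun w hw0 _ => RW.win_le
          ⟨⟨Lab.ofZ W', c, e, hc0, he, hce⟩, hcp, dm', max D (max κ 1), Λ, R', X', hX'', κz, hκ1, hek, hκ⟩ d.i hw0) hco
    obtain ⟨Ke, hKe, hTe⟩ := d.eq
    refine Dl.of_typ hsl (fun k (ω : (S.F k).Ω) l => 2 ^ (lam u * (S.F k).n) *
      (Pp (fun l => d.a k ω l - b k ω l) (crq s.Q t c k ω) (S.dl c k)).coeff (l : ℕ)) ?_ ?_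
    · filter_upwards [d.fa] with k a1
      intro (ω : (S.F k).Ω) (ω' : (S.F k).Ω) b1 b2 b3 b4
      have b5 : W' k ω ω' := b3.1
      have b6 : (S.F k).Z ω ω' := b3.2
      have e1 : d.a k ω = d.a k ω' := a1 ω ω' b1 b2 b6 b4.1
      have e2 : b k ω = b k ω' := hb k ω ω' b5.1.1 b6 b5.1.2 b5.2
      have e3 := crq_eq k ω ω' b5.1.2
      funext l
      rw [e1, e2, e3]
    · refine ⟨Ke, (ZU.Sub_sp ⟨Lab.ofZ W', c, e, hc0, he, hce⟩).1 hKe, ?_⟩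
      have hTe' : Typ (S := ZU.sp ⟨Lab.ofZ W', c, e, hc0, he, hce⟩) (fun k (ω : (S.F k).Ω) =>
        |s.Q.v k ω u - ∑ l, d.a k ω l * s.Q.v k ω t ^ (l : ℕ)| ≤ Ke k * S.dl 1 k) := hTe
      refine (hXtyp.and hTe').mono ?_
      filter_upwards [hKe.1] with k hk
      intro (ω : (S.F k).Ω) _ hh
      obtain ⟨g1, g2⟩ := hh
      have e0 : (ZU.sp ⟨Lab.ofZ W', c, e, hc0, he, hce⟩).dl 1 k = S.dl e k :=
        ZU.sp_dl1 ⟨Lab.ofZ W', c, e, hc0, he, hce⟩ k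
      rw [e0]
      have hx : s.Q.v k ω t = crq s.Q t c k ω + S.dl c k * X'.v k ω t := by
        rw [hXt]
        unfold crq
        have := (S.dl_pos c k).ne'
        field_simp
        ring
      have e1 : X'.v k ω u = 2 ^ (lam u * (S.F k).n) * (s.Q.v k ω u - pv (b k ω) (s.Q.v k ω t)) := by
        rw [g1 u, hval]
        have e2 : nwp s.Q t u c (lam u) b Rw.p k ω u = ru t u (2 ^ (lam u * (S.F k).n)) (b k ω) := by
          unfold nwp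
          rw [if_neg hut, if_pos rfl]
        rw [e2, ru_eval]
      have e3 : ∑ l : Fin (κ + 1), 2 ^ (lam u * (S.F k).n) *
          (Pp (fun l => d.a k ω l - b k ω l) (crq s.Q t c k ω) (S.dl c k)).coeff (l : ℕ) * X'.v k ω t ^ (l : ℕ) =
          2 ^ (lam u * (S.F k).n) * (pv (d.a k ω) (s.Q.v k ω t) - pv (b k ω) (s.Q.v k ω t)) := by
        simp only [mul_assoc]
        rw [← Finset.mul_sum, Pp_coeff, pv_sub, ← hx]
      show |X'.v k ω u - ∑ l : Fin (κ + 1), 2 ^ (lam u * (S.F k).n) *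
          (Pp (fun l => d.a k ω l - b k ω l) (crq s.Q t c k ω) (S.dl c k)).coeff (l : ℕ) * X'.v k ω t ^ (l : ℕ)| ≤ _
      rw [e3, e1, ← mul_sub, sub_sub_sub_cancel_right, abs_mul,
        abs_of_pos (by positivity : (0 : ℝ) < 2 ^ (lam u * (S.F k).n))]
      have g2' : |s.Q.v k ω u - pv (d.a k ω) (s.Q.v k ω t)| ≤ Ke k * S.dl 1 k := g2
      calc (2 : ℝ) ^ (lam u * (S.F k).n) * |s.Q.v k ω u - pv (d.a k ω) (s.Q.v k ω t)| ≤
            2 ^ (lam u * (S.F k).n) * (Ke k * S.dl 1 k) := mul_le_mul_of_nonneg_left g2' (by positivity)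
        _ = Ke k * (2 ^ (lam u * (S.F k).n) * S.dl 1 k) := by ring
        _ = Ke k * S.dl (1 - lam u) k := by rw [two_dl1]
        _ ≤ Ke k * S.dl e k := mul_le_mul_of_nonneg_left (S.dl_anti (by linarith) k) hk
  · -- the point is literal
    have hP : ∀ᶠ k in UF, ∀ ω ω' : (S.F k).Ω, (S.F k).μ ω ≠ 0 → (S.F k).μ ω' ≠ 0 → (S.F k).Z ω ω' → R k ω ω' →
        s.Q.v k ω = s.Q.v k ω' := hPt
    have hfn' : ∀ᶠ k in UF, ∀ ω ω' : (S.F k).Ω, (S.F k).μ ω ≠ 0 → (S.F k).μ ω' ≠ 0 → (S.F k).Z ω ω' → W' k ω ω' →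
        R'.p k ω = R'.p k ω' := R'.fn
    have key : ∀ᶠ k in UF, ∀ ω ω' : (S.F k).Ω, (S.F k).μ ω ≠ 0 → (S.F k).μ ω' ≠ 0 → (W' k ω ω' ∧ (S.F k).Z ω ω') →
        R k ω ω' → X'.v k ω = X'.v k ω' := by
      filter_upwards [hP, hfn'] with k h1 h2 ω ω' a1 a2 a3 a4
      have e1 := h1 ω ω' a1 a2 a3.2 a4
      have e2 := h2 ω ω' a1 a2 a3.2 a3.1
      funext j
      by_cases hj : j = t
      · rw [hj, hXt, hXt, e1]
      · rw [hXj k ω j hj, hXj k ω' j hj]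
        have e3 : Rows.val ⟨Lab.ofZ W', c, e, hc0, he, hce⟩ R' k ω j =
            Rows.val ⟨Lab.ofZ W', c, e, hc0, he, hce⟩ R' k ω' j := by
          show MvPolynomial.eval (s.Q.v k ω) (R'.p k ω j) = MvPolynomial.eval (s.Q.v k ω') (R'.p k ω' j)
          rw [e1, e2]
        show (if |Rows.val ⟨Lab.ofZ W', c, e, hc0, he, hce⟩ R' k ω j| ≤ _ then
          Rows.val ⟨Lab.ofZ W', c, e, hc0, he, hce⟩ R' k ω j else 0) =
          (if |Rows.val ⟨Lab.ofZ W', c, e, hc0, he, hce⟩ R' k ω' j| ≤ _ then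
            Rows.val ⟨Lab.ofZ W', c, e, hc0, he, hce⟩ R' k ω' j else 0)
        rw [e3]
    exact key

end

end Pool.Agent.Helper75.CC
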