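import Pool.Agent.Helper75.CC.Nw

/-! TAMENESS of the new rows at the distance `2 ^ (- a n)`. -/

set_option autoImplicit false

namespace Pool.Agent.Helper75.CC

open Finset Filter Topology Pool.Agent.Helper69.RK Pool.Agent.Helper31.EC Pool.Agent.Helper31.EC.Sp
open Pool.Agent.Helper40.EL Pool.Agent.Helper89.LX Pool.Agent.Helper3.LF Pool.Agent.Helper84.MT Pool.Agent.Helper36.AM
open Pool.Agent.Helper7.GZ

noncomputable section

variable {S : Sp} {N : ℕ}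

theorem two_dl_le (S : Sp) {c a : ℝ} (h : c ≤ a) (k : ℕ) : (2 : ℝ) ^ (c * (S.F k).n) * S.dl a k ≤ 1 := by
  rw [← two_dl S c k]
  exact mul_le_mul_of_nonneg_left (S.dl_anti h k) (by positivity)

/-- TAMENESS -/
theorem nwp_tam (Q : S.VV N) {t u : Fin N} {c lu a : ℝ} (hc : 0 ≤ c) (hca : c ≤ a) (hla : lu ≤ a) {κ : ℕ}
    (b : ∀ k, (S.F k).Ω → Fin (κ + 1) → ℝ) (hbb : ∃ K : ℕ → ℝ, S.Sub K ∧ ∀ᶠ k in UF, ∀ ω, (S.F k).μ ω ≠ 0 → ∀ l, |b k ω l| ≤ K k)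
    (hbx : ∃ K : ℕ → ℝ, S.Sub K ∧ S.Typ fun k ω => |Q.v k ω u - pv (b k ω) (Q.v k ω t)| ≤ K k * S.dl lu k)
    (p : ∀ k, (S.F k).Ω → Fin N → MvPolynomial (Fin N) ℝ)
    (hp : ∀ L : ℕ → ℝ, S.Sub L → ∃ K : ℕ → ℝ, S.Sub K ∧ S.Typ fun k ω => ∀ y : Fin N → ℝ,
      (∀ i, |y i - Q.v k ω i| ≤ L k * S.dl a k) → ∀ j, |MvPolynomial.eval y (p k ω j)| ≤ K k)
    (L : ℕ → ℝ) (hL : S.Sub L) : ∃ K : ℕ → ℝ, S.Sub K ∧ S.Typ fun k ω => ∀ y : Fin N → ℝ,
      (∀ i, |y i - Q.v k ω i| ≤ L k * S.dl a k) → ∀ j, |MvPolynomial.eval y (nwp Q t u c lu b p k ω j)| ≤ K k := by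
  obtain ⟨Kr, hKr, h1⟩ := hp L hL
  obtain ⟨KQ, hKQ, h2⟩ := Q.bd
  obtain ⟨Kb, hKb, h3⟩ := hbb
  obtain ⟨Kx, hKx, h4⟩ := hbx
  refine ⟨fun k => (L k + 1) + (Kx k + (1 + (κ + 1) * (Kb k * (κ * (KQ k + L k + 1) ^ κ))) * L k) + Kr k,
    ((hL.add (S.Sub_const zero_le_one)).add (hKx.add (((S.Sub_const zero_le_one).add ((S.Sub_const (by positivity)).mul (hKb.mul
      ((S.Sub_const (by positivity)).mul (Sub_pow' ((hKQ.add hL).add (S.Sub_const zero_le_one)) κ))))).mul hL))).add hKr, ?_⟩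
  refine (h1.and h4).mono ?_
  filter_upwards [hKr.1, h2, h3, hL.1, hKQ.1, hKb.1, hKx.1] with k a1 a2 a3 a4 a5 a6 a7 ω hω g y hy j
  obtain ⟨g1, g2⟩ := g
  obtain ⟨Z1, hZ1⟩ : ∃ Z1 : ℝ, Z1 = 1 + (κ + 1) * (Kb k * (κ * (KQ k + L k + 1) ^ κ)) := ⟨_, rfl⟩
  have hZ10 : 0 ≤ Z1 := by rw [hZ1]; positivity
  have hZL : 0 ≤ Z1 * L k := mul_nonneg hZ10 a4
  rw [← hZ1]
  have hda : S.dl a k ≤ 1 := by
    rw [← S.dl_zero k]
    exact S.dl_anti (hc.trans hca) k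
  unfold nwp
  split_ifs with f1 f2
  · rw [rt_eval]
    have e1 : (2 : ℝ) ^ (c * (S.F k).n) * (y t - crq Q t c k ω) =
        2 ^ (c * (S.F k).n) * (y t - Q.v k ω t) + 2 ^ (c * (S.F k).n) * (Q.v k ω t - crq Q t c k ω) := by ring
    have e2 : |(2 : ℝ) ^ (c * (S.F k).n) * (y t - Q.v k ω t)| ≤ L k := by
      rw [abs_mul, abs_of_pos (by positivity : (0 : ℝ) < 2 ^ (c * (S.F k).n))]
      calc (2 : ℝ) ^ (c * (S.F k).n) * |y t - Q.v k ω t| ≤ 2 ^ (c * (S.F k).n) * (L k * S.dl a k) :=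
            mul_le_mul_of_nonneg_left (hy t) (by positivity)
        _ = L k * (2 ^ (c * (S.F k).n) * S.dl a k) := by ring
        _ ≤ L k * 1 := mul_le_mul_of_nonneg_left (two_dl_le S hca k) a4
        _ = L k := mul_one _
    have e3 : |(2 : ℝ) ^ (c * (S.F k).n) * (Q.v k ω t - crq Q t c k ω)| ≤ 1 := by
      rw [rt_crq]
      have h3 := Int.floor_le (Q.v k ω t / S.dl c k)
      have h4 := Int.lt_floor_add_one (Q.v k ω t / S.dl c k)
      rw [abs_le]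
      constructor <;> linarith
    rw [e1]
    refine (abs_add_le _ _).trans ?_
    linarith
  · rw [ru_eval]
    have e1 : y u - pv (b k ω) (y t) = (Q.v k ω u - pv (b k ω) (Q.v k ω t)) +
        ((y u - Q.v k ω u) - (pv (b k ω) (y t) - pv (b k ω) (Q.v k ω t))) := by ring
    have hR1 : (1 : ℝ) ≤ KQ k + L k + 1 := by linarith
    have hx : |Q.v k ω t| ≤ KQ k + L k + 1 := (a2 ω hω t).trans (by linarith)
    have hyt : |y t| ≤ KQ k + L k + 1 := by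
      have h5 := abs_add_le (y t - Q.v k ω t) (Q.v k ω t)
      rw [sub_add_cancel] at h5
      have h6 := hy t
      have h7 : L k * S.dl a k ≤ L k * 1 := mul_le_mul_of_nonneg_left hda a4
      linarith [a2 ω hω t]
    have h5 := pv_sub_bd (a3 ω hω) hR1 hx hyt
    have h6 : |(y u - Q.v k ω u) - (pv (b k ω) (y t) - pv (b k ω) (Q.v k ω t))| ≤ Z1 * (L k * S.dl a k) := by
      refine (abs_sub _ _).trans ?_
      have h7 : (κ + 1) * (Kb k * (κ * (KQ k + L k + 1) ^ κ)) * |y t - Q.v k ω t| ≤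
          (κ + 1) * (Kb k * (κ * (KQ k + L k + 1) ^ κ)) * (L k * S.dl a k) :=
        mul_le_mul_of_nonneg_left (hy t) (by positivity)
      rw [hZ1, add_mul, one_mul]
      exact add_le_add (hy u) (h5.trans h7)
    have h8 : (2 : ℝ) ^ (lu * (S.F k).n) * |Q.v k ω u - pv (b k ω) (Q.v k ω t)| ≤ Kx k := by
      calc (2 : ℝ) ^ (lu * (S.F k).n) * |Q.v k ω u - pv (b k ω) (Q.v k ω t)| ≤
            2 ^ (lu * (S.F k).n) * (Kx k * S.dl lu k) := mul_le_mul_of_nonneg_left g2 (by positivity)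
        _ = Kx k * (2 ^ (lu * (S.F k).n) * S.dl lu k) := by ring
        _ = Kx k := by rw [two_dl, mul_one]
    have h9 : (2 : ℝ) ^ (lu * (S.F k).n) * |(y u - Q.v k ω u) - (pv (b k ω) (y t) - pv (b k ω) (Q.v k ω t))| ≤
        Z1 * L k := by
      calc (2 : ℝ) ^ (lu * (S.F k).n) * _ ≤ 2 ^ (lu * (S.F k).n) * (Z1 * (L k * S.dl a k)) :=
            mul_le_mul_of_nonneg_left h6 (by positivity)
        _ = Z1 * L k * (2 ^ (lu * (S.F k).n) * S.dl a k) := by ring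
        _ ≤ Z1 * L k * 1 := mul_le_mul_of_nonneg_left (two_dl_le S hla k) hZL
        _ = Z1 * L k := mul_one _
    rw [abs_mul, abs_of_pos (by positivity : (0 : ℝ) < 2 ^ (lu * (S.F k).n)), e1]
    refine (mul_le_mul_of_nonneg_left (abs_add_le _ _) (by positivity)).trans ?_
    rw [mul_add]
    linarith
  · exact (g1 y hy j).trans (by linarith)

end

end Pool.Agent.Helper75.CC
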