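import Pool.Agent.Helper75.CC.Rz
import Pool.Agent.Helper56.R0.Row0
import Pool.Agent.Helper80.OKC.Fld
import Pool.Agent.Helper18.SRT.Mx

/-! THE ZOOM CLAUSE OF `Okc` for the class `CL k`. -/

set_option autoImplicit false

namespace Pool.Agent.Helper75.CC

open Finset Filter Topology Pool.Agent.Helper69.RK Pool.Agent.Helper31.EC Pool.Agent.Helper31.EC.Sp
open Pool.Agent.Helper40.EL Pool.Agent.Helper89.LX Pool.Agent.Helper3.LF Pool.Agent.Helper84.MT Pool.Agent.Helper36.AM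
open Pool.Agent.Helper7.GZ
open Pool.Agent.Helper29.MX (Rsl KLb Flg Pt KZ rover OptLam volP Tam)
open Pool.Agent.Helper7.RD (RW)
open Pool.Agent.Helper87.NSL (cndR KnS)

noncomputable section

variable {S : Sp} {N : ℕ} {E : ℕ → ℕ} {ι : Type}

/-- the exponent of the first row -/
theorem lam_zero [Finite ι] {s : MSys S N E ι} {κ : ℕ} {t u : Fin N} (ht : t.val = 0) (d : Dl κ t u s) (R : Rsl S)
    (hPt : Pt s R) (z : RW s N) (lam : Fin N → ℝ) (hO : OptLam z R lam) : lam t = z.Z.c := by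
  have hN : 1 ≤ N := by have := t.2; omega
  obtain ⟨n, rfl⟩ : ∃ n, N = n + 1 := ⟨N - 1, by omega⟩
  have ht0 : t = 0 := Fin.ext ht
  subst ht0
  have hc0 := z.Z.h0
  have hc1 : z.Z.c ≤ 1 := by linarith [z.Z.h1, z.Z.hu]
  rcases hO with h | ⟨a, h0, h1, h2, -, -, h⟩
  · have e1 := h 0
    have e2 : volP s R z.Z.c (Nat.succ_le_of_lt (0 : Fin (n + 1)).2) = 1 - z.Z.c :=
      Pool.Agent.Helper80.OKC.volP_one (Nat.succ_le_of_lt (0 : Fin (n + 1)).2) d.sl ht hPt hc0 hc1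
    have e3 : volP s R z.Z.c (0 : Fin (n + 1)).2.le = 0 := Pool.Agent.Helper18.SRT.volP_zero s R z.Z.c _
    rw [e2, e3] at e1
    rw [e1]
    ring
  · have e1 := h 0
    have hca0 : 0 ≤ z.Z.c / a := div_nonneg hc0 h0.le
    have hca1 : z.Z.c / a ≤ 1 := by rw [div_le_one h0]; exact h2
    have e2 : volP (s.trn a h0 h1) R (z.Z.c / a) (Nat.succ_le_of_lt (0 : Fin (n + 1)).2) = 1 - z.Z.c / a :=
      Pool.Agent.Helper80.OKC.volP_one (Nat.succ_le_of_lt (0 : Fin (n + 1)).2) (d.sl.trn h0 h1) ht (by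
        filter_upwards [hPt] with k hk ω ω' b1 b2 b3 b4
        exact hk ω ω' b1 b2 b3.2 b4) hca0 hca1
    have e3 : volP (s.trn a h0 h1) R (z.Z.c / a) (0 : Fin (n + 1)).2.le = 0 :=
      Pool.Agent.Helper18.SRT.volP_zero (s.trn a h0 h1) R (z.Z.c / a) _
    rw [e2, e3] at e1
    rw [e1]
    field_simp
    ring

/-- **THE ZOOM CLAUSE** for the class `CL k` (all systems, all resolutions), with tameness -/
theorem cl_zoomT {N k : ℕ} {S : Sp} {g r : ℕ} (s : MSys S N (lin g) (Fin r)) (hs : CL N k S g r s) (R : Rsl S)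
    (hPt : Pt s R) (z : RW s N) (lam : Fin N → ℝ) (W : Rsl S) (hW : z.Z.l = Lab.ofZ W) (hK : KLb s R z.Z.c z.Z.l)
    (hF : Flg z lam) (hO : OptLam z R lam) :
    ∃ (z' : RW s N) (W' : Rsl S), z'.Z.l = Lab.ofZ W' ∧ (∀ᶠ k in UF, W' k ≤ W k) ∧
      Nul S (fun k => h (fc (W' k)) (fc (W k))) ∧ z'.Z.c = z.Z.c ∧ z'.Z.u = z.Z.u ∧ z'.κ = z.κ ∧ KLb s R z.Z.c z'.Z.l ∧
        Flg z' lam ∧ CL N k z'.Z.sp z'.κ r z'.sys ∧ Pt z'.sys (rover z'.Z.l z'.Z.u z'.Z.hu R) ∧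
          z'.D = max z.D (max k 1) ∧ ∀ a : ℝ, z.Z.c ≤ a → (∀ j, lam j ≤ a) → Tam z a → Tam z' a := by
  obtain ⟨t, u, ht, hu, ⟨d⟩⟩ := hs
  have h0 := lam_zero ht d R hPt z lam hO
  -- row 0
  have hn0 : Nul S (fun k => h (fc (Setoid.ker ((s.Q.co t).cellv z.Z.c k))) (fc (W k))) := by
    obtain ⟨⟨l, c, e, hc0, he, hce⟩, hcp, dm, D, Λ, Rw, X, hX, κz, hκ1, hek, hκ⟩ := z
    dsimp only at hW h0
    subst hW
    have htri : ∀ k (ω : (S.F k).Ω) j, ∀ i ∈ (Rw.p k ω j).vars, i ≤ j := hF.tri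
    have hex : ∀ ε : ℝ, 0 < ε → S.Typ fun k (ω : (S.F k).Ω) => ∀ j, 2 ^ ((lam j - ε) * (S.F k).n) ≤
        |MvPolynomial.eval (s.Q.v k ω) (MvPolynomial.pderiv j (Rw.p k ω j))| ∧
        |MvPolynomial.eval (s.Q.v k ω) (MvPolynomial.pderiv j (Rw.p k ω j))| ≤ 2 ^ ((lam j + ε) * (S.F k).n) := hF.ex
    have hbd : ∃ K : ℕ → ℝ, S.Sub K ∧ S.Typ fun k (ω : (S.F k).Ω) => ∀ j,
        |MvPolynomial.eval (s.Q.v k ω) (Rw.p k ω j)| ≤ K k := Rw.bd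
    have hfn : ∀ᶠ k in UF, ∀ ω ω' : (S.F k).Ω, (S.F k).μ ω ≠ 0 → (S.F k).μ ω' ≠ 0 → (S.F k).Z ω ω' → W k ω ω' →
        Rw.p k ω = Rw.p k ω' := Rw.fn
    obtain ⟨Kb, hKb, hb⟩ := hbd
    obtain ⟨K, hKs, _, hT⟩ := typ_sub_ge (S := S)
      (fun k (ω : (S.F k).Ω) => |MvPolynomial.eval (s.Q.v k ω) (MvPolynomial.pderiv t (Rw.p k ω t))|) (lam t)
      (fun ε hε => (hex ε hε).mono (Eventually.of_forall fun k ω _ g => (g t).1))
    exact Pool.Agent.Helper56.R0.row0_nul t W (D := D) (c := c) (fun k ω => Rw.p k ω t) (fun k ω => Rw.deg k ω t)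
      (fun k ω i hi => Fin.ext (by
        have h1 := Fin.le_def.mp (htri k ω t i hi)
        omega))
      (hfn.mono fun k hk ω ω' a1 a2 a3 a4 => congrFun (hk ω ω' a1 a2 a3 a4) t)
      ⟨Kb, hKb, hb.mono (Eventually.of_forall fun k ω _ g => g t)⟩
      ⟨K, hKs, hT.mono (Eventually.of_forall fun k ω _ g => by
        have h1 := mul_le_mul_of_nonneg_right g (S.dl_pos (lam t) k).le
        rw [two_dl] at h1
        rw [h0] at h1
        linarith)⟩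
  obtain ⟨z', W', c1, c2, c3, c4, c5, c6, c7, c8, c9, c10, c11, c12⟩ := clrow ht hu d R hPt z lam W hW hK hF h0 hn0
  exact ⟨z', W', c1, c2, c3, c4, c5, c6, c7, c8, ⟨t, u, ht, hu, c9⟩, c10, c11, c12⟩

/-- the zoom clause without the tameness -/
theorem cl_zoom {N k : ℕ} {S : Sp} {g r : ℕ} (s : MSys S N (lin g) (Fin r)) (hs : CL N k S g r s) (R : Rsl S)
    (hPt : Pt s R) (z : RW s N) (lam : Fin N → ℝ) (W : Rsl S) (hW : z.Z.l = Lab.ofZ W) (hK : KLb s R z.Z.c z.Z.l)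
    (hF : Flg z lam) (hO : OptLam z R lam) :
    ∃ (z' : RW s N) (W' : Rsl S), z'.Z.l = Lab.ofZ W' ∧ (∀ᶠ k in UF, W' k ≤ W k) ∧
      Nul S (fun k => h (fc (W' k)) (fc (W k))) ∧ z'.Z.c = z.Z.c ∧ z'.Z.u = z.Z.u ∧ z'.κ = z.κ ∧ KLb s R z.Z.c z'.Z.l ∧
        Flg z' lam ∧ CL N k z'.Z.sp z'.κ r z'.sys ∧ Pt z'.sys (rover z'.Z.l z'.Z.u z'.Z.hu R) ∧
          z'.D = max z.D (max k 1) := by
  obtain ⟨z', W', c1, c2, c3, c4, c5, c6, c7, c8, c9, c10, c11, -⟩ := cl_zoomT s hs R hPt z lam W hW hK hF hO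
  exact ⟨z', W', c1, c2, c3, c4, c5, c6, c7, c8, c9, c10, c11⟩

end

end Pool.Agent.Helper75.CC
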